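import Pool.Agent.H551Z.QuarticB
import Pool.Agent.H191Z.GenusDefs

/-!
# The Fermat quartic: two independent global differential forms
-/

set_option autoImplicit false

open MvPolynomial Pool.Agent.Helper198.Sch AlgebraicGeometry CategoryTheory Limits
  TopologicalSpace Pool.Agent.H191Z.Gerbe

namespace Pool.Agent.H551Z.Quartic

attribute [local instance] MvPolynomial.gradedAlgebra

section general

variable {σ : Type} {k : Type} [Field k]

/-- `V J` as a `k`-scheme. -/
noncomputable def XV (J : HI σ k) : Over (Spec (CommRingCat.of k)) := Over.mk (V.str J)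

/-- elements of the chart ring as sections. -/
noncomputable def sec (J : HI σ k) (c : σ) : CommRingCat.of (Ch J c) ⟶ Γ(V J, V.D J c) :=
  Proj.awayToSection (qgrad J.toIdeal) (gen J c)

/-- germs of elements of the chart ring. -/
noncomputable def gm (J : HI σ k) (c : σ) (x : (XV J).left) (hx : x ∈ V.D J c) :
    Ch J c →+* LocRing (XV J) x :=
  (germAt (XV J) (V.D J c) x hx).comp (sec J c).hom

lemma gm_stalkIso (J : HI σ k) (c : σ) (x : (XV J).left) (hx : x ∈ V.D J c) (r : Ch J c) :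
    (AlgebraicGeometry.Proj.stalkIso' (qgrad J.toIdeal) x (gm J c x hx r)).val =
      IsLocalization.map (M := Submonoid.powers (gen J c))
        (T := (ProjectiveSpectrum.asHomogeneousIdeal (𝒜 := qgrad J.toIdeal) x).toIdeal.primeCompl) _
        (RingHom.id _) (Submonoid.powers_le.mpr hx) (chVal J c r) := by
  have h := AlgebraicGeometry.Proj.stalkIso'_germ (qgrad J.toIdeal) (V.D J c) x hx
    ((sec J c).hom r)
  have h2 := ProjectiveSpectrum.Proj.awayToSection_apply (qgrad J.toIdeal) (gen J c) r ⟨x, hx⟩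
  exact (congrArg HomogeneousLocalization.val h).trans h2

lemma gm_frac_mul (J : HI σ k) (c : σ) (x : (XV J).left) (hx : x ∈ V.D J c) (a : σ) :
    algebraMap (MvPolynomial σ k ⧸ J.toIdeal) (Localization
      (ProjectiveSpectrum.asHomogeneousIdeal (𝒜 := qgrad J.toIdeal) x).toIdeal.primeCompl)
        (gen J c) *
      (AlgebraicGeometry.Proj.stalkIso' (qgrad J.toIdeal) x (gm J c x hx (frac J c a))).val =
    algebraMap (MvPolynomial σ k ⧸ J.toIdeal) _ (gen J a) := by
  rw [gm_stalkIso]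
  have h := congrArg (IsLocalization.map (M := Submonoid.powers (gen J c))
        (T := (ProjectiveSpectrum.asHomogeneousIdeal (𝒜 := qgrad J.toIdeal) x).toIdeal.primeCompl)
        (Localization
      (ProjectiveSpectrum.asHomogeneousIdeal (𝒜 := qgrad J.toIdeal) x).toIdeal.primeCompl)
        (RingHom.id _) (Submonoid.powers_le.mpr hx)) (chVal_frac J c a)
  rw [map_mul, IsLocalization.map_eq, IsLocalization.map_eq] at h
  exact h

lemma gm_trans (J : HI σ k) (c c' : σ) (x : (XV J).left) (hx : x ∈ V.D J c)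
    (hx' : x ∈ V.D J c') (a : σ) :
    gm J c x hx (frac J c a) = gm J c x hx (frac J c c') * gm J c' x hx' (frac J c' a) := by
  apply (AlgebraicGeometry.Proj.stalkIso' (qgrad J.toIdeal) x).injective
  apply HomogeneousLocalization.val_injective
  have e := (AlgebraicGeometry.Proj.stalkIso' (qgrad J.toIdeal) x).map_mul
    (gm J c x hx (frac J c c')) (gm J c' x hx' (frac J c' a))
  refine Eq.trans ?_ (congrArg HomogeneousLocalization.val e).symm
  rw [HomogeneousLocalization.val_mul]
  have h1 := gm_frac_mul J c x hx a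
  have h2 := gm_frac_mul J c x hx c'
  have h3 := gm_frac_mul J c' x hx' a
  have hu : IsUnit (algebraMap (MvPolynomial σ k ⧸ J.toIdeal) (Localization
      (ProjectiveSpectrum.asHomogeneousIdeal (𝒜 := qgrad J.toIdeal) x).toIdeal.primeCompl)
        (gen J c)) := IsLocalization.map_units _ (⟨gen J c, hx⟩ :
          (ProjectiveSpectrum.asHomogeneousIdeal (𝒜 := qgrad J.toIdeal) x).toIdeal.primeCompl)
  apply hu.mul_left_cancel
  rw [h1, ← mul_assoc, h2, h3]

lemma away_sec {A : Type} [CommRing A] {τ : Type} [SetLike τ A] [AddSubgroupClass τ A]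
    (𝒜 : ℕ → τ) [GradedRing 𝒜] (f : A) {m : ℕ} (hf : f ∈ 𝒜 m) (hm : 0 < m)
    (h : ⊤ ≤ Proj.awayι 𝒜 f hf hm ⁻¹ᵁ Proj.basicOpen 𝒜 f) :
    Proj.awayToSection 𝒜 f ≫ (Proj.awayι 𝒜 f hf hm).appLE (Proj.basicOpen 𝒜 f) ⊤ h =
      (Scheme.ΓSpecIso (.of (HomogeneousLocalization.Away 𝒜 f))).inv := by
  have h1 : (Proj.basicOpenToSpec 𝒜 f).appLE ⊤ ⊤ le_top = (Scheme.ΓSpecIso _).hom ≫
      Proj.awayToSection 𝒜 f ≫ (Proj.basicOpen 𝒜 f).topIso.inv := by
    have := Proj.basicOpenToSpec_app_top 𝒜 f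
    rw [Scheme.Hom.app_eq_appLE] at this
    exact this
  have h2 : Proj.basicOpenToSpec 𝒜 f ≫ Proj.awayι 𝒜 f hf hm = (Proj.basicOpen 𝒜 f).ι := by
    rw [← Proj.basicOpenIsoSpec_hom _ _ hf hm]
    exact Iso.hom_inv_id_assoc _ _
  have h3 : IsIso (Proj.basicOpenToSpec 𝒜 f) := by
    rw [← Proj.basicOpenIsoSpec_hom _ _ hf hm]
    infer_instance
  have h4 : IsIso ((Proj.basicOpenToSpec 𝒜 f).appLE ⊤ ⊤ le_top) := by
    have : IsIso ((Proj.basicOpenToSpec 𝒜 f).app ⊤) := inferInstance
    rw [Scheme.Hom.app_eq_appLE] at this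
    exact this
  rw [← cancel_mono ((Proj.basicOpenToSpec 𝒜 f).appLE ⊤ ⊤ le_top)]
  conv_rhs => rw [h1]
  rw [Iso.inv_hom_id_assoc, Category.assoc]
  congr 1
  rw [Scheme.Hom.appLE_comp_appLE]
  simp only [h2]
  simp [Scheme.Hom.appLE, Scheme.Opens.ι_app, -Functor.map_comp]
  rfl

lemma sec_chart (J : HI σ k) (c : σ) (h : ⊤ ≤ V.chart J c ⁻¹ᵁ V.D J c) :
    sec J c ≫ (V.chart J c).appLE (V.D J c) ⊤ h = (Scheme.ΓSpecIso (.of (Ch J c))).inv :=
  away_sec (qgrad J.toIdeal) (gen J c) (gen_mem J c) one_pos h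

lemma germ_closed {R : CommRingCat.{0}} [IsLocalRing R] {X : Scheme.{0}} (f : Spec R ⟶ X)
    (U : X.Opens) (hU : f (IsLocalRing.closedPoint R) ∈ U) (h : ⊤ ≤ f ⁻¹ᵁ U) :
    X.presheaf.germ U _ hU ≫ Scheme.stalkClosedPointTo f =
      f.appLE U ⊤ h ≫ (Scheme.ΓSpecIso R).hom := by
  rw [Scheme.germ_stalkClosedPointTo, Scheme.Hom.appLE, Category.assoc]
  rfl

lemma specMap_appLE {R S : CommRingCat.{0}} (φ : R ⟶ S) :
    (Scheme.ΓSpecIso R).inv ≫ (Spec.map φ).appLE ⊤ ⊤ le_top ≫ (Scheme.ΓSpecIso S).hom = φ := by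
  have h : (Spec.map φ).appLE ⊤ ⊤ le_top = (Spec.map φ).appTop := by
    rw [Scheme.Hom.appTop, Scheme.Hom.app_eq_appLE]
    rfl
  rw [h, Scheme.ΓSpecIso_naturality, Iso.inv_hom_id_assoc]

section pt

variable (J : HI σ k) (c : σ) {E : Type} [CommRing E] [IsLocalRing E] [Algebra k E]
  (φ : Ch J c →ₐ[k] E)

/-- the image of the closed point -/
noncomputable def cpt : (XV J).left := ptOf J c φ (IsLocalRing.closedPoint E)

lemma cpt_mem : cpt J c φ ∈ V.D J c :=
  ptOf_mem J c φ _ c (by rw [frac_self, map_one]; exact isUnit_one)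

/-- evaluation of germs -/
noncomputable def evR : LocRing (XV J) (cpt J c φ) →+* E :=
  (Scheme.stalkClosedPointTo (R := .of E) (ptOf J c φ)).hom

lemma evR_gm (r : Ch J c) : evR J c φ (gm J c _ (cpt_mem J c φ) r) = φ r := by
  have h0 : ⊤ ≤ V.chart J c ⁻¹ᵁ V.D J c := by
    intro y _
    exact (V.mem_range_chart J c _).1 ⟨y, rfl⟩
  have h1 : ⊤ ≤ ptOf J c φ ⁻¹ᵁ V.D J c := by
    intro y _
    exact ptOf_mem J c φ y c (by rw [frac_self, map_one]; exact isUnit_one)
  have h2 := germ_closed (R := .of E) (ptOf J c φ) (V.D J c) (cpt_mem J c φ) h1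
  have h3 : (ptOf J c φ).appLE (V.D J c) ⊤ h1 = (V.chart J c).appLE (V.D J c) ⊤ h0 ≫
      (Spec.map (CommRingCat.ofHom (φ : Ch J c →+* E))).appLE ⊤ ⊤ le_top := by
    rw [Scheme.Hom.appLE_comp_appLE]
    rfl
  have h4 : sec J c ≫ (V J).presheaf.germ (V.D J c) _ (cpt_mem J c φ) ≫
      Scheme.stalkClosedPointTo (R := .of E) (ptOf J c φ) =
      CommRingCat.ofHom (φ : Ch J c →+* E) := by
    refine (congrArg (fun g => sec J c ≫ g) h2).trans ?_
    rw [h3, Category.assoc, ← Category.assoc (sec J c), sec_chart, specMap_appLE]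
  exact congrArg (fun g => g.hom r) h4

lemma evR_algebraMap (a : k) :
    evR J c φ (algebraMap k (LocRing (XV J) (cpt J c φ)) a) = algebraMap k E a := by
  have h2 := germ_closed (R := .of E) (ptOf J c φ) ⊤ trivial le_top
  have h3 : (V.str J).appTop ≫ (ptOf J c φ).appLE ⊤ ⊤ le_top =
      (Spec.map (CommRingCat.ofHom (algebraMap k E))).appLE ⊤ ⊤ le_top := by
    rw [← ptOf_str J c φ, Scheme.Hom.appTop, Scheme.Hom.app_eq_appLE]
    exact Scheme.Hom.appLE_comp_appLE _ _ _ _ _ _ _
  have h4 : ((Scheme.ΓSpecIso (CommRingCat.of k)).inv ≫ (V.str J).appTop) ≫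
      (V J).presheaf.germ ⊤ _ trivial ≫
      Scheme.stalkClosedPointTo (R := .of E) (ptOf J c φ) =
      CommRingCat.ofHom (algebraMap k E) := by
    refine (congrArg (fun g => ((Scheme.ΓSpecIso (CommRingCat.of k)).inv ≫ (V.str J).appTop) ≫ g)
      h2).trans ?_
    rw [Category.assoc, ← Category.assoc (V.str J).appTop, h3, specMap_appLE]
  exact congrArg (fun g => g.hom a) h4

/-- evaluation of germs as an algebra map -/
noncomputable def evA : LocRing (XV J) (cpt J c φ) →ₐ[k] E :=
  { evR J c φ with commutes' := evR_algebraMap J c φ }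

lemma evA_gm (r : Ch J c) : evA J c φ (gm J c _ (cpt_mem J c φ) r) = φ r := evR_gm J c φ r

end pt

end general

section algebra

variable {k A M : Type*} [Field k] [CommRing A] [Algebra k A] [AddCommGroup M] [Module A M]
  [Module k M]

/-- gluing identity -/
lemma glue (h4 : (4 : k) ≠ 0) (D : Derivation k A M) (a b a' b' : A)
    (h : 1 + a ^ 4 + b ^ 4 = 0) (h1 : a * b' = 1) (h2 : b = a * a') :
    a • (a • D b - b • D a) = a' • D b' - b' • D a' := by
  have h4' : IsUnit (4 : A) := by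
    have := (IsUnit.mk0 _ h4).map (algebraMap k A)
    rwa [map_ofNat] at this
  obtain ⟨q, hq⟩ := h4'.exists_left_inv
  have d0 := congrArg D h
  rw [map_add, map_add, D.map_one_eq_zero, D.leibniz_pow, D.leibniz_pow, map_zero] at d0
  have d0' : (4 * a ^ 3) • D a + (4 * b ^ 3) • D b = 0 := by
    rw [← d0]; norm_num; module
  have d1 := congrArg D h1
  rw [D.leibniz, D.map_one_eq_zero] at d1
  have d2 := congrArg D h2
  rw [D.leibniz] at d2
  have e0 : a ^ 3 • D a + b ^ 3 • D b = 0 := by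
    linear_combination (norm := module) q • d0' - hq • (a ^ 3 • D a + b ^ 3 • D b)
  have e1 : D b' = -(b' ^ 2) • D a := by
    linear_combination (norm := module) b' • d1 - h1 • D b'
  have e2 : D a' = b' • D b - (a' * b') • D a := by
    linear_combination (norm := module) (-b') • d2 - h1 • D a'
  have e3 : a ^ 3 • (a • D b - b • D a) = -D b := by
    linear_combination (norm := module) (-b) • e0 + h • D b
  rw [e1, e2]
  have hh : (a * b') ^ 2 = 1 := by rw [h1]; ring
  linear_combination (norm := module) (b' ^ 2) • e3 - hh • (a • (a • D b - b • D a))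

end algebra

section tangent

variable {k A K : Type} [Field k] [CommRing A] [Algebra k A] [Field K] [Algebra k K]

lemma tangent (Φ : A →ₐ[k] DualNumber K) (u a b : A)
    (h : u • (a • KaehlerDifferential.D k A b - b • KaehlerDifferential.D k A a) = 0) :
    (Φ u).fst * ((Φ a).fst * (Φ b).snd - (Φ b).fst * (Φ a).snd) = 0 := by
  let ψ : A →ₐ[k] K := ((TrivSqZeroExt.fstHom k K K)).comp Φ
  let : Algebra A K := (ψ : A →+* K).toAlgebra
  have : IsScalarTower k A K := IsScalarTower.of_algebraMap_eq (fun x => (ψ.commutes x).symm)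
  let L : A →ₗ[k] K := ((TrivSqZeroExt.sndHom K K).restrictScalars k).comp Φ.toLinearMap
  have hL : ∀ x, L x = (Φ x).snd := fun _ => rfl
  have hs : ∀ (x : A) (y : K), x • y = (Φ x).fst * y := fun _ _ => rfl
  let δ : Derivation k A K := Derivation.mk' L (by
    intro x y
    rw [hL, hL, hL, hs, hs, map_mul, DualNumber.snd_mul]
    ring)
  have h1 := congrArg δ.liftKaehlerDifferential h
  rw [map_smul, map_sub, map_smul, map_smul, Derivation.liftKaehlerDifferential_comp_D,
    Derivation.liftKaehlerDifferential_comp_D, map_zero, hs, hs, hs] at h1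
  exact h1

end tangent

section forms

variable {k : Type} [Field k]

/-- the local generator of the differentials on the chart `i`. -/
noncomputable def theta (i : Fin 3) (x : (XV (JF k)).left) (hx : x ∈ V.D (JF k) i) :
    KaehlerDifferential k (LocRing (XV (JF k)) x) :=
  gm (JF k) i x hx (frac (JF k) i (i + 1)) •
      KaehlerDifferential.D k _ (gm (JF k) i x hx (frac (JF k) i (i + 2))) -
    gm (JF k) i x hx (frac (JF k) i (i + 2)) •
      KaehlerDifferential.D k _ (gm (JF k) i x hx (frac (JF k) i (i + 1)))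

lemma theta_succ (h4 : (4 : k) ≠ 0) (i : Fin 3) (x : (XV (JF k)).left) (hx : x ∈ V.D (JF k) i)
    (hx' : x ∈ V.D (JF k) (i + 1)) :
    gm (JF k) i x hx (frac (JF k) i (i + 1)) • theta i x hx = theta (i + 1) x hx' := by
  have e1 : i + 1 + 1 = i + 2 := by fin_cases i <;> rfl
  have e2 : i + 1 + 2 = i := by fin_cases i <;> rfl
  unfold theta
  rw [e1, e2]
  apply glue h4
  · have := congrArg (gm (JF k) i x hx) (frac_rel (R := k) i)
    simpa only [map_add, map_one, map_pow, map_zero] using this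
  · rw [← gm_trans, frac_self, map_one]
  · exact gm_trans _ _ _ _ _ _ _

lemma theta_trans (h4 : (4 : k) ≠ 0) (i j : Fin 3) (x : (XV (JF k)).left)
    (hx : x ∈ V.D (JF k) i) (hx' : x ∈ V.D (JF k) j) :
    gm (JF k) i x hx (frac (JF k) i j) • theta i x hx = theta j x hx' := by
  rcases cyc_cases i j with rfl | rfl | h
  · rw [frac_self, map_one, one_smul]
  · exact theta_succ h4 i x hx hx'
  · have e : i = j + 1 := by rw [h]; fin_cases i <;> rfl
    subst e
    rw [← theta_succ h4 j x hx' hx, smul_smul, mul_comm, ← gm_trans, frac_self, map_one, one_smul]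

/-- a chart containing the point -/
noncomputable def ci (x : (XV (JF k)).left) : Fin 3 := (V.exists_mem_D (JF k) x).choose

lemma ci_mem (x : (XV (JF k)).left) : x ∈ V.D (JF k) (ci x) :=
  (V.exists_mem_D (JF k) x).choose_spec

/-- the global forms -/
noncomputable def eta (m : Fin 3) (x : (XV (JF k)).left) :
    KaehlerDifferential k (LocRing (XV (JF k)) x) :=
  gm (JF k) (ci x) x (ci_mem x) (frac (JF k) (ci x) m) • theta (ci x) x (ci_mem x)

lemma eta_eq (h4 : (4 : k) ≠ 0) (m i : Fin 3) (x : (XV (JF k)).left) (hx : x ∈ V.D (JF k) i) :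
    eta m x = gm (JF k) i x hx (frac (JF k) i m) • theta i x hx := by
  rw [eta, ← theta_trans h4 (ci x) i x (ci_mem x) hx, smul_smul, mul_comm, ← gm_trans]

lemma eta_global (h4 : (4 : k) ≠ 0) (m : Fin 3) : IsGlobalForm (XV (JF k)) (eta m) := by
  intro x
  refine ⟨V.D (JF k) (ci x), ci_mem x, 2,
    ![(sec (JF k) (ci x)).hom (frac (JF k) (ci x) m * frac (JF k) (ci x) (ci x + 1)),
      (sec (JF k) (ci x)).hom (-(frac (JF k) (ci x) m * frac (JF k) (ci x) (ci x + 2)))],
    ![(sec (JF k) (ci x)).hom (frac (JF k) (ci x) (ci x + 2)),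
      (sec (JF k) (ci x)).hom (frac (JF k) (ci x) (ci x + 1))], ?_⟩
  intro y hy
  rw [eta_eq h4 m (ci x) y hy, Fin.sum_univ_two]
  change _ = gm (JF k) (ci x) y hy (frac (JF k) (ci x) m * frac (JF k) (ci x) (ci x + 1)) •
      KaehlerDifferential.D k _ (gm (JF k) (ci x) y hy (frac (JF k) (ci x) (ci x + 2))) +
    gm (JF k) (ci x) y hy (-(frac (JF k) (ci x) m * frac (JF k) (ci x) (ci x + 2))) •
      KaehlerDifferential.D k _ (gm (JF k) (ci x) y hy (frac (JF k) (ci x) (ci x + 1)))
  rw [theta, map_neg, map_mul, map_mul]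
  module

lemma eta_indep [Fintype k] (hk : Fintype.card k = 5) (s t : k)
    (h : s • eta (k := k) 0 + t • eta (k := k) 1 = 0) : s = 0 ∧ t = 0 := by
  have h5 := five_eq_zero hk
  have h2 := two_ne_zero5 h5
  have h4 : (4 : k) ≠ 0 := by
    have : (4 : k) = 2 * 2 := by norm_num
    rw [this]; exact mul_ne_zero h2 h2
  obtain ⟨x0, hx0⟩ :=
    IsAlgClosed.exists_pow_nat_eq (-1 : AlgebraicClosure k) (n := 4) (by norm_num)
  have hrel : (1 : DualNumber (AlgebraicClosure k)) + (TrivSqZeroExt.inl x0) ^ 4 +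
      DualNumber.eps ^ 4 = 0 := by
    have e1 : (DualNumber.eps : DualNumber (AlgebraicClosure k)) ^ 4 = 0 := by
      have := DualNumber.eps_mul_eps (R := AlgebraicClosure k)
      calc (DualNumber.eps : DualNumber (AlgebraicClosure k)) ^ 4 =
        (DualNumber.eps * DualNumber.eps) * DualNumber.eps ^ 2 := by ring
        _ = 0 := by rw [this, zero_mul]
    rw [e1, TrivSqZeroExt.inl_pow, hx0, add_zero, TrivSqZeroExt.inl_neg, TrivSqZeroExt.inl_one,
      add_neg_cancel]
  let φ : Ch (JF k) 0 →ₐ[k] DualNumber (AlgebraicClosure k) := lift 0 _ _ hrel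
  let x := cpt (JF k) 0 φ
  have hx : x ∈ V.D (JF k) 0 := cpt_mem (JF k) 0 φ
  have h1 := congrFun h x
  rw [Pi.add_apply, Pi.smul_apply, Pi.smul_apply, Pi.zero_apply, eta_eq h4 0 0 x hx,
    eta_eq h4 1 0 x hx, frac_self, map_one] at h1
  have h3 : (algebraMap k (LocRing (XV (JF k)) x) s +
      algebraMap k (LocRing (XV (JF k)) x) t * gm (JF k) 0 x hx (frac (JF k) 0 (0 + 1))) •
      theta 0 x hx = 0 := by
    rw [← h1, add_smul, mul_smul, algebraMap_smul, algebraMap_smul, one_smul]
    rfl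
  have h6 := tangent (evA (JF k) 0 φ) _ _ _ h3
  rw [map_add, map_mul, AlgHom.commutes, AlgHom.commutes, evA_gm, evA_gm, lift_one, lift_two]
    at h6
  simp only [TrivSqZeroExt.fst_add, TrivSqZeroExt.fst_mul, TrivSqZeroExt.fst_inl,
    TrivSqZeroExt.snd_inl, DualNumber.snd_eps, DualNumber.fst_eps, mul_one, mul_zero,
    sub_zero] at h6
  have hx00 : x0 ≠ 0 := by
    rintro rfl
    norm_num at hx0
  have h7 : algebraMap k (AlgebraicClosure k) s + algebraMap k (AlgebraicClosure k) t * x0 = 0 :=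
    (mul_eq_zero.1 h6).resolve_right hx00
  have ht : t = 0 := by
    by_contra ht
    have ht' : algebraMap k (AlgebraicClosure k) t ≠ 0 := (map_ne_zero _).2 ht
    have e : x0 = algebraMap k (AlgebraicClosure k) (-s / t) := by
      rw [map_div₀, map_neg, eq_div_iff ht']
      linear_combination h7
    rw [e, ← map_pow] at hx0
    have e2 : (-s / t) ^ 4 = -1 := by
      apply (algebraMap k (AlgebraicClosure k)).injective
      rw [hx0, map_neg, map_one]
    rcases pow_four_cases hk (-s / t) with h8 | h8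
    · exact one_ne_zero (α := k) (by linear_combination e2 - h8)
    · exact h2 (by linear_combination e2 - h8)
  refine ⟨?_, ht⟩
  rw [ht, map_zero, zero_mul, add_zero] at h7
  exact (map_eq_zero _).1 h7

lemma genus_ge [Fintype k] (hk : Fintype.card k = 5) : 2 ≤ genus (XV (JF k)) := by
  have h2 := two_ne_zero5 (five_eq_zero hk)
  have h4 : (4 : k) ≠ 0 := by
    have : (4 : k) = 2 * 2 := by norm_num
    rw [this]; exact mul_ne_zero h2 h2
  let W := Submodule.span k {ω | IsGlobalForm (XV (JF k)) ω}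
  let w0 : W := ⟨eta 0, Submodule.subset_span (eta_global h4 0)⟩
  let w1 : W := ⟨eta 1, Submodule.subset_span (eta_global h4 1)⟩
  have hli : LinearIndependent k ![w0, w1] := by
    rw [LinearIndependent.pair_iff]
    intro s t h
    exact eta_indep hk s t (congrArg Subtype.val h)
  have h3 := hli.cardinal_le_rank
  have h5 : (2 : Cardinal) ≤ Module.rank k W := by simpa using h3
  exact h5

end forms

theorem quartic (k : Type) [Field k] [Fintype k] (hk : Fintype.card k = 5) :
    ∃ X : Over (Spec (CommRingCat.of k)), IsProper X.hom ∧ SmoothOfRelativeDimension 1 X.hom ∧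
      GeometricallyIntegral X.hom ∧ GeometricallyConnected X.hom ∧
      2 ≤ Pool.Agent.H191Z.Gerbe.genus X ∧
      IsEmpty (Over.mk (𝟙 (Spec (CommRingCat.of k))) ⟶ X) ∧
      Nonempty (Over.mk (Spec.map (CommRingCat.ofHom (algebraMap k (AlgebraicClosure k)))) ⟶ X) := by
  have h2 := two_ne_zero5 (five_eq_zero hk)
  have h4 : (4 : k) ≠ 0 := by
    have : (4 : k) = 2 * 2 := by norm_num
    rw [this]; exact mul_ne_zero h2 h2
  refine ⟨XV (JF k), isProper_str _, smooth_str (IsUnit.mk0 _ h4), geomIntegral k h2,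
    geomConnected k h2, genus_ge hk, ⟨fun f => no_point hk f.left⟩, ?_⟩
  obtain ⟨x, hx⟩ := exists_good k
  exact ⟨Over.homMk (ptOf (JF k) 0 (lift 0 1 x hx)) (ptOf_str _ _ _)⟩

end Pool.Agent.H551Z.Quartic
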