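import Mathlib

/-! Combinatorial part of the counterexample on common hypercyclic vectors. -/

set_option autoImplicit false

open Finset

namespace Pool.Agent.H551Z.CH

lemma card_le_of_diam (S : Finset ℕ) (L : ℝ) (hL : 0 ≤ L)
    (h : ∀ i ∈ S, ∀ j ∈ S, i ≤ j → (j:ℝ) - i ≤ L) : (S.card : ℝ) ≤ L + 1 := by
  rcases S.eq_empty_or_nonempty with rfl | hne
  · simp; linarith
  · set m := S.min' hne with hm
    have hsub : S ⊆ Finset.Icc m (m + ⌊L⌋₊) := by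
      intro j hj
      rw [Finset.mem_Icc]
      have h1 : m ≤ j := S.min'_le j hj
      refine ⟨h1, ?_⟩
      have h2 := h m (S.min'_mem hne) j hj h1
      have h3 : j - m ≤ ⌊L⌋₊ := Nat.le_floor (by rw [Nat.cast_sub h1]; exact h2)
      omega
    have h4 := Finset.card_le_card hsub
    rw [Nat.card_Icc] at h4
    have h5 : S.card ≤ ⌊L⌋₊ + 1 := by omega
    have h6 : (S.card : ℝ) ≤ ⌊L⌋₊ + 1 := by exact_mod_cast h5
    linarith [Nat.floor_le hL]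

lemma sum_inv_le (S : Finset ℕ) (c : ℝ) (hc : 0 ≤ c) (h1 : ∀ n ∈ S, 1 ≤ n)
    (h : ∀ n₁ ∈ S, (∀ n ∈ S, n₁ ≤ n) → (S.card : ℝ) ≤ c * n₁) :
    ∑ n ∈ S, (1 / (n:ℝ)) ≤ c := by
  rcases S.eq_empty_or_nonempty with rfl | hne
  · simpa using hc
  · set m := S.min' hne with hm
    have hmS : m ∈ S := S.min'_mem hne
    have hm1 : (1:ℝ) ≤ m := by exact_mod_cast h1 m hmS
    have h2 := h m hmS (fun n hn => S.min'_le n hn)
    calc ∑ n ∈ S, (1 / (n:ℝ)) ≤ ∑ _n ∈ S, (1 / (m:ℝ)) := by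
          refine Finset.sum_le_sum fun n hn => ?_
          have : (m:ℝ) ≤ n := by exact_mod_cast S.min'_le n hn
          exact one_div_le_one_div_of_le (by linarith) this
      _ = S.card * (1 / (m:ℝ)) := by simp
      _ ≤ c * m * (1 / (m:ℝ)) := by gcongr
      _ = c := by field_simp

/-- The data entering the counting argument. -/
structure Sys where
  hit : ℕ → ℝ → Prop
  base : ℕ → ℝ → Prop
  N : ℕ → ℕ
  s0 : ℝ
  hN0 : ∀ m, 100000 + m ≤ N m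
  hN : ∀ m, N (m + 1) = N m ^ 7
  hP : ∀ (m n₀ : ℕ) (s : ℝ) (n₁ : ℕ) (u₁ : ℝ) (n₂ : ℕ) (u₂ : ℝ), base n₀ s → hit n₁ u₁ →
    hit n₂ u₂ → n₀ ≤ n₁ → n₁ ≤ n₂ → n₂ ≤ n₀ + N (m + 1) →
    -(N (m + 1) : ℝ) ≤ n₁ * u₁ - s → -(N (m + 1) : ℝ) ≤ n₂ * u₂ - s →
    44 * (N m : ℝ) - ((n₁:ℝ) - n₀) ≤ n₁ * u₁ - s → 44 * (N m : ℝ) - ((n₂:ℝ) - n₀) ≤ n₂ * u₂ - s →
    2 * ((n₂:ℝ) - n₁) ≤ n₂ * u₂ - n₁ * u₁ + 44 * N m
  hB : ∀ n u, hit n u → base n (n * u + 1)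
  hW : ∀ n u u', hit n u → hit n u' → |(n:ℝ) * u - n * u'| ≤ 3 / 1000000
  h0 : base 0 s0
  hs0 : 0 ≤ s0

variable (Y : Sys)

/-- `n` is a hitting time for the parameter interval `[p, p + l]`. -/
def Sys.JH (p l : ℝ) (n : ℕ) : Prop := ∃ u, p ≤ u ∧ u ≤ p + l ∧ Y.hit n u

lemma Sys.N_ge (m : ℕ) : (100000:ℝ) ≤ Y.N m := by
  have := Y.hN0 m
  have h : 100000 ≤ Y.N m := by omega
  exact_mod_cast h

lemma Sys.N_le_succ (m : ℕ) : (Y.N m : ℝ) ≤ Y.N (m + 1) := by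
  rw [Y.hN m]
  have h := Y.hN0 m
  have : Y.N m ≤ Y.N m ^ 7 := Nat.le_self_pow (by norm_num) _
  exact_mod_cast this

lemma Sys.C1 {p l τ : ℝ} (hp : 0 ≤ p) (hl : 0 ≤ l) (hpl : p + l ≤ 1) (m : ℕ) {n₀ n₁ n₂ : ℕ}
    (h₀ : Y.JH p l n₀) (h₁ : Y.JH p l n₁) (h₂ : Y.JH p l n₂) (h01 : n₀ ≤ n₁) (h12 : n₁ ≤ n₂)
    (hw : n₂ ≤ n₀ + Y.N (m + 1)) (hτ : (n₂:ℝ) ≤ τ) (hτN : τ * l + 1 ≤ Y.N (m + 1))
    (hfar : τ * l + 1 + 44 * Y.N m ≤ (n₁:ℝ) - n₀) :
    (n₂:ℝ) - n₁ ≤ τ * l + 44 * Y.N m := by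
  obtain ⟨u₀, a₀, b₀, c₀⟩ := h₀
  obtain ⟨u₁, a₁, b₁, c₁⟩ := h₁
  obtain ⟨u₂, a₂, b₂, c₂⟩ := h₂
  have r01 : (n₀:ℝ) ≤ n₁ := by exact_mod_cast h01
  have r12 : (n₁:ℝ) ≤ n₂ := by exact_mod_cast h12
  have r0 : (0:ℝ) ≤ n₀ := Nat.cast_nonneg _
  have key : ∀ (n : ℝ) (u : ℝ), (n₀:ℝ) ≤ n → n ≤ τ → p ≤ u →
      -(τ * l + 1) ≤ n * u - (n₀ * u₀ + 1) := by
    intro n u hn hnτ hu
    have e1 : 0 ≤ (n - n₀) * u := mul_nonneg (by linarith) (by linarith)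
    have e2 : (n₀:ℝ) * (u₀ - u) ≤ n₀ * l := mul_le_mul_of_nonneg_left (by linarith) r0
    have e3 : (n₀:ℝ) * l ≤ τ * l := mul_le_mul_of_nonneg_right (by linarith) hl
    nlinarith
  have k1 := key n₁ u₁ r01 (by linarith) a₁
  have k2 := key n₂ u₂ (by linarith) hτ a₂
  have h := Y.hP m n₀ _ n₁ u₁ n₂ u₂ (Y.hB _ _ c₀) c₁ c₂ h01 h12 hw (by linarith) (by linarith)
    (by linarith) (by linarith)
  have e1 : ((n₂:ℝ) - n₁) * u₂ ≤ (n₂:ℝ) - n₁ := by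
    have : u₂ ≤ 1 := by linarith
    nlinarith
  have e2 : (n₁:ℝ) * (u₂ - u₁) ≤ n₁ * l := mul_le_mul_of_nonneg_left (by linarith) (by linarith)
  have e3 : (n₁:ℝ) * l ≤ τ * l := mul_le_mul_of_nonneg_right (by linarith) hl
  nlinarith

lemma Sys.C2 {p l : ℝ} (hp : 0 ≤ p) (hpl : p + l ≤ 1) (m : ℕ) (hs : Y.s0 ≤ Y.N m) {n₁ n₂ : ℕ}
    (h₁ : Y.JH p l n₁) (h₂ : Y.JH p l n₂) (h12 : n₁ ≤ n₂) (hw : n₂ ≤ Y.N (m + 1))
    (hfar : 45 * (Y.N m : ℝ) ≤ n₁) : (n₂:ℝ) - n₁ ≤ n₁ * l + 44 * Y.N m := by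
  obtain ⟨u₁, a₁, b₁, c₁⟩ := h₁
  obtain ⟨u₂, a₂, b₂, c₂⟩ := h₂
  have r12 : (n₁:ℝ) ≤ n₂ := by exact_mod_cast h12
  have r0 : (0:ℝ) ≤ n₁ := Nat.cast_nonneg _
  have hNN := Y.N_le_succ m
  have k1 : 0 ≤ (n₁:ℝ) * u₁ := mul_nonneg r0 (by linarith)
  have k2 : 0 ≤ (n₂:ℝ) * u₂ := mul_nonneg (by linarith) (by linarith)
  have h := Y.hP m 0 _ n₁ u₁ n₂ u₂ Y.h0 c₁ c₂ (Nat.zero_le _) h12 (by simpa using hw)
    (by linarith) (by linarith) (by push_cast; linarith) (by push_cast; linarith)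
  have e1 : ((n₂:ℝ) - n₁) * u₂ ≤ (n₂:ℝ) - n₁ := by
    have : u₂ ≤ 1 := by linarith
    nlinarith
  have e2 : (n₁:ℝ) * (u₂ - u₁) ≤ n₁ * l := mul_le_mul_of_nonneg_left (by linarith) r0
  nlinarith

lemma Sys.window {p l τ : ℝ} (hp : 0 ≤ p) (hl : 0 ≤ l) (hpl : p + l ≤ 1) (m : ℕ) (hτ0 : 0 ≤ τ)
    (hτN : τ * l + 1 ≤ Y.N (m + 1)) (S : Finset ℕ) (hS : ∀ n ∈ S, Y.JH p l n ∧ (n:ℝ) ≤ τ)
    (hd : ∀ i ∈ S, ∀ j ∈ S, j ≤ i + Y.N (m + 1)) :
    (S.card : ℝ) ≤ 2 * (τ * l + 44 * Y.N m + 2) := by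
  classical
  have hN := Y.N_ge m
  have hτl : 0 ≤ τ * l := mul_nonneg hτ0 hl
  rcases S.eq_empty_or_nonempty with rfl | hne
  · simp; linarith
  · set n₀ := S.min' hne with hn₀
    have h0S : n₀ ∈ S := S.min'_mem hne
    have hsplit := Finset.card_filter_add_card_filter_not (s := S)
      (fun n : ℕ => τ * l + 1 + 44 * Y.N m ≤ (n:ℝ) - n₀)
    have hA := card_le_of_diam (S.filter (fun n : ℕ => τ * l + 1 + 44 * Y.N m ≤ (n:ℝ) - n₀))
      (τ * l + 44 * Y.N m) (by linarith) (by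
        intro i hi j hj hij
        rw [Finset.mem_filter] at hi hj
        exact Y.C1 hp hl hpl m (hS _ h0S).1 (hS _ hi.1).1 (hS _ hj.1).1 (S.min'_le _ hi.1) hij
          (hd _ h0S _ hj.1) (hS _ hj.1).2 hτN hi.2)
    have hB := card_le_of_diam (S.filter (fun n : ℕ => ¬ (τ * l + 1 + 44 * Y.N m ≤ (n:ℝ) - n₀)))
      (τ * l + 1 + 44 * Y.N m) (by linarith) (by
        intro i hi j hj hij
        rw [Finset.mem_filter] at hi hj
        have h1 : (n₀:ℝ) ≤ i := by exact_mod_cast S.min'_le _ hi.1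
        have h2 := not_le.mp hj.2
        linarith)
    have hc : (S.card : ℝ) =
        (S.filter (fun n : ℕ => τ * l + 1 + 44 * Y.N m ≤ (n:ℝ) - n₀)).card +
        (S.filter (fun n : ℕ => ¬ (τ * l + 1 + 44 * Y.N m ≤ (n:ℝ) - n₀))).card := by
      exact_mod_cast hsplit.symm
    linarith

lemma Sys.C3 {p l : ℝ} (hp : 0 ≤ p) (hl : 0 ≤ l) (hpl : p + l ≤ 1) (m : ℕ)
    (hNl : 44 * (Y.N m : ℝ) + 2 ≤ Y.N (m + 1) * l) (S : Finset ℕ) (n₁ : ℕ)
    (hn₁ : Y.N (m + 1) ≤ n₁)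
    (hS : ∀ n ∈ S, Y.JH p l n ∧ n₁ ≤ n ∧ (n:ℝ) - n₁ ≤ n₁ * l + 46 * Y.N (m + 1)) :
    (S.card : ℝ) ≤ 5000 * l * n₁ := by
  classical
  have hN := Y.N_ge m
  have hN' := Y.N_ge (m + 1)
  set N' : ℕ := Y.N (m + 1) with hN'def
  have r1 : (N':ℝ) ≤ n₁ := by exact_mod_cast hn₁
  have hl1 : l ≤ 1 := by linarith
  have hnl : 44 * (Y.N m : ℝ) + 2 ≤ n₁ * l :=
    hNl.trans (mul_le_mul_of_nonneg_right r1 hl)
  have hdiam : ∀ i ∈ S, ∀ j ∈ S, (j:ℝ) - i ≤ n₁ * l + 46 * N' := by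
    intro i hi j hj
    have h1 : (n₁:ℝ) ≤ i := by exact_mod_cast (hS i hi).2.1
    have h2 := (hS j hj).2.2
    linarith
  by_cases hc : (N':ℝ) ≤ 50 * (n₁ * l)
  · have := card_le_of_diam S (n₁ * l + 46 * N') (by linarith) (fun i hi j hj _ => hdiam i hi j hj)
    nlinarith
  · push Not at hc
    have hN'pos : 0 < N' := by
      have : (0:ℝ) < N' := by linarith
      exact_mod_cast this
    -- fibres of `n / N'`
    have hfib : ∀ b ∈ S.image (fun n => n / N'),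
        ((S.filter (fun n => n / N' = b)).card : ℝ) ≤ 98 * (n₁ * l) := by
      intro b _
      have h := Y.window (τ := 48 * n₁) hp hl hpl m (by linarith) (by linarith)
        (S.filter (fun n => n / N' = b)) (by
          intro n hn
          rw [Finset.mem_filter] at hn
          refine ⟨(hS n hn.1).1, ?_⟩
          have h2 := (hS n hn.1).2.2
          have h3 : (n₁:ℝ) * l ≤ n₁ := by nlinarith
          linarith) (by
          intro i hi j hj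
          rw [Finset.mem_filter] at hi hj
          have e1 := Nat.div_add_mod i N'
          have e2 := Nat.div_add_mod j N'
          have e3 := Nat.mod_lt j hN'pos
          rw [hi.2] at e1; rw [hj.2] at e2
          omega)
      linarith
    have himg : ((S.image (fun n => n / N')).card : ℝ) ≤ 48 + 1 := by
      refine card_le_of_diam _ 48 (by norm_num) ?_
      intro i hi j hj _
      obtain ⟨i', hi', rfl⟩ := Finset.mem_image.mp hi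
      obtain ⟨j', hj', rfl⟩ := Finset.mem_image.mp hj
      have h1 := hdiam i' hi' j' hj'
      have h2 : (j':ℝ) ≤ i' + 47 * N' := by linarith
      have h3 : j' ≤ i' + 47 * N' := by exact_mod_cast h2
      have h4 : j' / N' ≤ (i' + 47 * N') / N' := Nat.div_le_div_right h3
      rw [Nat.add_mul_div_right _ _ hN'pos] at h4
      have h5 : ((j' / N' : ℕ) : ℝ) ≤ (i' / N' : ℕ) + 47 := by exact_mod_cast h4
      linarith
    have hsum : (S.card : ℝ) = ∑ b ∈ S.image (fun n => n / N'),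
        ((S.filter (fun n => n / N' = b)).card : ℝ) := by
      rw [Finset.card_eq_sum_card_image (fun n => n / N') S]; push_cast; rfl
    have hle : (S.card : ℝ) ≤ (S.image (fun n => n / N')).card * (98 * (n₁ * l)) := by
      rw [hsum]
      calc _ ≤ ∑ _b ∈ S.image (fun n => n / N'), 98 * (n₁ * l) := Finset.sum_le_sum hfib
        _ = _ := by simp
    have h0 : 0 ≤ (n₁:ℝ) * l := by positivity
    nlinarith

open Classical in
lemma Sys.harm {p l : ℝ} (hp : 0 ≤ p) (hl : 0 ≤ l) (hpl : p + l ≤ 1) (m : ℕ) (hs : Y.s0 ≤ Y.N m)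
    (θ : ℕ) (hθ1 : 45 * (Y.N m : ℝ) ≤ θ) (hθ2 : θ ≤ Y.N (m + 1))
    (hθl : 44 * (Y.N m : ℝ) + 2 ≤ θ * l) :
    ∑ n ∈ (Finset.Icc θ (Y.N (m + 2))).filter (Y.JH p l), (1 / (n:ℝ)) ≤ 10002 * l := by
  have hN := Y.N_ge m
  have hN' := Y.N_ge (m + 1)
  have hθ0 : 1 ≤ θ := by
    have : (1:ℝ) ≤ θ := by linarith
    exact_mod_cast this
  have rθ2 : (θ:ℝ) ≤ Y.N (m + 1) := by exact_mod_cast hθ2
  have hNl : 44 * (Y.N m : ℝ) + 2 ≤ Y.N (m + 1) * l :=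
    hθl.trans (mul_le_mul_of_nonneg_right rθ2 hl)
  set A := (Finset.Icc θ (Y.N (m + 2))).filter (Y.JH p l) with hA
  have memA : ∀ n ∈ A, θ ≤ n ∧ n ≤ Y.N (m + 2) ∧ Y.JH p l n := by
    intro n hn
    rw [hA, Finset.mem_filter, Finset.mem_Icc] at hn
    exact ⟨hn.1.1, hn.1.2, hn.2⟩
  rw [← Finset.sum_filter_add_sum_filter_not A (fun n => n ≤ Y.N (m + 1)),
    ← Finset.sum_filter_add_sum_filter_not (A.filter (fun n => ¬ n ≤ Y.N (m + 1)))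
      (fun n => n ≤ 46 * Y.N (m + 1))]
  have g1 : ∑ n ∈ A.filter (fun n => n ≤ Y.N (m + 1)), (1 / (n:ℝ)) ≤ 2 * l := by
    refine sum_inv_le _ _ (by linarith) ?_ ?_
    · intro n hn
      exact hθ0.trans (memA n (Finset.mem_filter.mp hn).1).1
    · intro n₁ hn₁ hmin
      rw [Finset.mem_filter] at hn₁
      have r1 : (θ:ℝ) ≤ n₁ := by exact_mod_cast (memA n₁ hn₁.1).1
      have hnl : 44 * (Y.N m : ℝ) + 2 ≤ n₁ * l := hθl.trans (mul_le_mul_of_nonneg_right r1 hl)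
      have := card_le_of_diam (A.filter (fun n => n ≤ Y.N (m + 1))) (n₁ * l + 44 * Y.N m)
        (by linarith) (by
          intro i hi j hj _
          have hi1 : (n₁:ℝ) ≤ i := by exact_mod_cast hmin i hi
          have hj1 := hmin j hj
          rw [Finset.mem_filter] at hj
          have := Y.C2 hp hpl m hs (memA n₁ hn₁.1).2.2 (memA j hj.1).2.2 hj1 hj.2 (by linarith)
          linarith)
      linarith
  have g2 : ∑ n ∈ (A.filter (fun n => ¬ n ≤ Y.N (m + 1))).filter (fun n => n ≤ 46 * Y.N (m + 1)),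
      (1 / (n:ℝ)) ≤ 5000 * l := by
    refine sum_inv_le _ _ (by linarith) ?_ ?_
    · intro n hn
      exact hθ0.trans (memA n (Finset.mem_filter.mp (Finset.mem_filter.mp hn).1).1).1
    · intro n₁ hn₁ hmin
      have h1 := (Finset.mem_filter.mp (Finset.mem_filter.mp hn₁).1).2
      refine Y.C3 hp hl hpl m hNl _ n₁ (by omega) ?_
      intro n hn
      have h2 := Finset.mem_filter.mp hn
      refine ⟨(memA n (Finset.mem_filter.mp h2.1).1).2.2, hmin n hn, ?_⟩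
      have h3 : (n:ℝ) ≤ 46 * Y.N (m + 1) := by exact_mod_cast h2.2
      have h4 : 0 ≤ (n₁:ℝ) * l := by positivity
      have h5 : (0:ℝ) ≤ n₁ := Nat.cast_nonneg _
      linarith
  have g3 : ∑ n ∈ (A.filter (fun n => ¬ n ≤ Y.N (m + 1))).filter
      (fun n => ¬ n ≤ 46 * Y.N (m + 1)), (1 / (n:ℝ)) ≤ 5000 * l := by
    refine sum_inv_le _ _ (by linarith) ?_ ?_
    · intro n hn
      exact hθ0.trans (memA n (Finset.mem_filter.mp (Finset.mem_filter.mp hn).1).1).1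
    · intro n₁ hn₁ hmin
      have h1 := (Finset.mem_filter.mp (Finset.mem_filter.mp hn₁).1)
      have h1' := (Finset.mem_filter.mp hn₁).2
      refine Y.C3 hp hl hpl m hNl _ n₁ (by omega) ?_
      intro n hn
      have h2 := memA n (Finset.mem_filter.mp (Finset.mem_filter.mp hn).1).1
      refine ⟨h2.2.2, hmin n hn, ?_⟩
      have h3 : (46 * Y.N (m + 1) : ℝ) ≤ n₁ := by
        have : 46 * Y.N (m + 1) ≤ n₁ := by omega
        exact_mod_cast this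
      have := Y.C2 hp hpl (m + 1) (hs.trans (Y.N_le_succ m)) (memA n₁ h1.1).2.2 h2.2.2
        (hmin n hn) h2.2.1 (by linarith)
      linarith
  linarith

lemma Sys.shrink {p l l' : ℝ} (hl' : 0 < l') (S : Finset ℕ) (h1 : ∀ n ∈ S, 1 ≤ n)
    (hsum : ∑ n ∈ S, (1 / (n:ℝ)) ≤ 10002 * l) (hcard : ((S.card : ℝ) + 1) * l' < l / 2) :
    ∃ p', p ≤ p' ∧ p' + l' ≤ p + l ∧ ∀ n ∈ S, ¬ Y.JH p' l' n := by
  classical
  by_contra hcon
  push Not at hcon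
  let c : ℕ → ℝ := fun n => if h : ∃ u, Y.hit n u then h.choose else 0
  have hc : ∀ n u, Y.hit n u → Y.hit n (c n) := by
    intro n u hu
    have h : ∃ u, Y.hit n u := ⟨u, hu⟩
    simp only [c, dif_pos h]
    exact h.choose_spec
  have hcover : Set.Icc p (p + l - l') ⊆
      ⋃ n ∈ S, Set.Icc (c n - 3 / 1000000 * (1 / (n:ℝ)) - l') (c n + 3 / 1000000 * (1 / (n:ℝ))) := by
    intro q hq
    obtain ⟨n, hn, u, hu1, hu2, hu3⟩ := hcon q hq.1 (by linarith [hq.2])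
    have hw := Y.hW n u (c n) hu3 (hc n u hu3)
    have hn1 : (1:ℝ) ≤ n := by exact_mod_cast h1 n hn
    have hn0 : (0:ℝ) < n := by linarith
    have hw2 : |u - c n| ≤ 3 / 1000000 * (1 / (n:ℝ)) := by
      rw [← mul_sub, abs_mul, abs_of_pos hn0] at hw
      rw [mul_one_div, le_div_iff₀ hn0]; linarith
    rw [abs_le] at hw2
    simp only [Set.mem_iUnion]
    exact ⟨n, hn, by constructor <;> linarith [hw2.1, hw2.2]⟩
  have hm := (MeasureTheory.measure_mono (μ := MeasureTheory.volume) hcover).trans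
    (MeasureTheory.measure_biUnion_finset_le S _)
  simp only [Real.volume_Icc] at hm
  have hpos : ∀ n ∈ S, 0 ≤ c n + 3 / 1000000 * (1 / (n:ℝ)) -
      (c n - 3 / 1000000 * (1 / (n:ℝ)) - l') := by
    intro n _
    have : 0 ≤ 1 / (n:ℝ) := by positivity
    linarith
  rw [← ENNReal.ofReal_sum_of_nonneg hpos,
    ENNReal.ofReal_le_ofReal_iff (Finset.sum_nonneg hpos)] at hm
  have he : ∑ n ∈ S, (c n + 3 / 1000000 * (1 / (n:ℝ)) - (c n - 3 / 1000000 * (1 / (n:ℝ)) - l')) =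
      6 / 1000000 * ∑ n ∈ S, (1 / (n:ℝ)) + S.card * l' := by
    rw [Finset.mul_sum, ← nsmul_eq_mul, ← Finset.sum_const, ← Finset.sum_add_distrib]
    refine Finset.sum_congr rfl fun n _ => by ring
  rw [he] at hm
  have hl : 0 < l := by
    have : 0 < ((S.card : ℝ) + 1) * l' := by positivity
    linarith
  nlinarith

/-- The invariant of the Cantor-type construction. -/
def Sys.Inv (n₀ m : ℕ) : Prop :=
  ∃ (θ : ℕ) (p l : ℝ), 0 ≤ p ∧ 0 ≤ l ∧ p + l ≤ 1 ∧ 45 * (Y.N m : ℝ) ≤ θ ∧ θ ≤ Y.N (m + 1) ∧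
    44 * (Y.N m : ℝ) + 2 ≤ θ * l ∧ ∀ n, n₀ ≤ n → n < θ → ¬ Y.JH p l n

lemma Sys.step_aux {n₀ m : ℕ} (hs : Y.s0 ≤ Y.N m) {θ : ℕ} {p l : ℝ} (hp : 0 ≤ p) (hl : 0 ≤ l)
    (hpl : p + l ≤ 1) (hθ1 : 45 * (Y.N m : ℝ) ≤ θ) (hθ2 : θ ≤ Y.N (m + 1))
    (hθl : 44 * (Y.N m : ℝ) + 2 ≤ θ * l) (hno : ∀ n, n₀ ≤ n → n < θ → ¬ Y.JH p l n)
    (T θ' : ℕ) (hT : 1 ≤ T) (hθ' : θ' ≤ Y.N (m + 2))
    (hbig : 368 * (Y.N (m + 1) : ℝ) ^ 2 * T ≤ θ')
    (hfree : ∀ n, T < n → n < θ' → ¬ Y.JH p l n) : Y.Inv n₀ (m + 1) := by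
  classical
  have hN := Y.N_ge m
  have hN' := Y.N_ge (m + 1)
  set N' : ℝ := (Y.N (m + 1) : ℝ) with hN'def
  have rT : (1:ℝ) ≤ T := by exact_mod_cast hT
  have rθ2 : (θ:ℝ) ≤ N' := by rw [hN'def]; exact_mod_cast hθ2
  have hNl : 1 ≤ N' * l := by
    have := mul_le_mul_of_nonneg_right rθ2 hl
    linarith
  have hθ0 : 1 ≤ θ := by
    have : (1:ℝ) ≤ θ := by linarith
    exact_mod_cast this
  set S := ((Finset.Icc θ (Y.N (m + 2))).filter (Y.JH p l)).filter (fun n => n ≤ T) with hSdef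
  have hsum : ∑ n ∈ S, (1 / (n:ℝ)) ≤ 10002 * l := by
    refine le_trans ?_ (Y.harm hp hl hpl m hs θ hθ1 hθ2 hθl)
    exact Finset.sum_le_sum_of_subset_of_nonneg (Finset.filter_subset _ _)
      (fun n _ _ => by positivity)
  have hcardS : (S.card : ℝ) ≤ T + 1 := by
    refine card_le_of_diam S T (by linarith) ?_
    intro i _ j hj _
    have h1 : (j:ℝ) ≤ T := by exact_mod_cast (Finset.mem_filter.mp hj).2
    have h2 : (0:ℝ) ≤ i := Nat.cast_nonneg _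
    linarith
  have hden : 0 < 8 * N' * T := by positivity
  have hl' : 0 < 1 / (8 * N' * T) := by positivity
  obtain ⟨p', hp1, hp2, hp3⟩ := Y.shrink (p := p) (l := l) hl' S (by
      intro n hn
      have := (Finset.mem_filter.mp (Finset.mem_filter.mp hn).1).1
      rw [Finset.mem_Icc] at this
      omega) hsum (by
      rw [mul_one_div, div_lt_iff₀ hden]
      have : (T:ℝ) * 1 ≤ T * (N' * l) := mul_le_mul_of_nonneg_left hNl (by linarith)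
      nlinarith)
  have hsubJ : ∀ n, Y.JH p' (1 / (8 * N' * T)) n → Y.JH p l n := by
    rintro n ⟨u, a, b, c⟩
    exact ⟨u, by linarith, by linarith, c⟩
  refine ⟨θ', p', 1 / (8 * N' * T), by linarith, hl'.le, by linarith, ?_, hθ', ?_, ?_⟩
  · have : N' * 1 ≤ N' ^ 2 * T := by nlinarith
    nlinarith
  · rw [mul_one_div, le_div_iff₀ hden]
    have h1 : (44 * N' + 2) * (8 * N' * T) ≤ (46 * N') * (8 * N' * T) :=
      mul_le_mul_of_nonneg_right (by linarith) hden.le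
    nlinarith
  · intro n hn0 hnθ hJ
    by_cases h1 : n < θ
    · exact hno n hn0 h1 (hsubJ n hJ)
    by_cases h2 : T < n
    · exact hfree n h2 hnθ (hsubJ n hJ)
    refine hp3 n ?_ hJ
    rw [hSdef, Finset.mem_filter, Finset.mem_filter, Finset.mem_Icc]
    exact ⟨⟨⟨by omega, by omega⟩, hsubJ n hJ⟩, by omega⟩

lemma Sys.step {n₀ m : ℕ} (hs : Y.s0 ≤ Y.N m) (h : Y.Inv n₀ m) : Y.Inv n₀ (m + 1) := by
  classical
  obtain ⟨θ, p, l, hp, hl, hpl, hθ1, hθ2, hθl, hno⟩ := h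
  have hN' := Y.N_ge (m + 1)
  have hNn : 100000 ≤ Y.N (m + 1) := by have := Y.hN0 (m + 1); omega
  have hN2 : Y.N (m + 2) = Y.N (m + 1) ^ 7 := Y.hN (m + 1)
  have h47 : Y.N (m + 1) ^ 4 ≤ Y.N (m + 1) ^ 7 := Nat.pow_le_pow_right (by omega) (by norm_num)
  by_cases hc : ∃ n, 46 * Y.N (m + 1) < n ∧ n < Y.N (m + 1) ^ 4 ∧ Y.JH p l n
  · obtain ⟨n₃, h1, h2, h3⟩ := hc
    refine Y.step_aux hs hp hl hpl hθ1 hθ2 hθl hno (3 * Y.N (m + 1) ^ 4) (Y.N (m + 2)) (by omega)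
      le_rfl ?_ ?_
    · rw [hN2]; push_cast
      have h6 : (0:ℝ) < (Y.N (m + 1) : ℝ) ^ 6 := by positivity
      nlinarith
    · intro n hn1 hn2 hJ
      have r1 : (46 * Y.N (m + 1) : ℝ) ≤ n₃ := by exact_mod_cast h1.le
      have := Y.C2 hp hpl (m + 1) (hs.trans (Y.N_le_succ m)) h3 hJ (by omega) hn2.le (by linarith)
      have h4 : (n₃:ℝ) * l ≤ n₃ := by
        have : (0:ℝ) ≤ n₃ := Nat.cast_nonneg _
        nlinarith
      have h5 : (n:ℝ) ≤ 3 * n₃ := by linarith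
      have h6 : n ≤ 3 * n₃ := by exact_mod_cast h5
      omega
  · push Not at hc
    refine Y.step_aux hs hp hl hpl hθ1 hθ2 hθl hno (46 * Y.N (m + 1)) (Y.N (m + 1) ^ 4) (by omega)
      (by rw [hN2]; exact h47) ?_ hc
    push_cast
    have h6 : (0:ℝ) < (Y.N (m + 1) : ℝ) ^ 3 := by positivity
    nlinarith

theorem Sys.main (hopen : ∀ n, IsOpen {u | Y.hit n u}) :
    ∃ u, 0 ≤ u ∧ u ≤ 1 ∧ ∃ n₀, ∀ n, n₀ ≤ n → ¬ Y.hit n u := by
  obtain ⟨m₀, hm₀⟩ := exists_nat_ge Y.s0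
  have hs : ∀ m, m₀ ≤ m → Y.s0 ≤ Y.N m := by
    intro m hm
    have h1 := Y.hN0 m
    have h2 : (m₀:ℝ) ≤ Y.N m := by exact_mod_cast (by omega : m₀ ≤ Y.N m)
    linarith
  set n₀ := 46 * Y.N m₀ with hn₀
  have hinv : ∀ k, Y.Inv n₀ (m₀ + k) := by
    intro k
    induction k with
    | zero =>
      have hN := Y.N_ge m₀
      have hNn : 100000 ≤ Y.N m₀ := by have := Y.hN0 m₀; omega
      refine ⟨n₀, 0, 1, le_rfl, zero_le_one, by norm_num, ?_, ?_, ?_, ?_⟩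
      · rw [hn₀]; push_cast; simp only [add_zero]; linarith
      · rw [hn₀, add_zero, Y.hN m₀]
        have h1 : Y.N m₀ ^ 2 ≤ Y.N m₀ ^ 7 := Nat.pow_le_pow_right (by omega) (by norm_num)
        nlinarith
      · rw [hn₀]; push_cast; simp only [add_zero]; linarith
      · intro n h1 h2; omega
    | succ k ih => exact Y.step (hs _ (Nat.le_add_right m₀ k)) ih
  let K : ℕ → Set ℝ := fun k => Set.Icc 0 1 ∩ ⋂ n ∈ Set.Ico n₀ k, {u | Y.hit n u}ᶜ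
  have hKc : ∀ k, IsClosed (K k) := fun k =>
    isClosed_Icc.inter (isClosed_biInter fun n _ => (hopen n).isClosed_compl)
  have hKne : ∀ k, (K k).Nonempty := by
    intro k
    obtain ⟨θ, p, l, hp, hl, hpl, hθ1, -, -, hno⟩ := hinv k
    refine ⟨p, ⟨hp, by linarith⟩, ?_⟩
    simp only [Set.mem_iInter]
    intro n hn hh
    have h1 := Y.hN0 (m₀ + k)
    have h2 : 45 * Y.N (m₀ + k) ≤ θ := by exact_mod_cast hθ1
    exact hno n hn.1 (by have := hn.2; omega) ⟨p, le_rfl, by linarith, hh⟩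
  have hKm : ∀ k, K (k + 1) ⊆ K k := by
    intro k u hu
    refine ⟨hu.1, ?_⟩
    have := hu.2
    simp only [Set.mem_iInter] at this ⊢
    intro n hn
    exact this n ⟨hn.1, by have := hn.2; omega⟩
  obtain ⟨u, hu⟩ := IsCompact.nonempty_iInter_of_sequence_nonempty_isCompact_isClosed K hKm hKne
    (isCompact_Icc.of_isClosed_subset (hKc 0) Set.inter_subset_left) hKc
  rw [Set.mem_iInter] at hu
  refine ⟨u, (hu 0).1.1, (hu 0).1.2, n₀, fun n hn => ?_⟩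
  have := (hu (n + 1)).2
  simp only [Set.mem_iInter] at this
  exact this n ⟨hn, by omega⟩

end Pool.Agent.H551Z.CH
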