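import Pool.Agent.H551Z.CHA

/-! Analytic part of the counterexample on common hypercyclic vectors. -/

set_option autoImplicit false

open Real

namespace Pool.Agent.H551Z.CH

variable {X : Type} [NormedAddCommGroup X] [NormedSpace ℂ X]

lemma norm_exp_smul (s : ℝ) (v : X) : ‖((exp s : ℝ) : ℂ) • v‖ = exp s * ‖v‖ := by
  rw [norm_smul, Complex.norm_real, Real.norm_of_nonneg (exp_pos s).le]

lemma pow_apply_add (T : X →L[ℂ] X) (i j : ℕ) (z : X) : (T ^ (i + j)) z = (T ^ i) ((T ^ j) z) := by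
  rw [pow_add]; rfl

lemma pow_apply_succ (T : X →L[ℂ] X) (i : ℕ) (z : X) : (T ^ (i + 1)) z = T ((T ^ i) z) := by
  rw [pow_succ']; rfl

lemma norm_pow_apply_le {T : X →L[ℂ] X} (hT : ∀ z, ‖T z‖ ≤ exp 10 * ‖z‖) (n : ℕ) (z : X) :
    ‖(T ^ n) z‖ ≤ exp (10 * n) * ‖z‖ := by
  induction n with
  | zero => simp
  | succ n ih =>
    rw [pow_apply_succ]
    calc ‖T ((T ^ n) z)‖ ≤ exp 10 * ‖(T ^ n) z‖ := hT _
      _ ≤ exp 10 * (exp (10 * n) * ‖z‖) := by gcongr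
      _ = _ := by rw [← mul_assoc, ← exp_add]; push_cast; ring_nf

lemma eig_pow {T : X →L[ℂ] X} {L : ℕ} {s : ℝ} {z : X}
    (h : (T ^ L) z = ((exp (s * L) : ℝ) : ℂ) • z) (q : ℕ) :
    (T ^ (L * q)) z = ((exp (s * (L * q : ℕ)) : ℝ) : ℂ) • z := by
  induction q with
  | zero => simp
  | succ q ih =>
    rw [Nat.mul_succ, pow_apply_add, h, map_smul, ih, smul_smul, ← Complex.ofReal_mul, ← exp_add]
    congr 3; push_cast; ring

lemma eig_comm {T : X →L[ℂ] X} {L : ℕ} {c : ℂ} {z : X} (h : (T ^ L) z = c • z) (t : ℕ) :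
    (T ^ L) ((T ^ t) z) = c • (T ^ t) z := by
  rw [← pow_apply_add, add_comm, pow_apply_add, h, map_smul]

lemma decay_E {T : X →L[ℂ] X} (hT : ∀ z, ‖T z‖ ≤ exp 10 * ‖z‖) {L : ℕ} (hL : 0 < L) {z : X}
    (h : (T ^ L) z = ((exp (-1 * L) : ℝ) : ℂ) • z) (t : ℕ) :
    ‖(T ^ t) z‖ ≤ exp (-t + 11 * L) * ‖z‖ := by
  have e := Nat.mod_add_div t L
  have hr : ((t % L : ℕ) : ℝ) ≤ L := by exact_mod_cast (Nat.mod_lt t hL).le
  have e' : ((t % L : ℕ) : ℝ) + ((L * (t / L) : ℕ) : ℝ) = t := by exact_mod_cast e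
  conv_lhs => rw [← e, pow_apply_add, eig_pow h]
  refine (norm_pow_apply_le hT _ _).trans ?_
  rw [norm_exp_smul, ← mul_assoc, ← exp_add]
  refine mul_le_mul_of_nonneg_right (exp_le_exp.mpr ?_) (norm_nonneg _)
  linarith

lemma growth_F {T : X →L[ℂ] X} (hT : ∀ z, ‖T z‖ ≤ exp 10 * ‖z‖) {L : ℕ} (hL : 0 < L) {z : X}
    (h : (T ^ L) z = ((exp (2 * L) : ℝ) : ℂ) • z) (d : ℕ) :
    exp (2 * d) * ‖z‖ ≤ exp (10 * L) * ‖(T ^ d) z‖ := by
  have e := Nat.mod_add_div d L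
  have hr := Nat.mod_lt d hL
  have e2 : L * (d / L + 1) = (L - d % L) + d := by rw [Nat.mul_succ]; omega
  have h1 := eig_pow h (d / L + 1)
  have h2 : ‖(T ^ (L * (d / L + 1))) z‖ ≤ exp (10 * L) * ‖(T ^ d) z‖ := by
    rw [e2, pow_apply_add]
    refine (norm_pow_apply_le hT _ _).trans ?_
    refine mul_le_mul_of_nonneg_right (exp_le_exp.mpr ?_) (norm_nonneg _)
    have : ((L - d % L : ℕ) : ℝ) ≤ L := by exact_mod_cast Nat.sub_le _ _
    linarith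
  rw [h1, norm_exp_smul] at h2
  refine le_trans (mul_le_mul_of_nonneg_right (exp_le_exp.mpr ?_) (norm_nonneg _)) h2
  have : (d:ℝ) ≤ (L * (d / L + 1) : ℕ) := by exact_mod_cast (by omega : d ≤ L * (d / L + 1))
  linarith

lemma norm_E_le {T : X →L[ℂ] X} (hT : ∀ z, ‖T z‖ ≤ exp 10 * ‖z‖) {L : ℕ} (hL : 0 < L) {zE zF : X}
    (hE : (T ^ L) zE = ((exp (-1 * L) : ℝ) : ℂ) • zE)
    (hF : (T ^ L) zF = ((exp (2 * L) : ℝ) : ℂ) • zF) :
    ‖zE‖ ≤ exp (10 * L + 1) * ‖zE + zF‖ := by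
  have hL1 : (1:ℝ) ≤ L := by exact_mod_cast hL
  have e : ((exp (2 * L) - exp (-1 * L) : ℝ) : ℂ) • zE =
      ((exp (2 * L) : ℝ) : ℂ) • (zE + zF) - (T ^ L) (zE + zF) := by
    rw [map_add, hE, hF, Complex.ofReal_sub, sub_smul, smul_add]; abel
  have h1 : 1 ≤ exp (2 * L) - exp (-1 * L) := by
    have a1 := add_one_le_exp (2 * (L:ℝ))
    have a2 : exp (-1 * L) ≤ 1 := by rw [exp_le_one_iff]; linarith
    linarith
  have h2 : ‖zE‖ ≤ ‖((exp (2 * L) - exp (-1 * L) : ℝ) : ℂ) • zE‖ := by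
    rw [norm_smul, Complex.norm_real, Real.norm_of_nonneg (by linarith)]
    nlinarith [norm_nonneg zE]
  rw [e] at h2
  have h3 := norm_sub_le (((exp (2 * L) : ℝ) : ℂ) • (zE + zF)) ((T ^ L) (zE + zF))
  rw [norm_exp_smul] at h3
  have h4 := norm_pow_apply_le hT L (zE + zF)
  have h5 : exp (2 * L) ≤ exp (10 * L) := exp_le_exp.mpr (by linarith)
  have h6 : 2 * exp (10 * L) ≤ exp (10 * L + 1) := by
    rw [exp_add]
    have := add_one_le_exp (1:ℝ)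
    nlinarith [exp_pos (10 * (L:ℝ))]
  nlinarith [norm_nonneg (zE + zF)]

lemma feed_le {T P : X →L[ℂ] X} (hT : ∀ z, ‖T z‖ ≤ exp 10 * ‖z‖) {g : ℝ} (hg0 : 0 ≤ g)
    (hg : ∀ z, ‖P (T z) - T (P z)‖ ≤ g * ‖z‖) (t : ℕ) (z : X) :
    ‖P ((T ^ t) z) - (T ^ t) (P z)‖ ≤ g * exp (11 * t) * ‖z‖ := by
  induction t with
  | zero => simp; positivity
  | succ t ih =>
    rw [pow_apply_succ, pow_apply_succ]
    have e : P (T ((T ^ t) z)) - T ((T ^ t) (P z)) =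
        (P (T ((T ^ t) z)) - T (P ((T ^ t) z))) + T (P ((T ^ t) z) - (T ^ t) (P z)) := by
      rw [map_sub]; abel
    rw [e]
    have h1 := hg ((T ^ t) z)
    have h2 := hT (P ((T ^ t) z) - (T ^ t) (P z))
    have h3 := norm_pow_apply_le hT t z
    have h4 : exp (10 * t) ≤ exp (11 * t) := exp_le_exp.mpr (by
      have : (0:ℝ) ≤ t := Nat.cast_nonneg t
      linarith)
    have h5 : 1 + exp 10 ≤ exp 11 := by
      rw [show (11:ℝ) = 10 + 1 by norm_num, exp_add]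
      have a1 := add_one_le_exp (1:ℝ)
      have a2 := add_one_le_exp (10:ℝ)
      nlinarith
    have h6 : exp (11 * ((t + 1 : ℕ) : ℝ)) = exp (11 * t) * exp 11 := by
      rw [← exp_add]; push_cast; ring_nf
    have h7 : ‖(T ^ t) z‖ ≤ exp (11 * t) * ‖z‖ :=
      h3.trans (mul_le_mul_of_nonneg_right h4 (norm_nonneg _))
    have h8 : 0 ≤ g * exp (11 * t) * ‖z‖ := by positivity
    calc _ ≤ ‖P (T ((T ^ t) z)) - T (P ((T ^ t) z))‖ + ‖T (P ((T ^ t) z) - (T ^ t) (P z))‖ :=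
          norm_add_le _ _
      _ ≤ g * (exp (11 * t) * ‖z‖) + exp 10 * (g * exp (11 * t) * ‖z‖) := by
          refine add_le_add (h1.trans (mul_le_mul_of_nonneg_left h7 hg0)) (h2.trans ?_)
          exact mul_le_mul_of_nonneg_left ih (exp_pos _).le
      _ = (1 + exp 10) * (g * exp (11 * t) * ‖z‖) := by ring
      _ ≤ exp 11 * (g * exp (11 * t) * ‖z‖) := mul_le_mul_of_nonneg_right h5 h8
      _ = _ := by rw [h6]; ring

lemma exp_sub_two_le (σ : ℝ) : exp (σ - 2) ≤ exp σ / 5 := by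
  have h := Real.exp_one_gt_d9
  have h2 : exp σ = exp (σ - 2) * (exp 1 * exp 1) := by
    rw [← exp_add, ← exp_add]; ring_nf
  rw [h2, le_div_iff₀ (by norm_num)]
  have : (5:ℝ) ≤ exp 1 * exp 1 := by nlinarith
  exact mul_le_mul_of_nonneg_left this (exp_pos _).le

lemma local_F {T P : X →L[ℂ] X} (hT : ∀ z, ‖T z‖ ≤ exp 10 * ‖z‖) (hP : ∀ z, ‖P z‖ ≤ ‖z‖)
    {N N' : ℕ} (hN : 2 ≤ N) (hN' : 1 ≤ N')
    (hg : ∀ z, ‖P (T z) - T (P z)‖ ≤ exp (-14 * N') * ‖z‖) {y z zE zF : X} (hy : P y = y)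
    (hy1 : ‖y‖ = 1) (hz : P z = zE + zF)
    (hE : (T ^ (2 * N)) zE = ((exp (-1 * (2 * N : ℕ)) : ℝ) : ℂ) • zE)
    (hF : (T ^ (2 * N)) zF = ((exp (2 * (2 * N : ℕ)) : ℝ) : ℂ) • zF)
    {s σ : ℝ} {t : ℕ} (hs : ‖z‖ ≤ exp s) (ht : t ≤ N')
    (hhit : ‖(T ^ t) z - ((exp σ : ℝ) : ℂ) • y‖ < 1 / 1000000 * exp σ)
    (_h1 : -(N' : ℝ) ≤ σ - s) (h2 : 44 * (N:ℝ) - t ≤ σ - s) :
    exp σ / 2 ≤ ‖(T ^ t) zF‖ ∧ ‖(T ^ t) zF‖ ≤ 3 * exp σ / 2 := by
  have rN : (2:ℝ) ≤ N := by exact_mod_cast hN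
  have rN' : (1:ℝ) ≤ N' := by exact_mod_cast hN'
  have rt : (t:ℝ) ≤ N' := by exact_mod_cast ht
  have a1 : ‖P ((T ^ t) z) - ((exp σ : ℝ) : ℂ) • y‖ ≤ 1 / 1000000 * exp σ := by
    have := hP ((T ^ t) z - ((exp σ : ℝ) : ℂ) • y)
    rw [map_sub, map_smul, hy] at this
    linarith
  have a2 : ‖P ((T ^ t) z) - (T ^ t) (P z)‖ ≤ exp σ / 5 := by
    refine (feed_le hT (exp_pos _).le hg t z).trans (le_trans ?_ (exp_sub_two_le σ))
    calc exp (-14 * N') * exp (11 * t) * ‖z‖ ≤ exp (-14 * N') * exp (11 * t) * exp s := by gcongr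
      _ = exp (-14 * N' + 11 * t + s) := by rw [← exp_add, ← exp_add]
      _ ≤ _ := exp_le_exp.mpr (by linarith)
  have a3 : ‖(T ^ t) zE‖ ≤ exp σ / 5 := by
    refine (decay_E hT (by omega) hE t).trans (le_trans ?_ (exp_sub_two_le σ))
    have b1 := norm_E_le hT (by omega) hE hF
    rw [← hz] at b1
    have b2 : ‖zE‖ ≤ exp (10 * (2 * N : ℕ) + 1) * exp s :=
      b1.trans (mul_le_mul_of_nonneg_left ((hP z).trans hs) (exp_pos _).le)
    calc exp (-t + 11 * (2 * N : ℕ)) * ‖zE‖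
        ≤ exp (-t + 11 * (2 * N : ℕ)) * (exp (10 * (2 * N : ℕ) + 1) * exp s) := by gcongr
      _ = exp (-t + 11 * (2 * N : ℕ) + (10 * (2 * N : ℕ) + 1 + s)) := by
          rw [← exp_add, ← exp_add]
      _ ≤ _ := exp_le_exp.mpr (by push_cast; linarith)
  have e : (T ^ t) zF - ((exp σ : ℝ) : ℂ) • y =
      (P ((T ^ t) z) - ((exp σ : ℝ) : ℂ) • y) - (P ((T ^ t) z) - (T ^ t) (P z)) - (T ^ t) zE := by
    rw [hz, map_add]; abel
  have a4 : ‖(T ^ t) zF - ((exp σ : ℝ) : ℂ) • y‖ ≤ exp σ / 2 := by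
    rw [e]
    have b1 := norm_sub_le ((P ((T ^ t) z) - ((exp σ : ℝ) : ℂ) • y) -
      (P ((T ^ t) z) - (T ^ t) (P z))) ((T ^ t) zE)
    have b2 := norm_sub_le (P ((T ^ t) z) - ((exp σ : ℝ) : ℂ) • y) (P ((T ^ t) z) - (T ^ t) (P z))
    linarith [exp_pos σ]
  have a5 := abs_norm_sub_norm_le ((T ^ t) zF) (((exp σ : ℝ) : ℂ) • y)
  rw [norm_exp_smul, hy1, mul_one, abs_le] at a5
  constructor <;> linarith [a5.1, a5.2]

theorem exists_bad_param {T : X →L[ℂ] X} (hT : ∀ z, ‖T z‖ ≤ exp 10 * ‖z‖) (N : ℕ → ℕ)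
    (hN0 : ∀ m, 100000 + m ≤ N m) (hN : ∀ m, N (m + 1) = N m ^ 7) (P : ℕ → X →L[ℂ] X)
    (hP : ∀ m z, ‖P m z‖ ≤ ‖z‖)
    (hg : ∀ m z, ‖P m (T z) - T (P m z)‖ ≤ exp (-14 * N (m + 1)) * ‖z‖)
    (hdec : ∀ m z, ∃ zE zF, P m z = zE + zF ∧
      (T ^ (2 * N m)) zE = ((exp (-1 * (2 * N m : ℕ)) : ℝ) : ℂ) • zE ∧
      (T ^ (2 * N m)) zF = ((exp (2 * (2 * N m : ℕ)) : ℝ) : ℂ) • zF)
    {y : X} (hy : ∀ m, P m y = y) (hy1 : ‖y‖ = 1) (x : X) :
    ∃ u : ℝ, 0 ≤ u ∧ u ≤ 1 ∧ ∃ n₀ : ℕ, ∀ n, n₀ ≤ n →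
      ¬ (‖(T ^ n) x - ((exp (n * u) : ℝ) : ℂ) • y‖ < 1 / 1000000 * exp (n * u)) := by
  have hnorm : ∀ (n : ℕ) (u : ℝ),
      ‖(T ^ n) x - ((exp (n * u) : ℝ) : ℂ) • y‖ < 1 / 1000000 * exp (n * u) →
      (1 - 1 / 1000000) * exp (n * u) ≤ ‖(T ^ n) x‖ ∧
        ‖(T ^ n) x‖ ≤ (1 + 1 / 1000000) * exp (n * u) := by
    intro n u h
    have a5 := abs_norm_sub_norm_le ((T ^ n) x) (((exp (n * u) : ℝ) : ℂ) • y)
    rw [norm_exp_smul, hy1, mul_one, abs_le] at a5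
    constructor <;> linarith [a5.1, a5.2]
  have hW1 : ∀ (n : ℕ) (u u' : ℝ),
      ‖(T ^ n) x - ((exp (n * u) : ℝ) : ℂ) • y‖ < 1 / 1000000 * exp (n * u) →
      ‖(T ^ n) x - ((exp (n * u') : ℝ) : ℂ) • y‖ < 1 / 1000000 * exp (n * u') →
      (n:ℝ) * u - n * u' ≤ 3 / 1000000 := by
    intro n u u' h h'
    have b1 := (hnorm n u h).1
    have b2 := (hnorm n u' h').2
    have b3 : exp (n * u) ≤ exp (n * u' + 3 / 1000000) := by
      rw [exp_add]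
      have c1 := add_one_le_exp (3 / 1000000 : ℝ)
      have c2 := exp_pos ((n:ℝ) * u')
      nlinarith
    have := exp_le_exp.mp b3
    linarith
  let Y : Sys :=
    { hit := fun n u => ‖(T ^ n) x - ((exp (n * u) : ℝ) : ℂ) • y‖ < 1 / 1000000 * exp (n * u)
      base := fun n s => ‖(T ^ n) x‖ ≤ exp s
      N := N
      s0 := ‖x‖
      hN0 := hN0
      hN := hN
      hP := by
        intro m n₀ s n₁ u₁ n₂ u₂ hb h₁ h₂ h01 h12 hw c1 c2 c3 c4
        obtain ⟨zE, zF, hz, hE, hF⟩ := hdec m ((T ^ n₀) x)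
        obtain ⟨t₁, rfl⟩ := Nat.exists_eq_add_of_le' h01
        obtain ⟨d, rfl⟩ := Nat.exists_eq_add_of_le' h12
        have hm := hN0 m
        have hm' := hN0 (m + 1)
        rw [pow_apply_add] at h₁
        rw [← add_assoc, pow_apply_add] at h₂
        have k1 := local_F hT (hP m) (N := N m) (N' := N (m + 1)) (by omega) (by omega) (hg m)
          (hy m) hy1 hz hE hF hb (t := t₁) (by omega) h₁ c1 (by push_cast at c3 ⊢; linarith)
        have k2 := local_F hT (hP m) (N := N m) (N' := N (m + 1)) (by omega) (by omega) (hg m)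
          (hy m) hy1 hz hE hF hb (t := d + t₁) (by omega) h₂ (by rw [add_assoc]; exact c2)
          (by push_cast at c4 ⊢; linarith)
        have k3 := growth_F hT (by omega) (eig_comm hF t₁) d
        rw [← pow_apply_add] at k3
        have k4 : exp (2 * d) * (exp ((t₁ + n₀ : ℕ) * u₁) / 2) ≤
            exp (10 * (2 * N m : ℕ)) * (3 * exp ((d + t₁ + n₀ : ℕ) * u₂) / 2) :=
          le_trans (mul_le_mul_of_nonneg_left k1.1 (exp_pos _).le)
            (k3.trans (mul_le_mul_of_nonneg_left k2.2 (exp_pos _).le))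
        have k5 : exp (2 * d + (t₁ + n₀ : ℕ) * u₁) ≤
            exp (10 * (2 * N m : ℕ) + (d + t₁ + n₀ : ℕ) * u₂ + 2) := by
          rw [exp_add, exp_add, exp_add]
          have c := add_one_le_exp (2:ℝ)
          have c' : 0 < exp (10 * (2 * N m : ℕ)) * exp ((d + t₁ + n₀ : ℕ) * u₂) := by positivity
          nlinarith
        have k6 := exp_le_exp.mp k5
        have rm : (100000:ℝ) ≤ N m := by exact_mod_cast (by omega : 100000 ≤ N m)
        push_cast at k6 ⊢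
        nlinarith
      hB := by
        intro n u h
        refine (hnorm n u h).2.trans ?_
        rw [exp_add]
        have c1 := add_one_le_exp (1:ℝ)
        have c2 := exp_pos ((n:ℝ) * u)
        nlinarith
      hW := by
        intro n u u' h h'
        rw [abs_le]
        constructor <;> linarith [hW1 n u u' h h', hW1 n u' u h' h]
      h0 := by
        have := add_one_le_exp ‖x‖
        simp only [pow_zero, one_apply_eq_self]
        linarith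
      hs0 := norm_nonneg x }
  refine Y.main fun n => ?_
  refine isOpen_lt ?_ (by fun_prop)
  refine Continuous.norm (continuous_const.sub ?_)
  exact (Complex.continuous_ofReal.comp (by fun_prop)).smul continuous_const

lemma not_dense_of_bad {T : X →L[ℂ] X} {y x : X} (hy1 : ‖y‖ = 1) {u : ℝ} {n₀ : ℕ}
    (h : ∀ n, n₀ ≤ n →
      ¬ (‖(T ^ n) x - ((exp (n * u) : ℝ) : ℂ) • y‖ < 1 / 1000000 * exp (n * u))) :
    ¬ Dense (Set.range (fun n : ℕ => ((((exp (-u) : ℝ) : ℂ) • T) ^ n) x)) := by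
  intro hd
  have : Nontrivial X := nontrivial_of_ne y 0 (by
    intro h0; rw [h0, norm_zero] at hy1; exact zero_ne_one hy1)
  have : ∀ v : X, (nhdsWithin v {v}ᶜ).NeBot := fun v => Module.punctured_nhds_neBot ℂ X v
  have hfin : (Set.image (fun n : ℕ => ((((exp (-u) : ℝ) : ℂ) • T) ^ n) x) (Set.Iio n₀)).Finite :=
    (Set.finite_Iio n₀).image _
  obtain ⟨v, hv, hvb⟩ := (hd.sdiff_finite hfin).exists_mem_open Metric.isOpen_ball
    (Metric.nonempty_ball.mpr (by norm_num : (0:ℝ) < 1 / 1000000) :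
      (Metric.ball y (1 / 1000000)).Nonempty)
  obtain ⟨⟨n, rfl⟩, hn⟩ := hv
  have hn0 : n₀ ≤ n := by
    by_contra hc
    exact hn ⟨n, not_le.mp hc, rfl⟩
  refine h n hn0 ?_
  rw [mem_ball_iff_norm] at hvb
  simp only [smul_pow, smul_apply] at hvb
  have e : (T ^ n) x - ((exp (n * u) : ℝ) : ℂ) • y =
      ((exp (n * u) : ℝ) : ℂ) • ((((exp (-u) : ℝ) : ℂ) ^ n) • (T ^ n) x - y) := by
    rw [smul_sub, smul_smul, ← Complex.ofReal_pow, ← Complex.ofReal_mul, ← exp_nat_mul, ← exp_add]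
    simp
  rw [e, norm_exp_smul, mul_comm]
  exact mul_lt_mul_of_pos_right hvb (exp_pos _)

end Pool.Agent.H551Z.CH
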