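import Pool.Agent.H551Z.CHB

/-! The operator on `ℓ¹` for the counterexample on common hypercyclic vectors. -/

set_option autoImplicit false

open Real

namespace Pool.Agent.H551Z.CH

section l1

variable {ι : Type} [DecidableEq ι]

/-- the space `ℓ¹(ι, ℂ)` -/
abbrev L1 (ι : Type) : Type := lp (fun _ : ι => ℂ) 1

/-- the unit vector basis -/
noncomputable def e (i : ι) : L1 ι := lp.single 1 i (1:ℂ)

lemma norm_e (i : ι) : ‖e i‖ = 1 := by
  unfold e
  rw [lp.norm_single (by norm_num)]; simp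

lemma hasSum_e (x : L1 ι) : HasSum (fun i => x i • e i) x := by
  have h := lp.hasSum_single (p := 1) (by norm_num) x
  refine h.congr_fun ?_ |>.congr_fun (fun _ => rfl)
  intro i
  unfold e
  rw [← lp.single_smul]; simp

omit [DecidableEq ι] in
lemma hasSum_norm_l1 (x : L1 ι) : HasSum (fun i => ‖x i‖) ‖x‖ := by
  have h := lp.hasSum_norm (p := 1) (by norm_num) x
  simpa using h

lemma norm_le_of_basis {F : Type} [NormedAddCommGroup F] [NormedSpace ℂ F] (A : L1 ι →L[ℂ] F)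
    {C : ℝ} (h : ∀ i, ‖A (e i)‖ ≤ C) (x : L1 ι) : ‖A x‖ ≤ C * ‖x‖ := by
  have h1 := (hasSum_e x).mapL A
  refine h1.norm_le_of_bounded ((hasSum_norm_l1 x).mul_left C) fun i => ?_
  rw [map_smul, norm_smul, mul_comm]
  exact mul_le_mul_of_nonneg_right (h i) (norm_nonneg _)

lemma exists_op (col : ι → L1 ι) {C : ℝ} (h : ∀ i, ‖col i‖ ≤ C) :
    ∃ A : L1 ι →L[ℂ] L1 ι, ∀ i, A (e i) = col i := by
  have hb : ∀ (x : L1 ι) i, ‖x i • col i‖ ≤ C * ‖x i‖ := by
    intro x i
    rw [norm_smul, mul_comm]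
    exact mul_le_mul_of_nonneg_right (h i) (norm_nonneg _)
  have hs : ∀ x : L1 ι, Summable (fun i => x i • col i) := fun x =>
    Summable.of_norm_bounded ((hasSum_norm_l1 x).mul_left C).summable (hb x)
  let A₀ : L1 ι →ₗ[ℂ] L1 ι :=
    { toFun := fun x => ∑' i, x i • col i
      map_add' := fun x y => by
        rw [← (hs x).tsum_add (hs y)]
        refine tsum_congr fun i => ?_
        rw [lp.coeFn_add, Pi.add_apply, add_smul]
      map_smul' := fun c x => by
        rw [RingHom.id_apply, ← (hs x).tsum_const_smul c]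
        refine tsum_congr fun i => ?_
        rw [lp.coeFn_smul, Pi.smul_apply, smul_eq_mul, mul_smul] }
  refine ⟨A₀.mkContinuous C fun x => ?_, fun i => ?_⟩
  · exact tsum_of_norm_bounded ((hasSum_norm_l1 x).mul_left C) (hb x)
  · show ∑' j, (e i) j • col j = col i
    rw [tsum_eq_single i]
    · unfold e; rw [lp.single_apply_self, one_smul]
    · intro j hj; unfold e; rw [lp.single_apply_ne _ _ _ hj, zero_smul]

lemma mem_of_basis (Z : Submodule ℂ (L1 ι)) (hZ : IsClosed (Z : Set (L1 ι))) (h : ∀ i, e i ∈ Z)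
    (x : L1 ι) : x ∈ Z :=
  hZ.mem_of_tendsto (hasSum_e x) (Filter.Eventually.of_forall fun _ =>
    Z.sum_mem fun i _ => Z.smul_mem _ (h i))

lemma separable_l1 [Countable ι] : TopologicalSpace.SeparableSpace (L1 ι) := by
  have h1 : TopologicalSpace.IsSeparable (Set.range (e : ι → L1 ι)) :=
    (Set.countable_range _).isSeparable
  have h2 := (h1.span (R := ℂ)).closure
  rw [← TopologicalSpace.isSeparable_univ_iff]
  refine h2.mono fun x _ => ?_
  exact mem_of_basis (Submodule.span ℂ (Set.range e)).topologicalClosure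
    (Submodule.isClosed_topologicalClosure _)
    (fun i => Submodule.le_topologicalClosure _ (Submodule.subset_span ⟨i, rfl⟩)) x

end l1

lemma mem_span_eig {X : Type} [NormedAddCommGroup X] [NormedSpace ℂ X] {T : X →L[ℂ] X} {L : ℕ}
    (hL : 0 < L) {s : ℝ} {w : X} (h : (T ^ L) w = ((exp (s * L) : ℝ) : ℂ) • w) :
    w ∈ Submodule.span ℂ {x : X | ∃ z : ℂ, ‖z‖ = exp s ∧ T x = z • x} := by
  set ζ : ℂ := Complex.exp (2 * π * Complex.I / L) with hζ
  have hprim : IsPrimitiveRoot ζ L := Complex.isPrimitiveRoot_exp L hL.ne'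
  set r : ℂ := ((exp s : ℝ) : ℂ) with hr
  have hr0 : r ≠ 0 := by rw [hr]; exact_mod_cast (exp_pos s).ne'
  have hζ0 : ζ ≠ 0 := Complex.exp_ne_zero _
  have hrL : ((exp (s * L) : ℝ) : ℂ) = r ^ L := by
    rw [hr, ← Complex.ofReal_pow, ← exp_nat_mul, mul_comm]
  let v : ℕ → X := fun k => ∑ i ∈ Finset.range L, ((r * ζ ^ k)⁻¹ ^ i) • (T ^ i) w
  have hv : ∀ k, T (v k) = (r * ζ ^ k) • v k := by
    intro k
    have hμ : r * ζ ^ k ≠ 0 := mul_ne_zero hr0 (pow_ne_zero _ hζ0)
    have hμL : (r * ζ ^ k) ^ L = r ^ L := by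
      rw [mul_pow, ← pow_mul, mul_comm k L, pow_mul, hprim.pow_eq_one, one_pow, mul_one]
    have e1 := Finset.sum_range_succ (fun i => ((r * ζ ^ k)⁻¹ ^ i) • (T ^ i) w) L
    have e2 := Finset.sum_range_succ' (fun i => ((r * ζ ^ k)⁻¹ ^ i) • (T ^ i) w) L
    have e3 : ((r * ζ ^ k)⁻¹ ^ L) • (T ^ L) w = ((r * ζ ^ k)⁻¹ ^ 0) • (T ^ 0) w := by
      rw [h, hrL, smul_smul, inv_pow, hμL, inv_mul_cancel₀ (pow_ne_zero _ hr0)]
      simp
    rw [e1, e3] at e2
    have e4 := add_right_cancel e2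
    simp only [v]
    conv_rhs => rw [e4]
    rw [map_sum, Finset.smul_sum]
    refine Finset.sum_congr rfl fun i _ => ?_
    rw [map_smul, pow_apply_succ, smul_smul, pow_succ]
    congr 1
    field_simp
  have hsum : ∑ k ∈ Finset.range L, v k = (L : ℂ) • w := by
    simp only [v]
    rw [Finset.sum_comm]
    rw [Finset.sum_eq_single 0]
    · simp [← Nat.cast_smul_eq_nsmul ℂ]
    · intro i hi hi0
      rw [← Finset.sum_smul]
      have e1 : ∀ k, (r * ζ ^ k)⁻¹ ^ i = r⁻¹ ^ i * (ζ⁻¹ ^ i) ^ k := by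
        intro k
        rw [mul_inv, mul_pow, ← inv_pow, ← pow_mul, ← pow_mul, mul_comm k i]
      simp_rw [e1]
      rw [← Finset.mul_sum]
      have hne : ζ⁻¹ ^ i ≠ 1 := hprim.inv.pow_ne_one_of_pos_of_lt hi0 (Finset.mem_range.mp hi)
      have hone : (ζ⁻¹ ^ i) ^ L = 1 := by
        rw [← pow_mul, mul_comm, pow_mul, hprim.inv.pow_eq_one, one_pow]
      rw [geom_sum_eq hne, hone]; simp
    · intro h0; exact absurd (Finset.mem_range.mpr hL) h0
  have hw : w = (L : ℂ)⁻¹ • ∑ k ∈ Finset.range L, v k := by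
    rw [hsum, smul_smul, inv_mul_cancel₀ (by exact_mod_cast hL.ne'), one_smul]
  rw [hw]
  refine Submodule.smul_mem _ _ (Submodule.sum_mem _ fun k _ => Submodule.subset_span ?_)
  refine ⟨r * ζ ^ k, ?_, hv k⟩
  rw [norm_mul, norm_pow, hprim.norm'_eq_one hL.ne', one_pow, mul_one, hr, Complex.norm_real,
    Real.norm_of_nonneg (exp_pos s).le]

end Pool.Agent.H551Z.CH
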