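import Pool.Agent.H551Z.CHC

/-! The explicit operator: blocks of period `2 N j`, on which `T ^ (2 N j)` is a scalar. -/

set_option autoImplicit false

open Real

namespace Pool.Agent.H551Z.CH

/-- half periods of the blocks -/
def NN : ℕ → ℕ
  | 0 => 100000
  | m + 1 => NN m ^ 7

lemma NN_ge (m : ℕ) : 100000 + m ≤ NN m := by
  induction m with
  | zero => simp [NN]
  | succ m ih =>
    have h1 : NN m ^ 2 ≤ NN m ^ 7 := Nat.pow_le_pow_right (by omega) (by norm_num)
    have h2 : 2 * NN m ≤ NN m ^ 2 := by nlinarith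
    simp only [NN]; omega

lemma NN_dvd {k j : ℕ} (h : k ≤ j) : NN k ∣ NN j := by
  induction j, h using Nat.le_induction with
  | base => exact dvd_rfl
  | succ j _ ih => exact ih.trans (dvd_pow_self _ (by norm_num))

lemma NN_mono {k j : ℕ} (h : k ≤ j) : NN k ≤ NN j :=
  Nat.le_of_dvd (by have := NN_ge j; omega) (NN_dvd h)

/-- index set -/
abbrev Ix : Type := {p : ℕ × ℕ // p.2 < 2 * NN p.1}

/-- the space -/
abbrev XX : Type := L1 Ix

/-- basis vectors -/
noncomputable def g (j i : ℕ) : XX := if h : i < 2 * NN j then e (⟨(j, i), h⟩ : Ix) else 0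

lemma g_eq (p : Ix) : g p.1.1 p.1.2 = e p := by
  unfold g; rw [dif_pos p.2]

lemma norm_g_le (j i : ℕ) : ‖g j i‖ ≤ 1 := by
  unfold g; split_ifs
  · exact (norm_e _).le
  · simp

/-- the weights `2^{-j}` -/
noncomputable def eta (j : ℕ) : ℝ := (1 / 2) ^ j

lemma eta_pos (j : ℕ) : 0 < eta j := by unfold eta; positivity

/-- the periodic vectors -/
noncomputable def B : ℕ → XX
  | 0 => g 0 0
  | j + 1 => B (Nat.unpair j).1 + ((eta (j + 1) : ℝ) : ℂ) • g (j + 1) 0
decreasing_by exact Nat.lt_succ_of_le (Nat.unpair_left_le j)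

/-- logarithm of the modulus of the eigenvalues of block `j` -/
noncomputable def sg : ℕ → ℝ
  | 0 => -1
  | j + 1 => 1 - sg (Nat.unpair j).1
decreasing_by exact Nat.lt_succ_of_le (Nat.unpair_left_le j)

/-- the parent vector -/
noncomputable def Bp : ℕ → XX
  | 0 => 0
  | j + 1 => B (Nat.unpair j).1

lemma Bp_zero : Bp 0 = 0 := by rw [Bp]

lemma Bp_succ (j : ℕ) : Bp (j + 1) = B (Nat.unpair j).1 := by rw [Bp]

lemma B_eq (j : ℕ) : B j = Bp j + ((eta j : ℝ) : ℂ) • g j 0 := by
  cases j with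
  | zero => rw [B]; simp [Bp, eta]
  | succ j => rw [B]; rfl

lemma sg_cases (j : ℕ) : sg j = -1 ∨ sg j = 2 := by
  induction j using Nat.strong_induction_on with
  | _ j ih =>
    cases j with
    | zero => left; rw [sg]
    | succ j =>
      rw [sg]
      rcases ih _ (Nat.lt_succ_of_le (Nat.unpair_left_le j)) with h | h
      · right; rw [h]; norm_num
      · left; rw [h]; norm_num

lemma norm_B_le (j : ℕ) : ‖B j‖ ≤ 2 - eta j := by
  induction j using Nat.strong_induction_on with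
  | _ j ih =>
    cases j with
    | zero => rw [B]; have := norm_g_le 0 0; simp only [eta, pow_zero]; linarith
    | succ j =>
      rw [B]
      have h1 := ih _ (Nat.lt_succ_of_le (Nat.unpair_left_le j))
      have h2 : ‖((eta (j + 1) : ℝ) : ℂ) • g (j + 1) 0‖ ≤ eta (j + 1) := by
        rw [norm_smul, Complex.norm_real, Real.norm_of_nonneg (eta_pos _).le]
        have := norm_g_le (j + 1) 0
        nlinarith [eta_pos (j + 1)]
      have h3 : eta j ≤ eta (Nat.unpair j).1 :=
        pow_le_pow_of_le_one (by norm_num) (by norm_num) (Nat.unpair_left_le j)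
      have h4 : eta j = 2 * eta (j + 1) := by unfold eta; rw [pow_succ]; ring
      have h5 := norm_add_le (B (Nat.unpair j).1) (((eta (j + 1) : ℝ) : ℂ) • g (j + 1) 0)
      linarith

lemma norm_Bp_le (j : ℕ) : ‖Bp j‖ ≤ 2 := by
  cases j with
  | zero => simp [Bp]
  | succ j =>
    have := norm_B_le (Nat.unpair j).1
    have := eta_pos (Nat.unpair j).1
    simp only [Bp]; linarith

/-- exit coefficient -/
noncomputable def cc (j : ℕ) : ℝ :=
  (exp (sg j * (2 * NN j : ℕ)) - exp ((1 - sg j) * (2 * NN j : ℕ))) /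
    (eta j * exp (10 * ((2 * NN j - 1 : ℕ) : ℝ)))

/-- wrap-around coefficient -/
noncomputable def dd (j : ℕ) : ℝ :=
  exp (sg j * (2 * NN j : ℕ)) / exp (10 * ((2 * NN j - 1 : ℕ) : ℝ))

lemma cast_pred (j : ℕ) : ((2 * NN j - 1 : ℕ) : ℝ) = 2 * NN j - 1 := by
  have := NN_ge j
  rw [Nat.cast_sub (by omega)]; push_cast; ring

lemma norm_cc_Bp (j : ℕ) : ‖((cc j : ℝ) : ℂ) • Bp j‖ ≤ exp (-14 * NN j) := by
  have hN : (100000:ℝ) + j ≤ NN j := by exact_mod_cast NN_ge j
  have hj : (0:ℝ) ≤ j := Nat.cast_nonneg j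
  have h1 : |exp (sg j * (2 * NN j : ℕ)) - exp ((1 - sg j) * (2 * NN j : ℕ))| ≤ exp (4 * NN j) := by
    have a1 : exp (sg j * (2 * NN j : ℕ)) ≤ exp (4 * NN j) := by
      refine exp_le_exp.mpr ?_
      push_cast
      rcases sg_cases j with h | h <;> rw [h] <;> linarith
    have a2 : exp ((1 - sg j) * (2 * NN j : ℕ)) ≤ exp (4 * NN j) := by
      refine exp_le_exp.mpr ?_
      push_cast
      rcases sg_cases j with h | h <;> rw [h] <;> linarith
    rw [abs_le]
    constructor <;> linarith [exp_pos (sg j * (2 * NN j : ℕ)), exp_pos ((1 - sg j) * (2 * NN j : ℕ))]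
  have h2 : exp (-(j:ℝ)) ≤ eta j := by
    unfold eta
    rw [show -(j:ℝ) = j * (-1) by ring, exp_nat_mul]
    refine pow_le_pow_left₀ (exp_pos _).le ?_ j
    rw [exp_neg, one_div]
    exact inv_anti₀ (by norm_num) (by linarith [add_one_le_exp (1:ℝ)])
  have h3 : |cc j| ≤ exp (4 * NN j) / (exp (-(j:ℝ)) * exp (10 * (2 * NN j - 1))) := by
    unfold cc
    rw [abs_div, abs_of_pos (mul_pos (eta_pos j) (exp_pos _)), cast_pred]
    gcongr
  rw [norm_smul, Complex.norm_real, Real.norm_eq_abs]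
  calc |cc j| * ‖Bp j‖ ≤ exp (4 * NN j) / (exp (-(j:ℝ)) * exp (10 * (2 * NN j - 1))) * exp 1 := by
        refine mul_le_mul h3 ((norm_Bp_le j).trans ?_) (norm_nonneg _) (by positivity)
        linarith [add_one_le_exp (1:ℝ)]
    _ = exp (4 * NN j - (-(j:ℝ) + 10 * (2 * NN j - 1)) + 1) := by
        rw [← exp_add, ← exp_sub, ← exp_add]
    _ ≤ _ := exp_le_exp.mpr (by linarith)

lemma norm_dd_g (j : ℕ) : ‖((dd j : ℝ) : ℂ) • g j 0‖ ≤ 1 := by
  have hN : (100000:ℝ) + j ≤ NN j := by exact_mod_cast NN_ge j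
  have hj : (0:ℝ) ≤ j := Nat.cast_nonneg j
  have h1 : dd j ≤ 1 := by
    unfold dd
    rw [← exp_sub, exp_le_one_iff, cast_pred]
    push_cast
    rcases sg_cases j with h | h <;> rw [h] <;> linarith
  have h0 : 0 ≤ dd j := by unfold dd; positivity
  rw [norm_smul, Complex.norm_real, Real.norm_of_nonneg h0]
  have := norm_g_le j 0
  nlinarith [norm_nonneg (g j 0)]

/-- the columns of the operator -/
noncomputable def col (j i : ℕ) : XX :=
  if i + 1 < 2 * NN j then ((exp 10 : ℝ) : ℂ) • g j (i + 1)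
  else ((cc j : ℝ) : ℂ) • Bp j + ((dd j : ℝ) : ℂ) • g j 0

lemma norm_col_le (j i : ℕ) : ‖col j i‖ ≤ exp 10 := by
  unfold col
  split_ifs
  · rw [norm_exp_smul]
    have := norm_g_le j (i + 1)
    nlinarith [exp_pos (10:ℝ)]
  · have h1 := norm_cc_Bp j
    have h2 := norm_dd_g j
    have h3 : exp (-14 * (NN j : ℝ)) ≤ 1 := by
      rw [exp_le_one_iff]
      have : (0:ℝ) ≤ NN j := Nat.cast_nonneg _
      linarith
    have h4 := norm_add_le (((cc j : ℝ) : ℂ) • Bp j) (((dd j : ℝ) : ℂ) • g j 0)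
    linarith [add_one_le_exp (10:ℝ)]

lemma exists_T : ∃ T : XX →L[ℂ] XX, ∀ p : Ix, T (e p) = col p.1.1 p.1.2 :=
  exists_op (fun p : Ix => col p.1.1 p.1.2) (fun _ => norm_col_le _ _)

/-- the operator -/
noncomputable def TT : XX →L[ℂ] XX := exists_T.choose

lemma TT_e (p : Ix) : TT (e p) = col p.1.1 p.1.2 := exists_T.choose_spec p

lemma TT_g {j i : ℕ} (h : i < 2 * NN j) : TT (g j i) = col j i := by
  have := TT_e ⟨(j, i), h⟩
  rwa [← g_eq] at this

lemma norm_TT (z : XX) : ‖TT z‖ ≤ exp 10 * ‖z‖ :=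
  norm_le_of_basis TT (fun p => by rw [TT_e]; exact norm_col_le _ _) z

lemma TT_pow_g (j : ℕ) {i : ℕ} (h : i < 2 * NN j) :
    (TT ^ i) (g j 0) = ((exp (10 * i) : ℝ) : ℂ) • g j i := by
  induction i with
  | zero => simp
  | succ i ih =>
    rw [pow_apply_succ, ih (by omega), map_smul, TT_g (by omega), col, if_pos h, smul_smul,
      ← Complex.ofReal_mul, ← exp_add]
    congr 3; push_cast; ring

lemma eig_of_dvd {k j : ℕ} (h : k ≤ j) {s : ℝ} {z : XX}
    (hz : (TT ^ (2 * NN k)) z = ((exp (s * (2 * NN k : ℕ)) : ℝ) : ℂ) • z) :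
    (TT ^ (2 * NN j)) z = ((exp (s * (2 * NN j : ℕ)) : ℝ) : ℂ) • z := by
  obtain ⟨q, hq⟩ := NN_dvd h
  have := eig_pow hz q
  rwa [mul_assoc, ← hq] at this

lemma TT_B (j : ℕ) : (TT ^ (2 * NN j)) (B j) = ((exp (sg j * (2 * NN j : ℕ)) : ℝ) : ℂ) • B j := by
  induction j using Nat.strong_induction_on with
  | _ j ih =>
    have hp : (TT ^ (2 * NN j)) (Bp j) = ((exp ((1 - sg j) * (2 * NN j : ℕ)) : ℝ) : ℂ) • Bp j := by
      cases j with
      | zero => rw [Bp_zero, map_zero, smul_zero]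
      | succ j =>
        have h1 := ih _ (Nat.lt_succ_of_le (Nat.unpair_left_le j))
        have h2 : 1 - sg (j + 1) = sg (Nat.unpair j).1 := by rw [sg]; ring
        rw [h2, Bp_succ]
        exact eig_of_dvd ((Nat.unpair_left_le j).trans (Nat.le_succ j)) h1
    have hN := NN_ge j
    have hg : (TT ^ (2 * NN j)) (g j 0) = ((exp (10 * ((2 * NN j - 1 : ℕ) : ℝ)) : ℝ) : ℂ) •
        (((cc j : ℝ) : ℂ) • Bp j + ((dd j : ℝ) : ℂ) • g j 0) := by
      have e1 : 2 * NN j = (2 * NN j - 1) + 1 := by omega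
      conv_lhs => rw [e1]
      rw [pow_apply_succ, TT_pow_g j (by omega), map_smul, TT_g (by omega), col, if_neg (by omega)]
    have c1 : eta j * (exp (10 * ((2 * NN j - 1 : ℕ) : ℝ)) * cc j) =
        exp (sg j * (2 * NN j : ℕ)) - exp ((1 - sg j) * (2 * NN j : ℕ)) := by
      unfold cc
      have := eta_pos j
      field_simp
    have c2 : eta j * (exp (10 * ((2 * NN j - 1 : ℕ) : ℝ)) * dd j) =
        exp (sg j * (2 * NN j : ℕ)) * eta j := by
      unfold dd
      field_simp
    rw [B_eq, map_add, map_smul, hp, hg]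
    simp only [smul_add, smul_smul, ← Complex.ofReal_mul]
    rw [c1, c2, Complex.ofReal_sub, sub_smul]
    abel

lemma exists_P (m : ℕ) : ∃ P : XX →L[ℂ] XX, ∀ p : Ix, P (e p) = if p.1.1 ≤ m then e p else 0 :=
  exists_op (C := 1) (fun p : Ix => if p.1.1 ≤ m then e p else 0) (fun p => by
    split_ifs
    · exact (norm_e _).le
    · simp)

/-- the projections onto the first blocks -/
noncomputable def PP (m : ℕ) : XX →L[ℂ] XX := (exists_P m).choose

lemma PP_e (m : ℕ) (p : Ix) : PP m (e p) = if p.1.1 ≤ m then e p else 0 :=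
  (exists_P m).choose_spec p

lemma norm_PP (m : ℕ) (z : XX) : ‖PP m z‖ ≤ ‖z‖ := by
  have := norm_le_of_basis (PP m) (C := 1) (fun p => by
    rw [PP_e]
    split_ifs
    · exact (norm_e _).le
    · simp) z
  simpa using this

lemma PP_g (m j i : ℕ) : PP m (g j i) = if j ≤ m then g j i else 0 := by
  unfold g
  by_cases h : i < 2 * NN j
  · rw [dif_pos h, PP_e]
  · rw [dif_neg h]; simp

lemma PP_B {m j : ℕ} (h : j ≤ m) : PP m (B j) = B j := by
  induction j using Nat.strong_induction_on with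
  | _ j ih =>
    cases j with
    | zero => rw [B, PP_g, if_pos h]
    | succ j =>
      have h1 := Nat.unpair_left_le j
      rw [B, map_add, map_smul, PP_g, if_pos h, ih _ (Nat.lt_succ_of_le h1) (by omega)]

lemma PP_Bp {m j : ℕ} (h : j ≤ m) : PP m (Bp j) = Bp j := by
  cases j with
  | zero => simp [Bp]
  | succ j =>
    have h1 := Nat.unpair_left_le j
    exact PP_B (by omega)

lemma PP_comm (m : ℕ) (z : XX) :
    ‖PP m (TT z) - TT (PP m z)‖ ≤ exp (-14 * NN (m + 1)) * ‖z‖ := by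
  refine norm_le_of_basis ((PP m).comp TT - TT.comp (PP m)) (fun p => ?_) z
  simp only [sub_apply, ContinuousLinearMap.comp_apply]
  rw [PP_e, TT_e]
  by_cases h : p.1.1 ≤ m
  · rw [if_pos h, TT_e, col]
    split_ifs
    · rw [map_smul, PP_g, if_pos h, sub_self, norm_zero]; positivity
    · rw [map_add, map_smul, map_smul, PP_g, if_pos h, PP_Bp h, sub_self, norm_zero]; positivity
  · rw [if_neg h, map_zero, sub_zero, col]
    split_ifs
    · rw [map_smul, PP_g, if_neg h, smul_zero, norm_zero]; positivity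
    · rw [map_add, map_smul (PP m) _ (g _ _), PP_g, if_neg h, smul_zero, add_zero]
      refine (norm_PP m _).trans ((norm_cc_Bp _).trans (exp_le_exp.mpr ?_))
      have : (NN (m + 1) : ℝ) ≤ NN p.1.1 := by exact_mod_cast NN_mono (by omega)
      linarith

lemma g_formula (p : Ix) : e p = ((exp (-(10 * p.1.2)) * (eta p.1.1)⁻¹ : ℝ) : ℂ) •
    (TT ^ p.1.2) (B p.1.1 - Bp p.1.1) := by
  rw [B_eq, add_sub_cancel_left, map_smul, TT_pow_g _ p.2, g_eq, smul_smul, smul_smul,
    ← Complex.ofReal_mul, ← Complex.ofReal_mul]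
  have h := eta_pos p.1.1
  have : exp (-(10 * p.1.2)) * (eta p.1.1)⁻¹ * eta p.1.1 * exp (10 * p.1.2) = 1 := by
    rw [exp_neg]; field_simp
  rw [this]; simp

lemma PP_dec (m : ℕ) (z : XX) : ∃ zE zF, PP m z = zE + zF ∧
    (TT ^ (2 * NN m)) zE = ((exp (-1 * (2 * NN m : ℕ)) : ℝ) : ℂ) • zE ∧
    (TT ^ (2 * NN m)) zF = ((exp (2 * (2 * NN m : ℕ)) : ℝ) : ℂ) • zF := by
  set S := TT ^ (2 * NN m) with hS
  set a : ℂ := ((exp (-1 * (2 * NN m : ℕ)) : ℝ) : ℂ) with ha
  set b : ℂ := ((exp (2 * (2 * NN m : ℕ)) : ℝ) : ℂ) with hb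
  have hab : b - a ≠ 0 := by
    rw [ha, hb, ← Complex.ofReal_sub, Complex.ofReal_ne_zero]
    have hN : (100000:ℝ) + m ≤ NN m := by exact_mod_cast NN_ge m
    have hj : (0:ℝ) ≤ m := Nat.cast_nonneg m
    have : exp (-1 * (2 * NN m : ℕ)) < exp (2 * (2 * NN m : ℕ)) :=
      exp_lt_exp.mpr (by push_cast; linarith)
    linarith
  set Q : XX →L[ℂ] XX := S.comp S - (a + b) • S + (a * b) • ContinuousLinearMap.id ℂ XX with hQ
  have hQa : ∀ w, Q w = S (S w) - (a + b) • S w + (a * b) • w := fun w => rfl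
  have hQ0 : ∀ w, (S w = a • w ∨ S w = b • w) → ∀ i, Q ((TT ^ i) w) = 0 := by
    intro w hw i
    rw [hQa]
    rcases hw with hw | hw
    · have h := eig_comm hw i
      rw [← hS] at h
      rw [h, map_smul, h]; module
    · have h := eig_comm hw i
      rw [← hS] at h
      rw [h, map_smul, h]; module
  have hB : ∀ j, j ≤ m → (S (B j) = a • B j ∨ S (B j) = b • B j) := by
    intro j hj
    have h := eig_of_dvd hj (TT_B j)
    rcases sg_cases j with h1 | h1 <;> rw [h1] at h
    · exact Or.inl h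
    · exact Or.inr h
  have hBp : ∀ j, j ≤ m → (S (Bp j) = a • Bp j ∨ S (Bp j) = b • Bp j) := by
    intro j hj
    cases j with
    | zero => left; simp [Bp]
    | succ j =>
      have h1 := Nat.unpair_left_le j
      exact hB _ (by omega)
  have hQP : Q (PP m z) = 0 := by
    have := norm_le_of_basis (Q.comp (PP m)) (C := 0) (fun p => by
      rw [ContinuousLinearMap.comp_apply, PP_e]
      split_ifs with h
      · rw [g_formula, map_smul, map_sub, map_sub, hQ0 _ (hB _ h), hQ0 _ (hBp _ h)]; simp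
      · simp) z
    simpa using this
  set w := PP m z with hw
  rw [hQa] at hQP
  have hSS : S (S w) = (a + b) • S w - (a * b) • w := by
    rw [← sub_eq_zero, ← hQP]; abel
  refine ⟨(b - a)⁻¹ • (b • w - S w), (b - a)⁻¹ • (S w - a • w), ?_, ?_, ?_⟩
  · rw [← smul_add]
    have : b • w - S w + (S w - a • w) = (b - a) • w := by module
    rw [this, smul_smul, inv_mul_cancel₀ hab, one_smul]
  · rw [map_smul, map_sub, map_smul, hSS]; module
  · rw [map_smul, map_sub, map_smul, hSS]; module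

lemma dense_of_B (Z : Submodule ℂ XX) (hT : ∀ x ∈ Z, TT x ∈ Z) {σ : ℝ} (hσ : σ = -1 ∨ σ = 2)
    (hB : ∀ j, sg j = σ → B j ∈ Z) : Dense (Z : Set XX) := by
  set Y := Z.topologicalClosure with hY
  have hYc : IsClosed (Y : Set XX) := Submodule.isClosed_topologicalClosure _
  have hTY : ∀ x ∈ Y, TT x ∈ Y := fun x hx => map_mem_closure TT.continuous hx hT
  have hTYp : ∀ i, ∀ x ∈ Y, (TT ^ i) x ∈ Y := by
    intro i x hx
    induction i with
    | zero => simpa using hx
    | succ i ih => rw [pow_apply_succ]; exact hTY _ ih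
  have hBY : ∀ j, B j ∈ Y := by
    intro j
    by_cases h : sg j = σ
    · exact Submodule.le_topologicalClosure _ (hB j h)
    · have hch : ∀ n, sg (Nat.pair j n + 1) = σ := by
        intro n
        rw [sg, Nat.unpair_pair]
        rcases sg_cases j with h1 | h1 <;> rcases hσ with h2 | h2
        · exact absurd (h1.trans h2.symm) h
        · simp only [h1, h2]; norm_num
        · simp only [h1, h2]; norm_num
        · exact absurd (h1.trans h2.symm) h
      have hlim : Filter.Tendsto (fun n => B (Nat.pair j n + 1)) Filter.atTop (nhds (B j)) := by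
        rw [tendsto_iff_norm_sub_tendsto_zero]
        refine squeeze_zero (fun n => norm_nonneg _) (fun n => ?_)
          (tendsto_pow_atTop_nhds_zero_of_lt_one (r := (1 / 2 : ℝ)) (by norm_num) (by norm_num))
        rw [B, Nat.unpair_pair, add_sub_cancel_left, norm_smul, Complex.norm_real,
          Real.norm_of_nonneg (eta_pos _).le]
        have h1 := norm_g_le (Nat.pair j n + 1) 0
        have h2 : eta (Nat.pair j n + 1) ≤ (1 / 2) ^ n :=
          pow_le_pow_of_le_one (by norm_num) (by norm_num)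
            ((Nat.right_le_pair j n).trans (Nat.le_succ _))
        nlinarith [eta_pos (Nat.pair j n + 1)]
      exact hYc.mem_of_tendsto hlim (Filter.Eventually.of_forall fun n =>
        Submodule.le_topologicalClosure _ (hB _ (hch n)))
  have hBpY : ∀ j, Bp j ∈ Y := by
    intro j
    cases j with
    | zero => exact Y.zero_mem
    | succ j => exact hBY _
  intro x
  refine mem_of_basis Y hYc (fun p => ?_) x
  rw [g_formula]
  exact Y.smul_mem _ (hTYp _ _ (Y.sub_mem (hBY _) (hBpY _)))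

lemma dense_eig (R : ℂ → Prop) {σ : ℝ} (hσ : σ = -1 ∨ σ = 2) (hR : ∀ z : ℂ, ‖z‖ = exp σ → R z) :
    Dense ((Submodule.span ℂ {x : XX | ∃ z : ℂ, R z ∧ TT x = z • x}) : Set XX) := by
  refine dense_of_B _ ?_ hσ ?_
  · intro x hx
    induction hx using Submodule.span_induction with
    | mem x hx =>
      obtain ⟨z, hz, hx'⟩ := hx
      rw [hx']
      exact Submodule.smul_mem _ _ (Submodule.subset_span ⟨z, hz, hx'⟩)
    | zero => simp
    | add x y _ _ hx hy => rw [map_add]; exact Submodule.add_mem _ hx hy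
    | smul c x _ hx => rw [map_smul]; exact Submodule.smul_mem _ _ hx
  · intro j hj
    have h := TT_B j
    rw [hj] at h
    have hN := NN_ge j
    refine Submodule.span_mono ?_ (mem_span_eig (by omega) h)
    rintro x ⟨z, hz, hx⟩
    exact ⟨z, hR z hz, hx⟩

theorem no_common (x : XX) : ∃ u : ℝ, 0 ≤ u ∧ u ≤ 1 ∧
    ¬ Dense (Set.range (fun n : ℕ => ((((exp (-u) : ℝ) : ℂ) • TT) ^ n) x)) := by
  have hy1 : ‖g 0 0‖ = 1 := by
    unfold g; rw [dif_pos (by simp [NN])]; exact norm_e _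
  obtain ⟨u, h0, h1, n₀, h⟩ := exists_bad_param norm_TT NN NN_ge (fun _ => rfl) PP norm_PP PP_comm
    PP_dec (y := g 0 0) (fun m => by rw [PP_g, if_pos (Nat.zero_le m)]) hy1 x
  exact ⟨u, h0, h1, not_dense_of_bad hy1 h⟩

end Pool.Agent.H551Z.CH
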