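import Pool.Agent.H551Z.CHD

set_option autoImplicit false

open scoped NNReal ENNReal
open Real

namespace Pool.Agent.H551Z.CH

theorem exists_counterexample : ∃ (X : Type) (_ : NormedAddCommGroup X) (_ : NormedSpace ℂ X)
    (_ : CompleteSpace X) (_ : TopologicalSpace.SeparableSpace X)
    (T : X →L[ℂ] X) (a : ℝ≥0) (b : ℝ≥0∞), (a : ℝ≥0∞) < b ∧
    (∀ α : ℝ≥0, a < α → (α : ℝ≥0∞) < b →
      Dense ((Submodule.span ℂ {x : X | ∃ z : ℂ, ‖z‖₊ < α ∧ T x = z • x}) : Set X) ∧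
      Dense ((Submodule.span ℂ {x : X | ∃ z : ℂ, α < ‖z‖₊ ∧ T x = z • x}) : Set X)) ∧
    ∀ x : X, ∃ z : ℂ, (a : ℝ≥0∞) * (‖z‖₊ : ℝ≥0∞) < 1 ∧ 1 < b * (‖z‖₊ : ℝ≥0∞) ∧
      ¬ Dense (Set.range (fun n : ℕ => ((z • T) ^ n) x)) := by
  let a : ℝ≥0 := ⟨exp (-1), (exp_pos _).le⟩
  let b : ℝ≥0 := ⟨exp 2, (exp_pos _).le⟩
  refine ⟨XX, inferInstance, inferInstance, inferInstance, separable_l1, TT, a, (b : ℝ≥0∞),
    ?_, ?_, ?_⟩
  · rw [ENNReal.coe_lt_coe, ← NNReal.coe_lt_coe]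
    exact exp_lt_exp.mpr (by norm_num)
  · intro α h1 h2
    rw [ENNReal.coe_lt_coe] at h2
    constructor
    · refine dense_eig (fun z => ‖z‖₊ < α) (Or.inl rfl) fun z hz => ?_
      have : ‖z‖₊ = a := NNReal.eq hz
      rw [this]; exact h1
    · refine dense_eig (fun z => α < ‖z‖₊) (Or.inr rfl) fun z hz => ?_
      have : ‖z‖₊ = b := NNReal.eq hz
      rw [this]; exact h2
  · intro x
    obtain ⟨u, h0, h1, h⟩ := no_common x
    have hn : (‖((exp (-u) : ℝ) : ℂ)‖₊ : ℝ) = exp (-u) := by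
      rw [coe_nnnorm, Complex.norm_real, Real.norm_of_nonneg (exp_pos _).le]
    refine ⟨((exp (-u) : ℝ) : ℂ), ?_, ?_, h⟩
    · rw [← ENNReal.coe_mul, ENNReal.coe_lt_one_iff, ← NNReal.coe_lt_coe, NNReal.coe_mul, hn]
      show exp (-1) * exp (-u) < 1
      rw [← exp_add, exp_lt_one_iff]; linarith
    · rw [← ENNReal.coe_mul, ENNReal.one_lt_coe_iff, ← NNReal.coe_lt_coe, NNReal.coe_mul, hn]
      show 1 < exp 2 * exp (-u)
      rw [← exp_add, one_lt_exp_iff]; linarith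

end Pool.Agent.H551Z.CH
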