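import Mathlib

set_option autoImplicit false

open Real MeasureTheory Set Filter Topology

namespace Pool.Agent.H551Z.Doney

/-- `φ_p(x) = x_+^(p-1) / Γ(p)`. -/
noncomputable def phi (p x : ℝ) : ℝ := (max x 0) ^ (p - 1) / Gamma p

lemma phi_of_nonpos {p x : ℝ} (hp : 1 < p) (hx : x ≤ 0) : phi p x = 0 := by
  unfold phi
  rw [max_eq_right hx, Real.zero_rpow (by linarith)]
  simp

lemma phi_of_pos (p : ℝ) {x : ℝ} (hx : 0 ≤ x) : phi p x = x ^ (p - 1) / Gamma p := by
  unfold phi
  rw [max_eq_left hx]

lemma phi_nonneg {p : ℝ} (hp : 0 < p) (x : ℝ) : 0 ≤ phi p x := by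
  unfold phi
  exact div_nonneg (Real.rpow_nonneg (le_max_right _ _) _) (Gamma_pos_of_pos hp).le

lemma continuous_phi {p : ℝ} (hp : 1 < p) : Continuous (phi p) := by
  unfold phi
  refine Continuous.div_const ?_ _
  exact (continuous_id.max continuous_const).rpow_const (fun _ => Or.inr (by linarith))

lemma hasDerivAt_phi {p : ℝ} (hp : 2 < p) (x : ℝ) : HasDerivAt (phi p) (phi (p - 1) x) x := by
  have hG : Gamma p = (p - 1) * Gamma (p - 1) := by
    have := Real.Gamma_add_one (s := p - 1) (by linarith)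
    rw [← this]; congr 1; ring
  have hG1 : 0 < Gamma (p - 1) := Gamma_pos_of_pos (by linarith)
  have hp1 : (0:ℝ) < p - 1 := by linarith
  -- the function y ↦ y^(p-1)/Γ p
  have hpow : ∀ y : ℝ, HasDerivAt (fun y : ℝ => y ^ (p - 1) / Gamma p)
      (y ^ (p - 1 - 1) / Gamma (p - 1)) y := by
    intro y
    have h := (Real.hasDerivAt_rpow_const (x := y) (p := p - 1) (Or.inr (by linarith))).div_const
      (Gamma p)
    have e : (p - 1) * y ^ (p - 1 - 1) / Gamma p = y ^ (p - 1 - 1) / Gamma (p - 1) := by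
      rw [hG]; field_simp
    rwa [e] at h
  rcases lt_trichotomy x 0 with hx | hx | hx
  · rw [phi_of_nonpos (by linarith) hx.le]
    refine (hasDerivAt_const x (0:ℝ)).congr_of_eventuallyEq ?_
    filter_upwards [Iio_mem_nhds hx] with y hy
    exact phi_of_nonpos (by linarith) (le_of_lt hy)
  · subst hx
    rw [phi_of_nonpos (by linarith) le_rfl]
    have h1 : HasDerivWithinAt (phi p) 0 (Iic 0) 0 := by
      refine (hasDerivWithinAt_const (0:ℝ) (Iic 0) (0:ℝ)).congr ?_ ?_
      · intro y hy; exact phi_of_nonpos (by linarith) hy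
      · exact phi_of_nonpos (by linarith) le_rfl
    have h2 : HasDerivWithinAt (phi p) 0 (Ici 0) 0 := by
      have h := (hpow 0).hasDerivWithinAt (s := Ici 0)
      rw [Real.zero_rpow (by linarith), zero_div] at h
      refine h.congr ?_ ?_
      · intro y hy; exact phi_of_pos p hy
      · exact phi_of_pos p le_rfl
    have h3 := h1.union h2
    rw [Iic_union_Ici] at h3
    exact hasDerivWithinAt_univ.mp h3
  · rw [phi_of_pos _ hx.le]
    refine (hpow x).congr_of_eventuallyEq ?_
    filter_upwards [Ioi_mem_nhds hx] with y hy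
    exact phi_of_pos p (le_of_lt hy)

lemma rpow_mul_exp_le_Gamma {p t : ℝ} (hp : 1 ≤ p) (ht : 0 ≤ t) :
    t ^ (p - 1) * exp (-t) ≤ Gamma p := by
  have hp0 : 0 < p := by linarith
  rw [Real.Gamma_eq_integral hp0]
  have hint := Real.GammaIntegral_convergent hp0
  have h1 : ∫ s in Ioi t, exp (-s) * s ^ (p - 1) ≤ ∫ s in Ioi (0:ℝ), exp (-s) * s ^ (p - 1) := by
    refine setIntegral_mono_set hint ?_ ?_
    · filter_upwards [ae_restrict_mem measurableSet_Ioi] with s hs
      exact mul_nonneg (exp_pos _).le (Real.rpow_nonneg (le_of_lt hs) _)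
    · exact (Ioi_subset_Ioi ht).eventuallyLE
  refine le_trans ?_ h1
  rw [← integral_exp_neg_Ioi t, ← integral_const_mul]
  refine setIntegral_mono_on ?_ (hint.mono_set (Ioi_subset_Ioi ht)) measurableSet_Ioi ?_
  · have := (exp_neg_integrableOn_Ioi t (b := 1) one_pos).const_mul (t ^ (p - 1))
    simp only [neg_mul, one_mul] at this
    exact this
  · intro s hs
    rw [mul_comm]
    refine mul_le_mul_of_nonneg_left ?_ (exp_pos _).le
    exact Real.rpow_le_rpow ht (le_of_lt hs) (by linarith)

lemma phi_le {p β : ℝ} (hp : 1 < p) (hβ : 0 < β) (x : ℝ) :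
    phi p x ≤ exp (β * x) * β ^ (1 - p) := by
  rcases le_total x 0 with hx | hx
  · rw [phi_of_nonpos hp hx]; positivity
  · rw [phi_of_pos _ hx]
    have hG : 0 < Gamma p := Gamma_pos_of_pos (by linarith)
    have h := rpow_mul_exp_le_Gamma hp.le (mul_nonneg hβ.le hx)
    rw [Real.mul_rpow hβ.le hx] at h
    rw [div_le_iff₀ hG]
    have h2 : β ^ (1 - p) * β ^ (p - 1) = 1 := by
      rw [← Real.rpow_add hβ]; simp
    have h3 : exp (β * x) * exp (-(β * x)) = 1 := by
      rw [← Real.exp_add]; simp
    have h4 : 0 < exp (β * x) * β ^ (1 - p) := by positivity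
    calc x ^ (p - 1) = (exp (β * x) * β ^ (1 - p)) * (β ^ (p - 1) * x ^ (p - 1) * exp (-(β * x))) := by
          have : (exp (β * x) * β ^ (1 - p)) * (β ^ (p - 1) * x ^ (p - 1) * exp (-(β * x)))
              = (exp (β * x) * exp (-(β * x))) * (β ^ (1 - p) * β ^ (p - 1)) * x ^ (p - 1) := by ring
          rw [this, h2, h3]; ring
      _ ≤ exp (β * x) * β ^ (1 - p) * Gamma p := mul_le_mul_of_nonneg_left h h4.le

lemma laplace_phi {p β : ℝ} (hp : 1 < p) (hβ : 0 < β) :
    Integrable (fun x => exp (-β * x) * phi p x) ∧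
      ∫ x, exp (-β * x) * phi p x = β ^ (-p) := by
  have hp0 : 0 < p := by linarith
  have hG : 0 < Gamma p := Gamma_pos_of_pos hp0
  have hind : (fun x => exp (-β * x) * phi p x) =
      (Ioi (0:ℝ)).indicator (fun x => (x ^ (p - 1) * exp (-(β * x))) / Gamma p) := by
    funext x
    by_cases hx : x ∈ Ioi (0:ℝ)
    · rw [indicator_of_mem hx, phi_of_pos _ (le_of_lt hx)]
      rw [neg_mul]; ring
    · rw [indicator_of_notMem hx, phi_of_nonpos hp (not_lt.mp hx)]; simp
  rw [hind]
  constructor
  · rw [integrable_indicator_iff measurableSet_Ioi]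
    refine Integrable.div_const ?_ _
    have hp1 : -1 < p - 1 := by linarith
    have := integrableOn_rpow_mul_exp_neg_mul_rpow (s := p - 1) (p := 1) (b := β) hp1 one_pos hβ
    simp only [Real.rpow_one, neg_mul] at this
    exact this
  · rw [integral_indicator measurableSet_Ioi, integral_div,
      Real.integral_rpow_mul_exp_neg_mul_Ioi hp0 hβ]
    rw [Real.rpow_neg hβ.le, one_div, Real.inv_rpow hβ.le]
    field_simp

/-- `n`-fold backward difference of `φ_p` with step one. -/
noncomputable def D : ℕ → ℝ → ℝ → ℝ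
  | 0, p, x => phi p x
  | n + 1, p, x => D n p x - D n p (x - 1)

lemma D_of_nonpos {p : ℝ} (hp : 1 < p) : ∀ (n : ℕ) {x : ℝ}, x ≤ 0 → D n p x = 0
  | 0, _, hx => phi_of_nonpos hp hx
  | n + 1, x, hx => by
      simp only [D]
      rw [D_of_nonpos hp n hx, D_of_nonpos hp n (by linarith)]; simp

lemma continuous_D {p : ℝ} (hp : 1 < p) : ∀ n : ℕ, Continuous (D n p)
  | 0 => continuous_phi hp
  | n + 1 => by
      have h := continuous_D hp n
      exact h.sub (h.comp (continuous_id.sub continuous_const))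

lemma hasDerivAt_D {p : ℝ} (hp : 2 < p) : ∀ (n : ℕ) (x : ℝ), HasDerivAt (D n p) (D n (p - 1) x) x
  | 0, x => hasDerivAt_phi hp x
  | n + 1, x => by
      have h1 := hasDerivAt_D hp n x
      have h2 := (hasDerivAt_D hp n (x - 1)).comp_sub_const x 1
      exact h1.sub h2

lemma abs_D_le {p β : ℝ} (hp : 1 < p) (hβ : 0 < β) :
    ∀ (n : ℕ) (x : ℝ), |D n p x| ≤ 2 ^ n * (exp (β * x) * β ^ (1 - p))
  | 0, x => by
      simp only [D, pow_zero, one_mul]
      rw [abs_of_nonneg (phi_nonneg (by linarith) x)]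
      exact phi_le hp hβ x
  | n + 1, x => by
      have h1 := abs_D_le hp hβ n x
      have h2 := abs_D_le hp hβ n (x - 1)
      have h3 : exp (β * (x - 1)) ≤ exp (β * x) := exp_le_exp.mpr (by nlinarith)
      have h4 : (2:ℝ) ^ n * (exp (β * (x - 1)) * β ^ (1 - p)) ≤ 2 ^ n * (exp (β * x) * β ^ (1 - p)) := by
        gcongr
      simp only [D]
      calc |D n p x - D n p (x - 1)| ≤ |D n p x| + |D n p (x - 1)| := abs_sub _ _
        _ ≤ _ := by rw [pow_succ]; linarith

lemma laplace_D {p β : ℝ} (hp : 1 < p) (hβ : 0 < β) : ∀ n : ℕ,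
    Integrable (fun x => exp (-β * x) * D n p x) ∧
      ∫ x, exp (-β * x) * D n p x = (1 - exp (-β)) ^ n * β ^ (-p) ∧
      ∫ x, ‖exp (-β * x) * D n p x‖ ≤ 2 ^ n * β ^ (-p)
  | 0 => by
      obtain ⟨h1, h2⟩ := laplace_phi hp hβ
      refine ⟨h1, by simpa [D] using h2, ?_⟩
      simp only [D, pow_zero, one_mul]
      rw [← h2]
      refine le_of_eq (integral_congr_ae (Eventually.of_forall fun x => ?_))
      exact norm_of_nonneg (mul_nonneg (exp_pos _).le (phi_nonneg (by linarith) x))
  | n + 1 => by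
      obtain ⟨h1, h2, h3⟩ := laplace_D hp hβ n
      have hs : (fun x => exp (-β * x) * D n p (x - 1)) =
          fun x => exp (-β) * (exp (-β * (x - 1)) * D n p (x - 1)) := by
        funext x
        rw [← mul_assoc, ← Real.exp_add]; congr 2; ring
      have h1' : Integrable (fun x => exp (-β * x) * D n p (x - 1)) := by
        rw [hs]
        exact (h1.comp_sub_right 1).const_mul _
      have h2' : ∫ x, exp (-β * x) * D n p (x - 1) = exp (-β) * ((1 - exp (-β)) ^ n * β ^ (-p)) := by
        rw [hs, integral_const_mul, ← h2]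
        congr 1
        exact integral_sub_right_eq_self (fun x => exp (-β * x) * D n p x) 1
      have h3' : ∫ x, ‖exp (-β * x) * D n p (x - 1)‖ ≤ 2 ^ n * β ^ (-p) := by
        have : (fun x => ‖exp (-β * x) * D n p (x - 1)‖) =
            fun x => exp (-β) * ‖exp (-β * (x - 1)) * D n p (x - 1)‖ := by
          funext x
          have : exp (-β * x) * D n p (x - 1) =
              exp (-β) * (exp (-β * (x - 1)) * D n p (x - 1)) := congrFun hs x
          rw [this, norm_mul, norm_of_nonneg (exp_pos _).le]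
        rw [this, integral_const_mul,
          integral_sub_right_eq_self (fun x => ‖exp (-β * x) * D n p x‖) 1]
        have he : exp (-β) ≤ 1 := by rw [exp_le_one_iff]; linarith
        have h0 : 0 ≤ ∫ x, ‖exp (-β * x) * D n p x‖ := integral_nonneg fun x => norm_nonneg _
        nlinarith [exp_pos (-β)]
      have hd : (fun x => exp (-β * x) * D (n + 1) p x) =
          fun x => exp (-β * x) * D n p x - exp (-β * x) * D n p (x - 1) := by
        funext x; simp only [D]; ring
      have hI : Integrable (fun x => exp (-β * x) * D (n + 1) p x) := by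
        rw [hd]; exact h1.sub h1'
      refine ⟨hI, ?_, ?_⟩
      · rw [hd, integral_sub h1 h1', h2, h2']; ring
      · calc ∫ x, ‖exp (-β * x) * D (n + 1) p x‖
            ≤ ∫ x, (‖exp (-β * x) * D n p x‖ + ‖exp (-β * x) * D n p (x - 1)‖) := by
              refine integral_mono hI.norm (h1.norm.add h1'.norm) ?_
              intro x
              have : exp (-β * x) * D (n + 1) p x =
                  exp (-β * x) * D n p x - exp (-β * x) * D n p (x - 1) := congrFun hd x
              show ‖exp (-β * x) * D (n + 1) p x‖ ≤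
                ‖exp (-β * x) * D n p x‖ + ‖exp (-β * x) * D n p (x - 1)‖
              rw [this]; exact norm_sub_le _ _
          _ ≤ _ := by rw [integral_add h1.norm h1'.norm, pow_succ]; linarith

end Pool.Agent.H551Z.Doney
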