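import Pool.Agent.H551Z.DoneyA

set_option autoImplicit false

open Real MeasureTheory Set Filter Topology

namespace Pool.Agent.H551Z.Doney

lemma two_mul_rpow_lt_one {α β : ℝ} (hα : 1 ≤ α) (hβ : 2 < β) : 2 * β ^ (-α) < 1 := by
  have hβ0 : 0 < β := by linarith
  have h1 : β ≤ β ^ α := by
    conv_lhs => rw [← Real.rpow_one β]
    exact Real.rpow_le_rpow_of_exponent_le (by linarith) hα
  have h2 : 0 < β ^ α := by positivity
  rw [Real.rpow_neg hβ0.le, ← div_eq_mul_inv, div_lt_one h2]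
  linarith

lemma summable_geom {α β : ℝ} (hα : 1 ≤ α) (hβ : 2 < β) (c : ℝ) :
    Summable (fun n : ℕ => (2:ℝ) ^ n * β ^ (c - α * n)) := by
  have hβ0 : 0 < β := by linarith
  have hr := two_mul_rpow_lt_one hα hβ
  have h0 : 0 ≤ 2 * β ^ (-α) := by positivity
  refine ((summable_geometric_of_lt_one h0 hr).mul_left (β ^ c)).congr fun n => ?_
  rw [mul_pow, ← Real.rpow_natCast (β ^ (-α)) n, ← Real.rpow_mul hβ0.le, sub_eq_add_neg,
    Real.rpow_add hβ0]
  rw [show -α * (n:ℝ) = -(α * n) by ring]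
  ring

/-- The tail series, differentiated `s` times. -/
noncomputable def G (α s x : ℝ) : ℝ := ∑' n : ℕ, D (n + 1) (α * (n + 2) - s) x

lemma exponent_gt {α s : ℝ} (hα : 3 / 2 < α) (hs : s ≤ 2) (n : ℕ) : 1 < α * (n + 2) - s := by
  have : (0:ℝ) ≤ n := Nat.cast_nonneg n
  nlinarith

lemma G_term_le {α s R : ℝ} (hα : 3 / 2 < α) (hs : s ≤ 2) (n : ℕ) {x : ℝ} (hx : x ∈ Iio R) :
    ‖D (n + 1) (α * (n + 2) - s) x‖ ≤
      (2 * exp (3 * R)) * ((2:ℝ) ^ n * (3:ℝ) ^ ((1 + s - 2 * α) - α * n)) := by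
  have h := abs_D_le (exponent_gt hα hs n) (β := 3) (by norm_num) (n + 1) x
  rw [Real.norm_eq_abs]
  refine h.trans ?_
  have h1 : exp (3 * x) ≤ exp (3 * R) := exp_le_exp.mpr (by linarith [mem_Iio.mp hx])
  rw [show 1 - (α * ((n:ℝ) + 2) - s) = (1 + s - 2 * α) - α * n by ring, pow_succ]
  have h2 : (0:ℝ) < (3:ℝ) ^ ((1 + s - 2 * α) - α * n) := by positivity
  calc (2:ℝ) ^ n * 2 * (exp (3 * x) * (3:ℝ) ^ ((1 + s - 2 * α) - α * n))
      ≤ (2:ℝ) ^ n * 2 * (exp (3 * R) * (3:ℝ) ^ ((1 + s - 2 * α) - α * n)) := by gcongr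
    _ = _ := by ring

lemma G_bound_summable {α : ℝ} (hα : 3 / 2 < α) (s R : ℝ) :
    Summable (fun n : ℕ => (2 * exp (3 * R)) * ((2:ℝ) ^ n * (3:ℝ) ^ ((1 + s - 2 * α) - α * n))) :=
  (summable_geom (by linarith) (by norm_num) _).mul_left _

lemma summable_G {α s : ℝ} (hα : 3 / 2 < α) (hs : s ≤ 2) (x : ℝ) :
    Summable (fun n : ℕ => D (n + 1) (α * (n + 2) - s) x) :=
  Summable.of_norm_bounded (G_bound_summable hα s (x + 1))
    (fun n => G_term_le hα hs n (by simp))

lemma continuous_G {α s : ℝ} (hα : 3 / 2 < α) (hs : s ≤ 2) : Continuous (G α s) := by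
  rw [continuous_iff_continuousAt]
  intro x
  have h : ContinuousOn (G α s) (Iio (x + 1)) :=
    continuousOn_tsum (fun n => (continuous_D (exponent_gt hα hs n) (n + 1)).continuousOn)
      (G_bound_summable hα s (x + 1)) (fun n y hy => G_term_le hα hs n hy)
  exact h.continuousAt (Iio_mem_nhds (by simp))

lemma hasDerivAt_G {α s : ℝ} (hα : 3 / 2 < α) (hs : s ≤ 1) (x : ℝ) :
    HasDerivAt (G α s) (G α (s + 1) x) x := by
  have hs' : s + 1 ≤ 2 := by linarith
  refine hasDerivAt_tsum_of_isPreconnected (G_bound_summable hα (s + 1) (x + 1))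
    (t := Iio (x + 1)) isOpen_Iio isPreconnected_Iio
    (g := fun n y => D (n + 1) (α * (n + 2) - s) y)
    (g' := fun n y => D (n + 1) (α * (n + 2) - (s + 1)) y) ?_ ?_ (y₀ := x) (by simp)
    (summable_G hα (by linarith) x) (by simp)
  · intro n y _
    have h := hasDerivAt_D (p := α * (n + 2) - s)
      (by have := exponent_gt hα hs' n; linarith) (n + 1) y
    rwa [show α * ((n:ℝ) + 2) - s - 1 = α * (n + 2) - (s + 1) by ring] at h
  · intro n y hy
    exact G_term_le hα hs' n hy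

lemma contDiff_G {α : ℝ} (hα : 3 / 2 < α) : ContDiff ℝ 2 (G α 0) := by
  have d0 : deriv (G α 0) = G α 1 := by
    funext x
    have := (hasDerivAt_G hα (s := 0) (by norm_num) x).deriv
    rwa [zero_add] at this
  have d1 : deriv (G α 1) = G α 2 := by
    funext x
    have := (hasDerivAt_G hα (s := 1) le_rfl x).deriv
    rwa [one_add_one_eq_two] at this
  rw [show (2 : WithTop ℕ∞) = 1 + 1 from rfl, contDiff_succ_iff_deriv, contDiff_one_iff_deriv, d0, d1]
  refine ⟨fun x => (hasDerivAt_G hα (by norm_num) x).differentiableAt, by simp,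
    fun x => (hasDerivAt_G hα le_rfl x).differentiableAt, continuous_G hα le_rfl⟩

/-- The scale function of `ψ(β) = β^α + e^{-β} - 1`. -/
noncomputable def W (α x : ℝ) : ℝ := ∑' n : ℕ, D n (α * (n + 1)) x

lemma exponent_gt' {α : ℝ} (hα : 3 / 2 < α) (n : ℕ) : 1 < α * (n + 1) := by
  have : (0:ℝ) ≤ n := Nat.cast_nonneg n
  nlinarith

lemma W_term_le {α β : ℝ} (hα : 3 / 2 < α) (hβ : 2 < β) (n : ℕ) (x : ℝ) :
    ‖D n (α * (n + 1)) x‖ ≤ exp (β * x) * ((2:ℝ) ^ n * β ^ ((1 - α) - α * n)) := by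
  have h := abs_D_le (exponent_gt' hα n) (β := β) (by linarith) n x
  rw [Real.norm_eq_abs]
  refine h.trans (le_of_eq ?_)
  rw [show 1 - α * ((n:ℝ) + 1) = (1 - α) - α * n by ring]
  ring

lemma summable_W {α : ℝ} (hα : 3 / 2 < α) (x : ℝ) :
    Summable (fun n : ℕ => D n (α * (n + 1)) x) :=
  Summable.of_norm_bounded ((summable_geom (β := 3) (by linarith) (by norm_num) _).mul_left _)
    (fun n => W_term_le hα (β := 3) (by norm_num) n x)

lemma W_eq {α : ℝ} (hα : 3 / 2 < α) : W α = fun x => phi α x + G α 0 x := by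
  funext x
  unfold W G
  rw [(summable_W hα x).tsum_eq_zero_add]
  congr 1
  · simp [D]
  · refine tsum_congr fun n => ?_
    congr 1
    push_cast; ring

lemma continuous_W {α : ℝ} (hα : 3 / 2 < α) : Continuous (W α) := by
  rw [W_eq hα]
  exact (continuous_phi (by linarith)).add (continuous_G hα (by norm_num))

lemma contDiffOn_W {α : ℝ} (hα : 3 / 2 < α) : ContDiffOn ℝ 2 (W α) (Ioi 0) := by
  rw [W_eq hα]
  refine ContDiffOn.add ?_ (contDiff_G hα).contDiffOn
  have h : ContDiffOn ℝ 2 (fun x : ℝ => x ^ (α - 1) / Gamma α) (Ioi 0) := by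
    refine ContDiffOn.div_const ?_ _
    exact contDiffOn_id.rpow_const_of_ne (fun x hx => ne_of_gt hx)
  exact h.congr fun x hx => phi_of_pos α (le_of_lt hx)

lemma W_of_nonpos {α : ℝ} (hα : 3 / 2 < α) {x : ℝ} (hx : x ≤ 0) : W α x = 0 := by
  unfold W
  have : ∀ n : ℕ, D n (α * (n + 1)) x = 0 := fun n => D_of_nonpos (exponent_gt' hα n) n hx
  simp [this]

lemma norm_W_le {α β : ℝ} (hα : 3 / 2 < α) (hβ : 2 < β) (x : ℝ) :
    ‖W α x‖ ≤ exp (β * x) * ∑' n : ℕ, ((2:ℝ) ^ n * β ^ ((1 - α) - α * n)) := by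
  unfold W
  rw [← tsum_mul_left]
  exact tsum_of_norm_bounded ((summable_geom (by linarith) hβ _).mul_left _).hasSum
    (fun n => W_term_le hα hβ n x)

lemma integrableOn_W {α β : ℝ} (hα : 3 / 2 < α) (hβ : 2 < β) :
    IntegrableOn (fun x => exp (-β * x) * W α x) (Ioi 0) := by
  set b : ℝ := (β + 2) / 2 with hb
  have hb2 : 2 < b := by rw [hb]; linarith
  have hbβ : 0 < β - b := by rw [hb]; linarith
  set C : ℝ := ∑' n : ℕ, ((2:ℝ) ^ n * b ^ ((1 - α) - α * n)) with hC
  refine Integrable.mono' ((exp_neg_integrableOn_Ioi 0 hbβ).mul_const C) ?_ ?_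
  · refine Continuous.aestronglyMeasurable ?_
    exact (Real.continuous_exp.comp (continuous_const.mul continuous_id)).mul (continuous_W hα)
  · refine Eventually.of_forall fun x => ?_
    rw [norm_mul, norm_of_nonneg (exp_pos _).le]
    calc exp (-β * x) * ‖W α x‖ ≤ exp (-β * x) * (exp (b * x) * C) :=
          mul_le_mul_of_nonneg_left (norm_W_le hα hb2 x) (exp_pos _).le
      _ = exp (-(β - b) * x) * C := by
          rw [← mul_assoc, ← Real.exp_add]; congr 2; ring

lemma laplace_W {α β : ℝ} (hα : 3 / 2 < α) (hβ : 2 < β) :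
    ∫ x in Ioi (0:ℝ), exp (-β * x) * W α x = 1 / (β ^ α + (exp (-β) - 1)) := by
  have hβ0 : 0 < β := by linarith
  have h1 : ∫ x in Ioi (0:ℝ), exp (-β * x) * W α x = ∫ x, exp (-β * x) * W α x := by
    refine setIntegral_eq_integral_of_forall_compl_eq_zero fun x hx => ?_
    rw [W_of_nonpos hα (not_lt.mp hx), mul_zero]
  have hL := fun n : ℕ => laplace_D (exponent_gt' hα n) hβ0 n
  have hsum : Summable (fun n : ℕ => ∫ x, ‖exp (-β * x) * D n (α * (n + 1)) x‖) := by
    refine Summable.of_nonneg_of_le (fun n => integral_nonneg fun x => norm_nonneg _)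
      (fun n => (hL n).2.2.trans (le_of_eq ?_)) (summable_geom (α := α) (by linarith) hβ (-α))
    congr 2; ring
  have h2 := hasSum_integral_of_summable_integral_norm (fun n => (hL n).1) hsum
  have h3 : (fun x => ∑' n : ℕ, exp (-β * x) * D n (α * (n + 1)) x) =
      fun x => exp (-β * x) * W α x := by
    funext x; unfold W; rw [tsum_mul_left]
  rw [h3] at h2
  rw [h1, ← h2.tsum_eq]
  have he : exp (-β) < 1 := by rw [exp_lt_one_iff]; linarith
  have he0 := exp_pos (-β)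
  have hr := two_mul_rpow_lt_one (α := α) (by linarith) hβ
  have hp : 0 < β ^ (-α) := by positivity
  have h4 : ∀ n : ℕ, ∫ x, exp (-β * x) * D n (α * (n + 1)) x =
      β ^ (-α) * ((1 - exp (-β)) * β ^ (-α)) ^ n := by
    intro n
    rw [(hL n).2.1, mul_pow, ← Real.rpow_natCast (β ^ (-α)) n, ← Real.rpow_mul hβ0.le,
      show -(α * ((n:ℝ) + 1)) = -α + -α * n by ring, Real.rpow_add hβ0]
    ring
  simp_rw [h4]
  have hlt : (1 - exp (-β)) * β ^ (-α) < 1 := by nlinarith
  rw [tsum_mul_left, tsum_geometric_of_lt_one (by apply mul_nonneg <;> linarith) hlt]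
  have hq : 0 < β ^ α := by positivity
  have hpq : β ^ (-α) = (β ^ α)⁻¹ := Real.rpow_neg hβ0.le α
  rw [hpq] at hlt ⊢
  have h5 : 1 - exp (-β) < β ^ α := by
    rwa [← div_eq_mul_inv, div_lt_one hq] at hlt
  have h6 : β ^ α + (exp (-β) - 1) ≠ 0 := by linarith
  have h7 : β ^ α - (1 - exp (-β)) ≠ 0 := by linarith
  field_simp
  ring

end Pool.Agent.H551Z.Doney
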