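import Pool.Agent.H551Z.DoneyB

set_option autoImplicit false

open Real MeasureTheory Set Filter Topology

namespace Pool.Agent.H551Z.Doney

lemma em_nonneg (t : ℝ) : 0 ≤ exp (-t) - 1 + t := by
  have := Real.add_one_le_exp (-t); linarith

lemma em_le_sq {t : ℝ} (ht : 0 ≤ t) : exp (-t) - 1 + t ≤ t ^ 2 := by
  have h1 : exp (-t) * (1 + t) ≤ 1 := by
    have h := Real.add_one_le_exp t
    have h2 : exp (-t) * exp t = 1 := by rw [← Real.exp_add]; simp
    nlinarith [exp_pos (-t)]
  have h2 : exp (-t) * (1 + t) ≤ (1 - t + t ^ 2) * (1 + t) := by nlinarith [pow_nonneg ht 3]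
  have h3 := le_of_mul_le_mul_right h2 (by linarith)
  linarith

lemma em_le {t : ℝ} (ht : 0 ≤ t) : exp (-t) - 1 + t ≤ t := by
  have : exp (-t) ≤ 1 := by rw [exp_le_one_iff]; linarith
  linarith

lemma integrableOn_weight {α C : ℝ} (h1 : 1 < α) (h2 : α < 2) {g : ℝ → ℝ} (hg : Measurable g)
    (hsq : ∀ x, 0 < x → |g x| ≤ C * x ^ 2) (hlin : ∀ x, 0 < x → |g x| ≤ C * x) :
    IntegrableOn (fun x => x ^ (-1 - α) * g x) (Ioi 0) := by
  have hm : Measurable (fun x : ℝ => x ^ (-1 - α) * g x) := (measurable_id.pow_const _).mul hg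
  rw [← Ioc_union_Ioi_eq_Ioi (zero_le_one' ℝ)]
  refine IntegrableOn.union ?_ ?_
  · rw [integrableOn_Ioc_iff_integrableOn_Ioo]
    have hI : IntegrableOn (fun x : ℝ => x ^ (1 - α)) (Ioo 0 1) :=
      (intervalIntegral.integrableOn_Ioo_rpow_iff one_pos).mpr (by linarith)
    refine Integrable.mono' (hI.const_mul C) hm.aestronglyMeasurable ?_
    refine ae_restrict_of_forall_mem measurableSet_Ioo fun x hx => ?_
    have hx0 : 0 < x := hx.1
    rw [norm_mul, norm_of_nonneg (Real.rpow_nonneg hx0.le _), Real.norm_eq_abs]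
    calc x ^ (-1 - α) * |g x| ≤ x ^ (-1 - α) * (C * x ^ 2) :=
          mul_le_mul_of_nonneg_left (hsq x hx0) (Real.rpow_nonneg hx0.le _)
      _ = C * x ^ (1 - α) := by
          rw [show (1:ℝ) - α = (-1 - α) + (2:ℕ) by push_cast; ring, Real.rpow_add hx0,
            Real.rpow_natCast]
          ring
  · have hI : IntegrableOn (fun x : ℝ => x ^ (-α)) (Ioi 1) :=
      integrableOn_Ioi_rpow_of_lt (by linarith) one_pos
    refine Integrable.mono' (hI.const_mul C) hm.aestronglyMeasurable ?_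
    refine ae_restrict_of_forall_mem measurableSet_Ioi fun x hx => ?_
    have hx0 : 0 < x := lt_trans one_pos hx
    rw [norm_mul, norm_of_nonneg (Real.rpow_nonneg hx0.le _), Real.norm_eq_abs]
    calc x ^ (-1 - α) * |g x| ≤ x ^ (-1 - α) * (C * x) :=
          mul_le_mul_of_nonneg_left (hlin x hx0) (Real.rpow_nonneg hx0.le _)
      _ = C * x ^ (-α) := by
          rw [show -α = (-1 - α) + 1 by ring, Real.rpow_add hx0, Real.rpow_one]
          ring_nf

lemma integrableOn_em {α β : ℝ} (h1 : 1 < α) (h2 : α < 2) (hβ : 0 < β) :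
    IntegrableOn (fun x => x ^ (-1 - α) * (exp (-(β * x)) - 1 + β * x)) (Ioi 0) := by
  refine integrableOn_weight (C := β ^ 2 + β) h1 h2 (by fun_prop) ?_ ?_
  · intro x hx
    rw [abs_of_nonneg (em_nonneg _)]
    have := em_le_sq (mul_pos hβ hx).le
    nlinarith [mul_pos hβ (pow_pos hx 2)]
  · intro x hx
    rw [abs_of_nonneg (em_nonneg _)]
    have := em_le (mul_pos hβ hx).le
    nlinarith [mul_pos (pow_pos hβ 2) hx]

/-- normalising constant -/
noncomputable def K (α : ℝ) : ℝ := ∫ x in Ioi (0:ℝ), x ^ (-1 - α) * (exp (-x) - 1 + x)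

lemma K_pos {α : ℝ} (h1 : 1 < α) (h2 : α < 2) : 0 < K α := by
  unfold K
  have hI := integrableOn_em h1 h2 one_pos
  simp only [one_mul] at hI
  rw [setIntegral_pos_iff_support_of_nonneg_ae ?_ hI]
  · have : Ioi (0:ℝ) ⊆ Function.support (fun x : ℝ => x ^ (-1 - α) * (exp (-x) - 1 + x)) ∩ Ioi 0 := by
      intro x hx
      refine ⟨?_, hx⟩
      have hx0 : 0 < x := hx
      have h3 := Real.add_one_lt_exp (x := -x) (by linarith)
      exact ne_of_gt (mul_pos (Real.rpow_pos_of_pos hx0 _) (by linarith))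
    refine lt_of_lt_of_le ?_ (measure_mono this)
    simp
  · refine ae_restrict_of_forall_mem measurableSet_Ioi fun x hx => ?_
    exact mul_nonneg (Real.rpow_nonneg (le_of_lt hx) _) (em_nonneg x)

lemma integral_em {α β : ℝ} (hβ : 0 < β) :
    ∫ x in Ioi (0:ℝ), x ^ (-1 - α) * (exp (-(β * x)) - 1 + β * x) = β ^ α * K α := by
  have h := integral_comp_mul_left_Ioi (fun x : ℝ => x ^ (-1 - α) * (exp (-x) - 1 + x)) 0 hβ
  simp only [mul_zero, smul_eq_mul] at h
  have h2 : ∫ x in Ioi (0:ℝ), (β * x) ^ (-1 - α) * (exp (-(β * x)) - 1 + β * x) =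
      β ^ (-1 - α) * ∫ x in Ioi (0:ℝ), x ^ (-1 - α) * (exp (-(β * x)) - 1 + β * x) := by
    rw [← integral_const_mul]
    refine setIntegral_congr_fun measurableSet_Ioi fun x hx => ?_
    rw [Real.mul_rpow hβ.le (le_of_lt hx)]; ring
  rw [h2] at h
  have h3 : β ^ α * β * β ^ (-1 - α) = 1 := by
    rw [← Real.rpow_add_one hβ.ne', ← Real.rpow_add hβ, show α + 1 + (-1 - α) = 0 by ring,
      Real.rpow_zero]
  unfold K
  calc _ = (β ^ α * β * β ^ (-1 - α)) *
        ∫ x in Ioi (0:ℝ), x ^ (-1 - α) * (exp (-(β * x)) - 1 + β * x) := by rw [h3, one_mul]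
    _ = β ^ α * β * (β ^ (-1 - α) *
        ∫ x in Ioi (0:ℝ), x ^ (-1 - α) * (exp (-(β * x)) - 1 + β * x)) := by ring
    _ = _ := by rw [h]; field_simp

/-- the stable Lévy measure, on the positive half-line -/
noncomputable def mu0 (α : ℝ) : Measure ℝ :=
  (volume.restrict (Ioi (0:ℝ))).withDensity (fun x => ENNReal.ofReal ((K α)⁻¹ * x ^ (-1 - α)))

/-- the Lévy measure: stable part plus a unit atom at `-1` -/
noncomputable def nu (α : ℝ) : Measure ℝ := (mu0 α).map Neg.neg + Measure.dirac (-1)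

lemma meas_dens (α : ℝ) : Measurable (fun x : ℝ => ENNReal.ofReal ((K α)⁻¹ * x ^ (-1 - α))) :=
  ((measurable_id.pow_const _).const_mul _).ennreal_ofReal

lemma dens_ae {α : ℝ} (h1 : 1 < α) (h2 : α < 2) (g : ℝ → ℝ) :
    (fun x => (ENNReal.ofReal ((K α)⁻¹ * x ^ (-1 - α))).toReal • g x) =ᵐ[volume.restrict (Ioi 0)]
      fun x => (K α)⁻¹ * (x ^ (-1 - α) * g x) := by
  refine ae_restrict_of_forall_mem measurableSet_Ioi fun x hx => ?_
  simp only
  rw [ENNReal.toReal_ofReal (mul_nonneg (inv_pos.mpr (K_pos h1 h2)).le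
    (Real.rpow_nonneg (le_of_lt hx) _)), smul_eq_mul, mul_assoc]

lemma integral_mu0 {α : ℝ} (h1 : 1 < α) (h2 : α < 2) (g : ℝ → ℝ) :
    ∫ x, g x ∂(mu0 α) = (K α)⁻¹ * ∫ x in Ioi (0:ℝ), x ^ (-1 - α) * g x := by
  unfold mu0
  rw [integral_withDensity_eq_integral_toReal_smul (meas_dens α)
    (Eventually.of_forall fun _ => ENNReal.ofReal_lt_top), integral_congr_ae (dens_ae h1 h2 g),
    integral_const_mul]

lemma integrable_mu0 {α : ℝ} (h1 : 1 < α) (h2 : α < 2) (g : ℝ → ℝ) :
    Integrable g (mu0 α) ↔ IntegrableOn (fun x => x ^ (-1 - α) * g x) (Ioi 0) := by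
  unfold mu0
  rw [integrable_withDensity_iff_integrable_smul' (meas_dens α)
    (Eventually.of_forall fun _ => ENNReal.ofReal_lt_top), integrable_congr (dens_ae h1 h2 g)]
  exact integrable_const_mul_iff (IsUnit.mk0 _ (inv_pos.mpr (K_pos h1 h2)).ne') _

lemma nu_Ici (α : ℝ) : nu α (Ici 0) = 0 := by
  unfold nu
  rw [Measure.add_apply, Measure.map_apply measurable_neg measurableSet_Ici,
    Measure.dirac_apply' _ measurableSet_Ici]
  have h1 : mu0 α (Neg.neg ⁻¹' Ici (0:ℝ)) = 0 := by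
    unfold mu0
    refine withDensity_absolutelyContinuous _ _ ?_
    rw [Measure.restrict_apply (measurable_neg measurableSet_Ici)]
    have : (Neg.neg ⁻¹' Ici (0:ℝ)) ∩ Ioi 0 = ∅ := by
      ext x
      simp only [mem_inter_iff, mem_preimage, mem_Ici, mem_Ioi, mem_empty_iff_false, iff_false]
      rintro ⟨a, b⟩; linarith
    rw [this]; simp
  rw [h1, indicator_of_notMem (by simp)]
  simp

lemma integrable_nu {α : ℝ} (h1 : 1 < α) (h2 : α < 2) {g : ℝ → ℝ} (hg : Measurable g)
    (h : IntegrableOn (fun x => x ^ (-1 - α) * g (-x)) (Ioi 0)) : Integrable g (nu α) := by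
  unfold nu
  refine Integrable.add_measure ?_ (integrable_dirac (by simp))
  rw [integrable_map_measure hg.aestronglyMeasurable measurable_neg.aemeasurable]
  exact (integrable_mu0 h1 h2 _).mpr h

lemma integral_nu {α : ℝ} (h1 : 1 < α) (h2 : α < 2) {g : ℝ → ℝ} (hg : Measurable g)
    (h : IntegrableOn (fun x => x ^ (-1 - α) * g (-x)) (Ioi 0)) :
    ∫ x, g x ∂(nu α) = (K α)⁻¹ * (∫ x in Ioi (0:ℝ), x ^ (-1 - α) * g (-x)) + g (-1) := by
  unfold nu
  rw [integral_add_measure ?_ (integrable_dirac (by simp)), integral_dirac,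
    integral_map measurable_neg.aemeasurable hg.aestronglyMeasurable, integral_mu0 h1 h2]
  rw [integrable_map_measure hg.aestronglyMeasurable measurable_neg.aemeasurable]
  exact (integrable_mu0 h1 h2 _).mpr h

lemma integrable_min_nu {α : ℝ} (h1 : 1 < α) (h2 : α < 2) :
    Integrable (fun x : ℝ => min 1 (x ^ 2)) (nu α) := by
  refine integrable_nu h1 h2 (by fun_prop) ?_
  refine integrableOn_weight (C := 1) h1 h2 (by fun_prop) ?_ ?_
  · intro x _
    rw [abs_of_nonneg (le_min zero_le_one (sq_nonneg _)), one_mul, neg_sq]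
    exact min_le_right _ _
  · intro x hx
    rw [abs_of_nonneg (le_min zero_le_one (sq_nonneg _)), one_mul, neg_sq]
    rcases le_total x 1 with h | h
    · exact (min_le_right _ _).trans (by nlinarith)
    · exact (min_le_left _ _).trans h

lemma lintegral_min_nu {α : ℝ} (h1 : 1 < α) (h2 : α < 2) :
    (∫⁻ x, ENNReal.ofReal (min 1 (x ^ 2)) ∂(nu α)) < ⊤ :=
  (integrable_min_nu h1 h2).lintegral_lt_top

lemma lintegral_abs_nu {α : ℝ} (h1 : 1 < α) (h2 : α < 2) :
    (∫⁻ x in Ioo (-1 : ℝ) 0, ENNReal.ofReal |x| ∂(nu α)) = ⊤ := by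
  by_contra hne
  have hI : IntegrableOn (fun x : ℝ => |x|) (Ioo (-1) 0) (nu α) := by
    refine ⟨(by fun_prop : Measurable fun x : ℝ => |x|).aestronglyMeasurable, ?_⟩
    rw [hasFiniteIntegral_iff_ofReal (Eventually.of_forall fun x => abs_nonneg x)]
    exact lt_top_iff_ne_top.mpr hne
  rw [← integrable_indicator_iff measurableSet_Ioo] at hI
  have hI2 : Integrable ((Ioo (-1:ℝ) 0).indicator fun x : ℝ => |x|) ((mu0 α).map Neg.neg) :=
    hI.mono_measure (Measure.le_add_right le_rfl)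
  have hI3 := (integrable_map_measure hI2.aestronglyMeasurable measurable_neg.aemeasurable).mp hI2
  rw [integrable_mu0 h1 h2] at hI3
  have hI4 : IntegrableOn (fun x : ℝ => x ^ (-α)) (Ioo 0 1) := by
    refine (hI3.mono_set (Ioo_subset_Ioi_self : Ioo (0:ℝ) 1 ⊆ Ioi 0)).congr_fun ?_ measurableSet_Ioo
    intro x hx
    have hx0 : 0 < x := hx.1
    simp only [Function.comp]
    rw [indicator_of_mem (by constructor <;> linarith [hx.2]), abs_neg, abs_of_pos hx0,
      ← Real.rpow_add_one hx0.ne']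
    congr 1; ring
  rw [intervalIntegral.integrableOn_Ioo_rpow_iff one_pos] at hI4
  linarith

/-- the drift -/
noncomputable def gam (α : ℝ) : ℝ :=
  (K α)⁻¹ * ∫ x in Ioi (0:ℝ), x ^ (-1 - α) * (if x < 1 then 0 else x)

lemma psi_eq {α β : ℝ} (h1 : 1 < α) (h2 : α < 2) (hβ : 0 < β) :
    gam α * β + ∫ x, (exp (β * x) - 1 - (if -1 < x then β * x else 0)) ∂(nu α) =
      β ^ α + (exp (-β) - 1) := by
  have hK := K_pos h1 h2
  have hm : Measurable (fun x : ℝ => exp (β * x) - 1 - (if -1 < x then β * x else 0)) := by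
    refine Measurable.sub (by fun_prop) ?_
    exact Measurable.ite measurableSet_Ioi (by fun_prop) measurable_const
  have hJ : IntegrableOn (fun x : ℝ => x ^ (-1 - α) * (if x < 1 then 0 else x)) (Ioi 0) := by
    refine integrableOn_weight (C := 1) h1 h2
      (Measurable.ite measurableSet_Iio measurable_const measurable_id) ?_ ?_
    · intro x hx
      split_ifs with h
      · simp; positivity
      · rw [abs_of_pos hx]; nlinarith [not_lt.mp h]
    · intro x hx
      split_ifs with h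
      · simp; exact hx.le
      · rw [abs_of_pos hx, one_mul]
  have hE := integrableOn_em h1 h2 hβ
  have heq : (fun x : ℝ => x ^ (-1 - α) *
      (exp (β * -x) - 1 - (if -1 < -x then β * -x else 0))) =
      fun x => x ^ (-1 - α) * (exp (-(β * x)) - 1 + β * x) -
        β * (x ^ (-1 - α) * (if x < 1 then 0 else x)) := by
    funext x
    rw [mul_neg β x]
    by_cases h : x < 1
    · rw [if_pos h, if_pos (by linarith)]; ring
    · rw [if_neg h, if_neg (by linarith)]; ring
  rw [integral_nu h1 h2 hm (by rw [heq]; exact hE.sub (hJ.const_mul β)), heq,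
    integral_sub hE (hJ.const_mul β), integral_em hβ, integral_const_mul]
  unfold gam
  rw [if_neg (lt_irrefl _), mul_neg, mul_one]
  field_simp
  ring

lemma nu_Iio_ne_top {α : ℝ} (h1 : 1 < α) (h2 : α < 2) {y : ℝ} (hy : 1 / 2 < y) :
    nu α (Iio (-y)) ≠ ⊤ := by
  have h := (integrable_min_nu h1 h2).measure_norm_ge_lt_top (ε := 1 / 4) (by norm_num)
  refine ne_top_of_le_ne_top h.ne (measure_mono fun x hx => ?_)
  have hx' : x < -y := hx
  show 1 / 4 ≤ ‖min 1 (x ^ 2)‖
  rw [norm_of_nonneg (le_min zero_le_one (sq_nonneg _))]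
  exact le_min (by norm_num) (by nlinarith)

lemma tail_jump {α : ℝ} (h1 : 1 < α) (h2 : α < 2) {y : ℝ} (hy : 1 / 2 < y) (hy1 : y < 1) :
    (nu α (Iio (-1))).toReal + 1 ≤ (nu α (Iio (-y))).toReal := by
  have hf := nu_Iio_ne_top h1 h2 hy
  have hf1 := nu_Iio_ne_top h1 h2 (y := 1) (by norm_num)
  have hle : nu α (Iio (-1)) + 1 ≤ nu α (Iio (-y)) := by
    unfold nu
    rw [Measure.add_apply, Measure.add_apply, Measure.dirac_apply' _ measurableSet_Iio,
      Measure.dirac_apply' _ measurableSet_Iio, indicator_of_notMem (by simp),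
      indicator_of_mem (by simp only [mem_Iio]; linarith)]
    simp only [add_zero, Pi.one_apply]
    gcongr
  have := ENNReal.toReal_mono hf hle
  rwa [ENNReal.toReal_add hf1 ENNReal.one_ne_top, ENNReal.toReal_one] at this

lemma tail_not_continuousOn {α : ℝ} (h1 : 1 < α) (h2 : α < 2) :
    ¬ ContinuousOn (fun y : ℝ => (nu α (Iio (-y))).toReal) (Ioi 0) := by
  intro h
  have hc : ContinuousAt (fun y : ℝ => (nu α (Iio (-y))).toReal) 1 :=
    h.continuousAt (Ioi_mem_nhds one_pos)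
  have ht : Tendsto (fun y : ℝ => (nu α (Iio (-y))).toReal) (𝓝[<] 1)
      (𝓝 ((nu α (Iio (-1))).toReal)) := hc.tendsto.mono_left nhdsWithin_le_nhds
  have hge : (nu α (Iio (-1))).toReal + 1 ≤ (nu α (Iio (-1))).toReal := by
    refine ge_of_tendsto ht ?_
    filter_upwards [Ioo_mem_nhdsLT (show (1/2:ℝ) < 1 by norm_num)] with y hy
    exact tail_jump h1 h2 hy.1 hy.2
  linarith

end Pool.Agent.H551Z.Doney
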