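import Mathlib

/-! Word combinatorics in the free group on two generators and an absorption lemma. -/

set_option autoImplicit false

namespace Pool.Agent.H551Z.ND

open FreeGroup

/-- The free group on two generators. -/
abbrev G := FreeGroup (Fin 2)

/-- Letters. -/
abbrev Lt := Fin 2 × Bool

/-- The group element of a letter. -/
def lt (l : Lt) : G := FreeGroup.mk [l]

/-- The inverse letter. -/
def nl (l : Lt) : Lt := (l.1, !l.2)

/-- First letter of the reduced word. -/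
def hd (g : G) : Option Lt := g.toWord.head?

@[simp] theorem nl_nl (l : Lt) : nl (nl l) = l := by simp [nl]

theorem nl_ne (l : Lt) : nl l ≠ l := by
  obtain ⟨i, b⟩ := l
  cases b <;> simp [nl]

theorem nl_inj {l m : Lt} (h : nl l = nl m) : l = m := by
  have := congrArg nl h
  simpa using this

theorem lt_nl (l : Lt) : lt (nl l) = (lt l)⁻¹ := by
  unfold lt nl
  rw [inv_mk]; rfl

theorem lt_true (i : Fin 2) : lt (i, true) = of i := rfl

theorem toWord_lt (l : Lt) : (lt l).toWord = [l] := by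
  unfold lt
  rw [toWord_mk, reduce_singleton]

theorem toWord_lt_mul (l : Lt) (g : G) :
    (lt l * g).toWord = if hd g = some (nl l) then g.toWord.tail else l :: g.toWord := by
  unfold hd
  rw [toWord_mul, toWord_lt, List.singleton_append, reduce.cons, reduce_toWord]
  cases h : g.toWord with
  | nil => simp
  | cons a tl =>
    obtain ⟨c, s⟩ := a
    obtain ⟨i, b⟩ := l
    simp only [List.head?_cons, List.tail_cons, Option.some.injEq, Prod.mk.injEq, nl]
    by_cases h2 : c = i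
    · subst h2
      cases s <;> cases b <;> simp
    · have h3 : ¬ i = c := fun h => h2 h.symm
      simp [h2, h3]

theorem hd_one : hd 1 = none := by simp [hd]

theorem hd_lt (l : Lt) : hd (lt l) = some l := by simp [hd, toWord_lt]

theorem lt_ne_one (l : Lt) : lt l ≠ 1 := fun h => by
  have := hd_lt l
  rw [h, hd_one] at this
  exact absurd this (by simp)

theorem ne_one_of_hd {g : G} {l : Lt} (h : hd g = some l) : g ≠ 1 := fun h1 => by
  rw [h1, hd_one] at h
  exact absurd h (by simp)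

theorem exists_hd {g : G} (h : g ≠ 1) : ∃ l, hd g = some l := by
  unfold hd
  cases hg : g.toWord with
  | nil => exact absurd (toWord_eq_nil_iff.1 hg) h
  | cons a tl => exact ⟨a, rfl⟩

theorem hd_lt_mul {l : Lt} {g : G} (h : hd g ≠ some (nl l)) : hd (lt l * g) = some l := by
  have := toWord_lt_mul l g
  rw [if_neg h] at this
  simp [hd, this]

theorem norm_lt_mul {l : Lt} {g : G} (h : hd g ≠ some (nl l)) :
    norm (lt l * g) = norm g + 1 := by
  have := toWord_lt_mul l g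
  rw [if_neg h] at this
  simp [FreeGroup.norm, this]

theorem toWord_lt_mul' {l : Lt} {g : G} (h : hd g ≠ some (nl l)) :
    (lt l * g).toWord = l :: g.toWord := by
  have := toWord_lt_mul l g
  rwa [if_neg h] at this

theorem norm_lt (l : Lt) : norm (lt l) = 1 := by simp [FreeGroup.norm, toWord_lt]

theorem norm_strip {l : Lt} {g : G} (h : hd g = some l) :
    norm ((lt l)⁻¹ * g) + 1 = norm g := by
  have h1 := toWord_lt_mul (nl l) g
  rw [nl_nl, if_pos h, lt_nl] at h1
  unfold FreeGroup.norm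
  rw [h1]
  unfold hd at h
  cases hg : g.toWord with
  | nil => rw [hg] at h; simp at h
  | cons a tl => simp

theorem hd_strip {l : Lt} {g : G} (h : hd g = some l) :
    hd ((lt l)⁻¹ * g) ≠ some (nl l) := by
  intro h2
  have h3 := norm_strip h
  have h4 := norm_strip h2
  rw [lt_nl, inv_inv, mul_inv_cancel_left] at h4
  omega

/-- Induction on reduced words, adding letters on the left. -/
theorem word_ind {P : G → Prop} (h1 : P 1)
    (hs : ∀ (l : Lt) (g : G), hd g ≠ some (nl l) → P g → P (lt l * g)) : ∀ g, P g := by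
  intro g
  induction hn : norm g generalizing g with
  | zero => rw [norm_eq_zero.1 hn]; exact h1
  | succ n ih =>
    have hg : g ≠ 1 := fun h => by rw [h, FreeGroup.norm_one] at hn; omega
    obtain ⟨l, hl⟩ := exists_hd hg
    have h2 := norm_strip hl
    have h3 := hs l _ (hd_strip hl) (ih _ (by omega))
    rwa [mul_inv_cancel_left] at h3

theorem hd_of_lt_mul {s l : Lt} {y : G} (h : hd (lt s * y) = some l) (hne : l ≠ s) :
    hd y = some (nl s) := by
  by_contra hc
  rw [hd_lt_mul hc] at h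
  exact hne (Option.some.inj h).symm

theorem cone_dich : ∀ (w : G) (l : Lt), hd w ≠ some l →
    ∃ m, ∀ y, hd (w * y) = some l → hd y = some m := by
  refine word_ind ?_ ?_
  · intro l _
    exact ⟨l, fun y hy => by simpa using hy⟩
  · intro s w hw ih l hl
    obtain ⟨m, hm⟩ := ih (nl s) hw
    refine ⟨m, fun y hy => hm y ?_⟩
    rw [mul_assoc] at hy
    refine hd_of_lt_mul hy ?_
    rintro rfl
    exact hl (hd_lt_mul hw)

theorem norm_out : ∀ (w : G) (l : Lt), hd w ≠ some l → ∀ y, hd y = some l →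
    norm (w⁻¹ * y) = norm w + norm y := by
  refine word_ind ?_ ?_
  · intro l _ y _
    simp
  · intro s w hw ih l hl y hy
    have hls : l ≠ s := by
      rintro rfl
      exact hl (hd_lt_mul hw)
    have h1 : hd y ≠ some (nl (nl s)) := by
      rw [nl_nl, hy]
      exact fun h => hls (Option.some.inj h)
    have h2 := ih (nl s) hw (lt (nl s) * y) (hd_lt_mul h1)
    rw [norm_lt_mul h1] at h2
    rw [norm_lt_mul hw, mul_inv_rev, mul_assoc, ← lt_nl, h2]
    omega

theorem special_root {w : G} {l s : Lt} (h1 : hd w ≠ some l) (h2 : hd (w * lt s) = some l) :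
    w = 1 ∧ l = s := by
  have h3 := norm_out w l h1 _ h2
  rw [inv_mul_cancel_left, norm_lt] at h3
  have h4 : norm (w * lt s) ≠ 0 := fun h => ne_one_of_hd h2 (norm_eq_zero.1 h)
  have h5 : w = 1 := norm_eq_zero.1 (by omega)
  refine ⟨h5, ?_⟩
  rw [h5, one_mul, hd_lt] at h2
  exact (Option.some.inj h2).symm

/-- The cone of words with first letter m. -/
def cone (m : Lt) : Set G := {y | hd y = some m}

theorem cone_disj {l m : Lt} (h : l ≠ m) : Disjoint (cone l) (cone m) := by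
  rw [Set.disjoint_left]
  intro y h1 h2
  apply h
  have h3 : hd y = some l := h1
  have h4 : hd y = some m := h2
  rw [h3] at h4
  exact Option.some.inj h4

section Absorb

variable {I : Type}

/-- Admissible families: pairwise disjoint regions. -/
def Adm (Hs : I → Set G) (s : Finset I) : Prop :=
  (s : Set I).Pairwise fun i j => Disjoint (Hs i) (Hs j)

theorem Adm.mono {Hs : I → Set G} {s t : Finset I} (h : Adm Hs t) (hst : s ⊆ t) : Adm Hs s :=
  Set.Pairwise.mono (by exact_mod_cast hst) h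

theorem adm_single (Hs : I → Set G) (i : I) : Adm Hs {i} := by
  simp [Adm]

theorem absorb {P : Finset I → Prop} {Q : Finset I → ℝ} (h0 : P ∅) {c θ : ℝ} (hθ : θ < 1)
    (hb : ∃ M, ∀ s, P s → Q s ≤ M)
    (hstep : ∀ M, (∀ s, P s → Q s ≤ M) → ∀ s, P s → Q s ≤ c + θ * M) :
    ∀ s, P s → (1 - θ) * Q s ≤ c := by
  obtain ⟨M0, hM0⟩ := hb
  set S : Set ℝ := {x | ∃ s, P s ∧ Q s = x} with hS
  have hbdd : BddAbove S := ⟨M0, by rintro x ⟨s, hs, rfl⟩; exact hM0 s hs⟩
  have hne : S.Nonempty := ⟨Q ∅, ∅, h0, rfl⟩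
  have h1 : ∀ s, P s → Q s ≤ sSup S := fun s hs => le_csSup hbdd ⟨s, hs, rfl⟩
  have h2 : sSup S ≤ c + θ * sSup S :=
    csSup_le hne (by rintro x ⟨s, hs, rfl⟩; exact hstep _ h1 s hs)
  intro s hs
  have h3 := h1 s hs
  nlinarith

theorem root_sum {Hs : I → Set G} {s : Finset I} (hs : Adm Hs s) {F : I → ℝ} {T : ℝ}
    (hF : ∀ i, 0 ≤ F i) (hT : ∀ i ∈ s, (1 : G) ∈ Hs i → F i ≤ T)
    [DecidablePred fun i => (1 : G) ∈ Hs i] :
    ∑ i ∈ s.filter (fun i => (1 : G) ∈ Hs i), F i ^ 2 ≤ T ^ 2 := by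
  rcases (s.filter (fun i => (1 : G) ∈ Hs i)).eq_empty_or_nonempty with h | ⟨i, hi⟩
  · rw [h]; simp; positivity
  · have h1 : s.filter (fun i => (1 : G) ∈ Hs i) = {i} := by
      refine Finset.eq_singleton_iff_unique_mem.2 ⟨hi, fun j hj => ?_⟩
      by_contra hne
      rw [Finset.mem_filter] at hi hj
      exact Set.disjoint_left.1 (hs hj.1 hi.1 hne) hj.2 hi.2
    rw [h1, Finset.sum_singleton]
    rw [Finset.mem_filter] at hi
    have := hT i hi.1 hi.2
    have := hF i
    gcongr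

variable (Hs : I → Set G) (f : Fin 2 → I → I) (hinj : ∀ t, Function.Injective (f t))
  (hf : ∀ t i y, y ∈ Hs (f t i) ↔ lt (t, true) * y ∈ Hs i)

include hf in
theorem img_cone {t : Fin 2} {i : I} {m : Lt} (h : Hs i ⊆ cone m) (hm : m ≠ (t, true)) :
    Hs (f t i) ⊆ cone (t, false) := by
  intro y hy
  exact hd_of_lt_mul (h ((hf t i y).1 hy)) hm

include hf in
theorem img_adm {t : Fin 2} {s : Finset I} (hs : Adm Hs s) : Adm Hs (s.map ⟨f t, hinj t⟩) := by
  intro i hi j hj hij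
  simp only [Finset.coe_map, Function.Embedding.coeFn_mk, Set.mem_image, Finset.mem_coe] at hi hj
  obtain ⟨i', hi', rfl⟩ := hi
  obtain ⟨j', hj', rfl⟩ := hj
  have h1 : Disjoint (Hs i') (Hs j') := hs hi' hj' (fun h => hij (by rw [h]))
  rw [Set.disjoint_left] at h1 ⊢
  intro y hy hy'
  exact h1 ((hf _ _ _).1 hy) ((hf _ _ _).1 hy')

/-- Regions inside the cone of an inverse generator. -/
def Neg (i : I) : Prop := ∃ t : Fin 2, Hs i ⊆ cone (t, false)

variable (hne : ∀ i, (Hs i).Nonempty) (F h : I → ℝ) (hF0 : ∀ i, 0 ≤ F i) (hh0 : ∀ i, 0 ≤ h i)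
  (hrec : ∀ i, F i ≤ h i + 5 / 8 * F (f 0 i) + 5 / 8 * F (f 1 i)) (n : ℝ)
  (hh : ∀ s, Adm Hs s → ∑ i ∈ s, h i ^ 2 ≤ n ^ 2)
  (hb : ∃ M, ∀ s, Adm Hs s → ∑ i ∈ s, F i ^ 2 ≤ M)

include hinj hf hne hF0 hh0 hrec hh hb in
theorem neg_bound : ∀ s, Adm Hs s → (∀ i ∈ s, Neg Hs i) → ∑ i ∈ s, F i ^ 2 ≤ 80 * n ^ 2 := by
  classical
  have key := absorb (P := fun s => Adm Hs s ∧ ∀ i ∈ s, Neg Hs i)
    (Q := fun s => ∑ i ∈ s, F i ^ 2) ⟨by simp [Adm], by simp⟩ (c := 11 * n ^ 2) (θ := 0.86)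
    (by norm_num) (by obtain ⟨M, hM⟩ := hb; exact ⟨M, fun s hs => hM s hs.1⟩) ?_
  · intro s hs hn
    have := key s ⟨hs, hn⟩
    have h2 := sq_nonneg n
    nlinarith
  intro M hM s hs
  have hc : ∀ t : Fin 2, ∀ j ∈ s.map ⟨f t, hinj t⟩, Hs j ⊆ cone (t, false) := by
    intro t j hj
    rw [Finset.mem_map] at hj
    obtain ⟨i, hi, rfl⟩ := hj
    obtain ⟨t', ht'⟩ := hs.2 i hi
    exact img_cone Hs f hf ht' (by simp)
  have hd01 : Disjoint (cone ((0 : Fin 2), false)) (cone ((1 : Fin 2), false)) :=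
    cone_disj (by simp)
  have hdis : Disjoint (s.map ⟨f 0, hinj 0⟩) (s.map ⟨f 1, hinj 1⟩) := by
    rw [Finset.disjoint_left]
    intro j h0 h1
    obtain ⟨y, hy⟩ := hne j
    exact Set.disjoint_left.1 hd01 (hc 0 j h0 hy) (hc 1 j h1 hy)
  have hU := hM (s.map ⟨f 0, hinj 0⟩ ∪ s.map ⟨f 1, hinj 1⟩) ⟨?_, ?_⟩
  · rw [Finset.sum_union hdis, Finset.sum_map, Finset.sum_map] at hU
    simp only [Function.Embedding.coeFn_mk] at hU
    have h1 : ∑ i ∈ s, F i ^ 2 ≤
        ∑ i ∈ s, (11 * h i ^ 2 + 0.86 * (F (f 0 i) ^ 2 + F (f 1 i) ^ 2)) := by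
      refine Finset.sum_le_sum fun i _ => ?_
      have a1 := hrec i
      have a2 := hF0 i
      have a3 := hF0 (f 0 i)
      have a4 := hF0 (f 1 i)
      have a5 := hh0 i
      have a6 : F i ^ 2 ≤ (h i + 5 / 8 * F (f 0 i) + 5 / 8 * F (f 1 i)) ^ 2 := by gcongr
      nlinarith [sq_nonneg (F (f 0 i) - F (f 1 i)),
        sq_nonneg (10 * h i - 5 / 8 * (F (f 0 i) + F (f 1 i)))]
    rw [Finset.sum_add_distrib, ← Finset.mul_sum, ← Finset.mul_sum, Finset.sum_add_distrib] at h1
    have h2 := hh s hs.1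
    nlinarith
  · intro i hi j hj hij
    simp only [Finset.coe_union, Set.mem_union, Finset.mem_coe] at hi hj
    rcases hi with hi | hi <;> rcases hj with hj | hj
    · exact img_adm Hs f hinj hf hs.1 hi hj hij
    · exact hd01.mono (hc 0 i hi) (hc 1 j hj)
    · exact hd01.symm.mono (hc 1 i hi) (hc 0 j hj)
    · exact img_adm Hs f hinj hf hs.1 hi hj hij
  · intro i hi
    rw [Finset.mem_union] at hi
    rcases hi with hi | hi
    · exact ⟨0, hc 0 i hi⟩
    · exact ⟨1, hc 1 i hi⟩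

include hinj hf hne hF0 hh0 hrec hh hb in
theorem pos_bound (hdich : ∀ i, (1 : G) ∉ Hs i → ∃ m, Hs i ⊆ cone m) (T : ℝ)
    (hT : ∀ t i, (1 : G) ∉ Hs i → (1 : G) ∈ Hs (f t i) → F (f t i) ≤ T) :
    ∀ s, Adm Hs s → (∀ i ∈ s, (1 : G) ∉ Hs i) →
      ∑ i ∈ s, F i ^ 2 ≤ 11200 * n ^ 2 + 7 * T ^ 2 := by
  classical
  have hneg := neg_bound Hs f hinj hf hne F h hF0 hh0 hrec n hh hb
  have key := absorb (P := fun s => Adm Hs s ∧ ∀ i ∈ s, (1 : G) ∉ Hs i)
    (Q := fun s => ∑ i ∈ s, F i ^ 2) ⟨by simp [Adm], by simp⟩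
    (c := 1564 * n ^ 2 + 0.86 * T ^ 2) (θ := 0.86)
    (by norm_num) (by obtain ⟨M, hM⟩ := hb; exact ⟨M, fun s hs => hM s hs.1⟩) ?_
  · intro s hs hn
    have := key s ⟨hs, hn⟩
    have h2 := sq_nonneg n
    have h3 := sq_nonneg T
    nlinarith
  intro M hM s hs
  have hpos : ∀ t t' : Fin 2, t ≠ t' →
      (∀ i, F i ≤ h i + 5 / 8 * F (f t i) + 5 / 8 * F (f t' i)) →
      ∑ i ∈ s.filter (fun i => Hs i ⊆ cone (t, true)), F i ^ 2 ≤
        742 * n ^ 2 + 0.43 * (M + T ^ 2) := by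
    intro t t' htt hr
    set u := s.filter (fun i => Hs i ⊆ cone (t, true)) with hu
    have hus : u ⊆ s := Finset.filter_subset _ _
    have hua : Adm Hs u := hs.1.mono hus
    have b1 : ∑ i ∈ u, F (f t' i) ^ 2 ≤ 80 * n ^ 2 := by
      have := hneg (u.map ⟨f t', hinj t'⟩) (img_adm Hs f hinj hf hua) (by
        intro j hj
        rw [Finset.mem_map] at hj
        obtain ⟨i, hi, rfl⟩ := hj
        refine ⟨t', img_cone Hs f hf (Finset.mem_filter.1 hi).2 ?_⟩
        simp [htt])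
      rwa [Finset.sum_map] at this
    have b2 : ∑ i ∈ u, F (f t i) ^ 2 ≤ M + T ^ 2 := by
      have ha := img_adm Hs f hinj hf (t := t) hua
      have e1 := Finset.sum_filter_add_sum_filter_not (u.map ⟨f t, hinj t⟩)
        (fun i => (1 : G) ∈ Hs i) (fun i => F i ^ 2)
      have e2 := root_sum ha hF0 (T := T) (by
        intro j hj h1
        rw [Finset.mem_map] at hj
        obtain ⟨i, hi, rfl⟩ := hj
        exact hT t i (hs.2 i (hus hi)) h1)
      have e3 := hM ((u.map ⟨f t, hinj t⟩).filter (fun i => ¬ (1 : G) ∈ Hs i))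
        ⟨ha.mono (Finset.filter_subset _ _), fun i hi => (Finset.mem_filter.1 hi).2⟩
      rw [Finset.sum_map] at e1
      simp only [Function.Embedding.coeFn_mk] at e1 e3
      linarith
    have h1 : ∑ i ∈ u, F i ^ 2 ≤
        ∑ i ∈ u, (22 * h i ^ 2 + 9 * F (f t' i) ^ 2 + 0.43 * F (f t i) ^ 2) := by
      refine Finset.sum_le_sum fun i _ => ?_
      have a1 := hr i
      have a2 := hF0 i
      have a3 := hF0 (f t i)
      have a4 := hF0 (f t' i)
      have a5 := hh0 i
      have a6 : F i ^ 2 ≤ (h i + 5 / 8 * F (f t i) + 5 / 8 * F (f t' i)) ^ 2 := by gcongr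
      nlinarith [sq_nonneg (h i - 5 / 8 * F (f t' i)),
        sq_nonneg (10 * (h i + 5 / 8 * F (f t' i)) - 5 / 8 * F (f t i))]
    rw [Finset.sum_add_distrib, Finset.sum_add_distrib, ← Finset.mul_sum, ← Finset.mul_sum,
      ← Finset.mul_sum] at h1
    have h2 := hh u hua
    nlinarith
  have p0 := hpos 0 1 (by simp) hrec
  have p1 := hpos 1 0 (by simp) (fun i => by have := hrec i; linarith)
  have p2 := hneg (s.filter (Neg Hs)) (hs.1.mono (Finset.filter_subset _ _))
    (fun i hi => (Finset.mem_filter.1 hi).2)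
  have hsplit : ∑ i ∈ s, F i ^ 2 ≤ ∑ i ∈ s.filter (Neg Hs), F i ^ 2 +
      ∑ i ∈ s.filter (fun i => Hs i ⊆ cone (0, true)), F i ^ 2 +
      ∑ i ∈ s.filter (fun i => Hs i ⊆ cone (1, true)), F i ^ 2 := by
    rw [Finset.sum_filter, Finset.sum_filter, Finset.sum_filter, ← Finset.sum_add_distrib,
      ← Finset.sum_add_distrib]
    refine Finset.sum_le_sum fun i hi => ?_
    obtain ⟨⟨t, b⟩, hm⟩ := hdich i (hs.2 i hi)
    have hq := sq_nonneg (F i)
    cases b
    · have : Neg Hs i := ⟨t, hm⟩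
      rw [if_pos this]
      split_ifs <;> linarith
    · fin_cases t
      · have : Hs i ⊆ cone (0, true) := hm
        rw [if_pos this]
        split_ifs <;> linarith
      · have : Hs i ⊆ cone (1, true) := hm
        rw [if_pos this]
        split_ifs <;> linarith
  linarith

end Absorb

end Pool.Agent.H551Z.ND
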