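import Mathlib
import Pool.Agent.H551Z.NDA

/-! Representations of the free group attached to letter operators, and the main estimate. -/

set_option autoImplicit false

namespace Pool.Agent.H551Z.ND

open FreeGroup

variable {V : Type} [AddCommGroup V] [Module ℂ V] (S : Lt → V →ₗ[ℂ] V)

/-- The action of a letter on vector valued functions. -/
noncomputable def R (l : Lt) : Module.End ℂ (G → V) where
  toFun φ := fun y =>
    if y = lt l then φ 1 - S (nl l) (φ (lt l)⁻¹)
    else if y = 1 then φ (lt l)⁻¹ + S l (φ 1 - S (nl l) (φ (lt l)⁻¹))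
    else φ ((lt l)⁻¹ * y)
  map_add' φ ψ := by
    funext y
    simp only [Pi.add_apply, map_add, map_sub]
    split_ifs <;> abel
  map_smul' c φ := by
    funext y
    simp only [Pi.smul_apply, map_smul, map_sub, RingHom.id_apply]
    split_ifs <;> simp [smul_sub, smul_add]

theorem R_lt (l : Lt) (φ : G → V) : R S l φ (lt l) = φ 1 - S (nl l) (φ (lt l)⁻¹) := by
  simp [R]

theorem R_one (l : Lt) (φ : G → V) :
    R S l φ 1 = φ (lt l)⁻¹ + S l (φ 1 - S (nl l) (φ (lt l)⁻¹)) := by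
  simp [R, (lt_ne_one l).symm]

theorem R_other (l : Lt) (φ : G → V) {y : G} (h1 : y ≠ lt l) (h2 : y ≠ 1) :
    R S l φ y = φ ((lt l)⁻¹ * y) := by
  simp [R, h1, h2]

theorem R_R (l : Lt) : R S l * R S (nl l) = 1 := by
  ext φ y
  have e1 : R S (nl l) φ (lt l)⁻¹ = φ 1 - S l (φ (lt l)) := by
    rw [← lt_nl, R_lt, nl_nl, lt_nl, inv_inv]
  have e2 : R S (nl l) φ 1 = φ (lt l) + S (nl l) (φ 1 - S l (φ (lt l))) := by
    rw [R_one, nl_nl, lt_nl, inv_inv]
  simp only [Module.End.mul_apply, Module.End.one_apply]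
  by_cases h1 : y = lt l
  · rw [h1, R_lt, e1, e2]; abel
  · by_cases h2 : y = 1
    · rw [h2, R_one, e1, e2]; simp
    · rw [R_other S l _ h1 h2, R_other, lt_nl, inv_inv, mul_inv_cancel_left]
      · rw [lt_nl]
        intro h
        exact h2 (by simpa using h)
      · intro h
        exact h1 (by rw [inv_mul_eq_one] at h; exact h.symm)

/-- The unit attached to a generator. -/
noncomputable def RU (i : Fin 2) : (Module.End ℂ (G → V))ˣ :=
  ⟨R S (i, true), R S (i, false), R_R S (i, true), R_R S (i, false)⟩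

/-- The representation. -/
noncomputable def rep : G →* Module.End ℂ (G → V) :=
  (Units.coeHom _).comp (FreeGroup.lift (RU S))

theorem rep_lt (l : Lt) : rep S (lt l) = R S l := by
  obtain ⟨i, b⟩ := l
  cases b
  · have : lt (i, false) = (of i)⁻¹ := lt_nl (i, true)
    rw [this]
    simp [rep, RU]
  · rw [lt_true]
    simp [rep, RU]

theorem rep_mul_apply (g h : G) (φ : G → V) : rep S (g * h) φ = rep S g (rep S h φ) := by
  rw [_root_.map_mul]; rfl

theorem rep_out : ∀ (w : G) (l : Lt), hd w ≠ some l → ∀ y, hd y = some l →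
    ∀ φ : G → V, rep S w φ y = φ (w⁻¹ * y) := by
  refine word_ind ?_ ?_
  · intro l _ y _ φ
    simp
  · intro s w hw ih l hl y hy φ
    have hls : l ≠ s := by
      rintro rfl
      exact hl (hd_lt_mul hw)
    have h1 : hd y ≠ some (nl (nl s)) := by
      rw [nl_nl, hy]
      exact fun h => hls (Option.some.inj h)
    have h2 := ih (nl s) hw (lt (nl s) * y) (hd_lt_mul h1) φ
    rw [rep_mul_apply, rep_lt, R_other S s _ _ (ne_one_of_hd hy), ← lt_nl, h2, mul_inv_rev,
      mul_assoc, lt_nl]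
    rintro rfl
    rw [hd_lt] at hy
    exact hls (Option.some.inj hy).symm

/-- Total sum seen from a vertex. -/
noncomputable def Tot (φ : G → V) (c : G) : V := rep S c⁻¹ φ 1

/-- Sum over a half space seen from its root. -/
noncomputable def Dd (φ : G → V) (x : G) (l : Lt) : V := rep S x⁻¹ φ (lt l)

theorem Tot_one (φ : G → V) : Tot S φ 1 = φ 1 := by simp [Tot]

theorem Dd_one (φ : G → V) (l : Lt) : Dd S φ 1 l = φ (lt l) := by simp [Dd]

theorem Dd_back (φ : G → V) (x : G) (l : Lt) :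
    Dd S φ (x * lt l) (nl l) = Tot S φ x - S l (Dd S φ x l) := by
  unfold Dd Tot
  rw [mul_inv_rev, rep_mul_apply, ← lt_nl, rep_lt, R_lt, nl_nl, lt_nl, inv_inv]

theorem Tot_step (φ : G → V) (x : G) (l : Lt) :
    Tot S φ (x * lt l) = Dd S φ x l + S (nl l) (Dd S φ (x * lt l) (nl l)) := by
  rw [Dd_back]
  unfold Dd Tot
  rw [mul_inv_rev, rep_mul_apply, ← lt_nl, rep_lt, R_one, nl_nl, lt_nl, inv_inv]

theorem Dd_out (φ : G → V) {x : G} {l : Lt} (h : hd x⁻¹ ≠ some l) :
    Dd S φ x l = φ (x * lt l) := by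
  unfold Dd
  rw [rep_out S _ l h _ (hd_lt l), inv_inv]

/-- Product of the letter operators along the reduced word. -/
noncomputable def SS (g : G) : Module.End ℂ V := (g.toWord.map S).prod

theorem SS_lt_mul {l : Lt} {g : G} (h : hd g ≠ some (nl l)) (v : V) :
    SS S (lt l * g) v = S l (SS S g v) := by
  unfold SS
  rw [toWord_lt_mul' h]
  simp

theorem SS_lt (l : Lt) (v : V) : SS S (lt l) v = S l v := by
  simp [SS, toWord_lt]

/-- Probes: a half space with a base point inside. -/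
structure Pr where
  /-- outer end of the edge -/
  x : G
  /-- direction of the edge -/
  l : Lt
  /-- base point -/
  c : G
  /-- the base point lies in the half space -/
  h : hd (x⁻¹ * c) = some l

/-- The half space of a probe. -/
def Hs (i : Pr) : Set G := {y | hd (i.x⁻¹ * y) = some i.l}

/-- Translation of probes. -/
def act (g : G) (i : Pr) : Pr := ⟨g * i.x, i.l, g * i.c, by simpa [mul_assoc] using i.h⟩

theorem act_inj (g : G) : Function.Injective (act g) := by
  rintro ⟨x, l, c, h⟩ ⟨x', l', c', h'⟩ e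
  simp only [act, Pr.mk.injEq, mul_right_inj] at e
  obtain ⟨rfl, rfl, rfl⟩ := e
  rfl

theorem mem_Hs_act (g : G) (i : Pr) (y : G) : y ∈ Hs (act g⁻¹ i) ↔ g * y ∈ Hs i := by
  simp [Hs, act, mul_assoc]

theorem Hs_ne (i : Pr) : (Hs i).Nonempty := ⟨i.c, i.h⟩

theorem one_mem_Hs (i : Pr) : (1 : G) ∈ Hs i ↔ hd i.x⁻¹ = some i.l := by simp [Hs]

/-- The edge probe. -/
def edge (x : G) (l : Lt) : Pr := ⟨x, l, x * lt l, by simp [hd_lt]⟩

/-- The value of a probe. -/
noncomputable def Lp (φ : G → V) (i : Pr) : V :=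
  Tot S φ i.c - SS S (i.c⁻¹ * i.x) (Dd S φ (i.x * lt i.l) (nl i.l))

theorem Lp_edge (φ : G → V) (x : G) (l : Lt) : Lp S φ (edge x l) = Dd S φ x l := by
  simp only [Lp, edge]
  rw [mul_inv_rev, inv_mul_cancel_right, ← lt_nl, SS_lt, Tot_step]
  abel

theorem Lp_add (φ ψ : G → V) (i : Pr) : Lp S (φ + ψ) i = Lp S φ i + Lp S ψ i := by
  simp only [Lp, Tot, Dd, map_add, Pi.add_apply]
  abel

theorem Lp_smul (a : ℂ) (φ : G → V) (i : Pr) : Lp S (a • φ) i = a • Lp S φ i := by
  simp only [Lp, Tot, Dd, map_smul, Pi.smul_apply, smul_sub]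

theorem Lp_zero (i : Pr) : Lp S (0 : G → V) i = 0 := by
  simp [Lp, Tot, Dd]

theorem Tot_rep (g : G) (φ : G → V) (c : G) : Tot S (rep S g φ) c = Tot S φ (g⁻¹ * c) := by
  unfold Tot
  rw [← rep_mul_apply, mul_inv_rev, inv_inv]

theorem Lp_rep (g : G) (φ : G → V) (i : Pr) : Lp S (rep S g φ) i = Lp S φ (act g⁻¹ i) := by
  simp only [Lp, Tot, Dd, act, ← rep_mul_apply, mul_inv_rev, inv_inv, mul_assoc,
    mul_inv_cancel_left]

variable (p : Seminorm ℂ V)

/-- Square sum bound over admissible families of probes. -/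
def Bd (φ : G → V) (M : ℝ) : Prop :=
  ∀ s : Finset Pr, Adm Hs s → ∑ i ∈ s, p (Lp S φ i) ^ 2 ≤ M ^ 2

theorem Bd.mono {φ : G → V} {M M' : ℝ} (h : Bd S p φ M) (h0 : 0 ≤ M) (hM : M ≤ M') :
    Bd S p φ M' := fun s hs => (h s hs).trans (by gcongr)

theorem Bd.single {φ : G → V} {M : ℝ} (h : Bd S p φ M) (h0 : 0 ≤ M) (i : Pr) :
    p (Lp S φ i) ≤ M := by
  have := h {i} (adm_single _ _)
  rw [Finset.sum_singleton] at this
  exact (abs_le_of_sq_le_sq' this h0).2

theorem Bd.dd {φ : G → V} {M : ℝ} (h : Bd S p φ M) (h0 : 0 ≤ M) (x : G) (l : Lt) :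
    p (Dd S φ x l) ≤ M := by
  rw [← Lp_edge]; exact h.single S p h0 _

theorem Bd.zero : Bd S p (0 : G → V) 0 := by
  intro s _
  simp [Lp_zero]

theorem Bd.add {φ ψ : G → V} {M M' : ℝ} (h : Bd S p φ M) (h' : Bd S p ψ M') (h0 : 0 ≤ M)
    (h0' : 0 ≤ M') : Bd S p (φ + ψ) (M + M') := by
  intro s hs
  have a1 := h s hs
  have a2 := h' s hs
  have a3 : ∑ i ∈ s, p (Lp S (φ + ψ) i) ^ 2 ≤
      ∑ i ∈ s, (p (Lp S φ i) ^ 2 + 2 * (p (Lp S φ i) * p (Lp S ψ i)) + p (Lp S ψ i) ^ 2) := by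
    refine Finset.sum_le_sum fun i _ => ?_
    rw [Lp_add]
    have b1 := map_add_le_add p (Lp S φ i) (Lp S ψ i)
    have b2 := apply_nonneg p (Lp S φ i + Lp S ψ i)
    have b3 : p (Lp S φ i + Lp S ψ i) ^ 2 ≤ (p (Lp S φ i) + p (Lp S ψ i)) ^ 2 := by gcongr
    nlinarith
  rw [Finset.sum_add_distrib, Finset.sum_add_distrib, ← Finset.mul_sum] at a3
  have a4 := Finset.sum_mul_sq_le_sq_mul_sq s (fun i => p (Lp S φ i)) (fun i => p (Lp S ψ i))
  have a5 : (∑ i ∈ s, p (Lp S φ i) * p (Lp S ψ i)) ^ 2 ≤ (M * M') ^ 2 := by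
    refine a4.trans ?_
    rw [mul_pow]
    gcongr
  have a6 := (abs_le_of_sq_le_sq' a5 (mul_nonneg h0 h0')).2
  nlinarith

theorem Bd.smul {φ : G → V} {M : ℝ} (h : Bd S p φ M) (a : ℂ) : Bd S p (a • φ) (‖a‖ * M) := by
  intro s hs
  simp only [Lp_smul, map_smul_eq_mul, mul_pow]
  rw [← Finset.mul_sum]
  have := h s hs
  gcongr

theorem adm_act (g : G) {s : Finset Pr} (hs : Adm Hs s) :
    Adm Hs (s.map ⟨act g⁻¹, act_inj _⟩) := by
  intro i hi j hj hij
  simp only [Finset.coe_map, Function.Embedding.coeFn_mk, Set.mem_image, Finset.mem_coe] at hi hj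
  obtain ⟨i', hi', rfl⟩ := hi
  obtain ⟨j', hj', rfl⟩ := hj
  have h1 : Disjoint (Hs i') (Hs j') := hs hi' hj' (fun h => hij (by rw [h]))
  rw [Set.disjoint_left] at h1 ⊢
  intro y hy hy'
  exact h1 ((mem_Hs_act _ _ _).1 hy) ((mem_Hs_act _ _ _).1 hy')

theorem Bd.rep {φ : G → V} {M : ℝ} (h : Bd S p φ M) (g : G) : Bd S p (rep S g φ) M := by
  intro s hs
  have := h _ (adm_act g hs)
  rw [Finset.sum_map] at this
  simpa only [Lp_rep, Function.Embedding.coeFn_mk] using this

theorem Bd.sum {φ : G → V} {M : ℝ} (h : Bd S p φ M) (h0 : 0 ≤ M) (s : Finset G) (x : G → ℂ) :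
    Bd S p (∑ g ∈ s, x g • ND.rep S g φ) ((∑ g ∈ s, ‖x g‖) * M) := by
  classical
  induction s using Finset.induction_on with
  | empty => simpa using Bd.zero S p
  | insert g s hg ih =>
    rw [Finset.sum_insert hg, Finset.sum_insert hg, add_mul]
    exact Bd.add S p ((h.rep S p g).smul S p _) ih (by positivity) (by positivity)

theorem Bd.of_forall {φ : G → V} {M : ℝ} (h : ∀ M', M < M' → Bd S p φ M') :
    Bd S p φ M := by
  intro s hs
  have hc : ContinuousWithinAt (fun t : ℝ => t ^ 2) (Set.Ioi M) M := by fun_prop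
  exact ge_of_tendsto hc.tendsto (eventually_nhdsWithin_of_forall fun t ht => h t ht s hs)

variable (hS : ∀ l v, p (S l v) ≤ p v)

include hS in
theorem SS_le (g : G) (v : V) : p (SS S g v) ≤ p v := by
  unfold SS
  induction g.toWord with
  | nil => simp
  | cons a tl ih =>
    simp only [List.map_cons, List.prod_cons, Module.End.mul_apply]
    exact (hS _ _).trans ih

include hS in
theorem Tot_le {φ : G → V} {M : ℝ} (h : Bd S p φ M) (h0 : 0 ≤ M) (c : G) :
    p (Tot S φ c) ≤ 2 * M := by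
  have e := Tot_step S φ (c * (lt (0, true))⁻¹) (0, true)
  rw [inv_mul_cancel_right] at e
  rw [e]
  have a1 := h.dd S p h0 (c * (lt (0, true))⁻¹) (0, true)
  have a2 := h.dd S p h0 c (nl (0, true))
  have a3 := hS (nl (0, true)) (Dd S φ c (nl (0, true)))
  have a4 := map_add_le_add p (Dd S φ (c * (lt (0, true))⁻¹) (0, true))
    (S (nl (0, true)) (Dd S φ c (nl (0, true))))
  linarith

include hS in
theorem val_le {φ : G → V} {M : ℝ} (h : Bd S p φ M) (h0 : 0 ≤ M) (y : G) :
    p (φ y) ≤ 2 * M := by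
  by_cases hy : y = 1
  · rw [hy, ← Tot_one S φ]; exact Tot_le S p hS h h0 1
  · obtain ⟨m, hm⟩ := exists_hd (inv_ne_one.2 hy)
    have h1 := hd_strip hm
    have h2 := Dd_out S φ (x := y * lt m) (l := nl m) (by rwa [mul_inv_rev])
    rw [lt_nl, mul_inv_cancel_right] at h2
    rw [← h2]
    have := h.dd S p h0 (y * lt m) (nl m)
    linarith

include hS in
theorem Lp_le (φ : G → V) (i : Pr) :
    p (Lp S φ i) ≤ p (Tot S φ i.c) + p (Dd S φ (i.x * lt i.l) (nl i.l)) :=
  (map_sub_le_add p _ _).trans (by gcongr; exact SS_le S p hS _ _)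

include hS in
theorem Tot_le_Lp (φ : G → V) (i : Pr) :
    p (Tot S φ i.c) ≤ p (Lp S φ i) + p (Dd S φ (i.x * lt i.l) (nl i.l)) := by
  have e : Tot S φ i.c = Lp S φ i + SS S (i.c⁻¹ * i.x) (Dd S φ (i.x * lt i.l) (nl i.l)) := by
    simp [Lp]
  rw [e]
  exact (map_add_le_add p _ _).trans (by gcongr; exact SS_le S p hS _ _)

theorem edge_back_out {x : G} {l : Lt} (h : hd x⁻¹ = some l) :
    (1 : G) ∉ Hs (edge (x * lt l) (nl l)) := by
  rw [one_mem_Hs]
  simp only [edge, mul_inv_rev]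
  exact hd_strip h

include hS in
/-- The main estimate. -/
theorem main_est {A B : ℂ} (hA : ‖A‖ = 5 / 8) (hB : ‖B‖ = 5 / 8) {φ h : G → V}
    (heq : φ = h + A • rep S (lt (0, true)) φ + B • rep S (lt (1, true)) φ)
    (hb : ∃ M, Bd S p φ M) {n : ℝ} (hn : 0 ≤ n) (hh : Bd S p h n) :
    (∀ t : Fin 2, p (φ (lt (t, false))) ≤ 9 * n) ∧
      ∀ t : ℝ, p (φ 1) ≤ t → Bd S p φ (1000 * (n + t)) := by
  classical
  set f : Fin 2 → Pr → Pr := fun t => act (lt (t, true))⁻¹ with hf
  have hinj : ∀ t, Function.Injective (f t) := fun t => act_inj _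
  have hf' : ∀ t i y, y ∈ Hs (f t i) ↔ lt (t, true) * y ∈ Hs i := fun t i y => mem_Hs_act _ _ _
  have hrec : ∀ i, p (Lp S φ i) ≤ p (Lp S h i) + 5 / 8 * p (Lp S φ (f 0 i)) +
      5 / 8 * p (Lp S φ (f 1 i)) := by
    intro i
    have e : Lp S φ i = Lp S h i + A • Lp S φ (f 0 i) + B • Lp S φ (f 1 i) := by
      conv_lhs => rw [heq]
      rw [Lp_add, Lp_add, Lp_smul, Lp_smul, Lp_rep, Lp_rep]
    rw [e]
    refine (map_add_le_add p _ _).trans ?_
    have := map_add_le_add p (Lp S h i) (A • Lp S φ (f 0 i))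
    rw [map_smul_eq_mul, hA] at this
    rw [map_smul_eq_mul, hB]
    linarith
  have hb' : ∃ M, ∀ s, Adm Hs s → ∑ i ∈ s, p (Lp S φ i) ^ 2 ≤ M := by
    obtain ⟨M, hM⟩ := hb
    exact ⟨M ^ 2, hM⟩
  have hneg := neg_bound Hs f hinj hf' Hs_ne (fun i => p (Lp S φ i)) (fun i => p (Lp S h i))
    (fun i => apply_nonneg _ _) (fun i => apply_nonneg _ _) hrec n hh hb'
  have hneg1 : ∀ i, Neg Hs i → p (Lp S φ i) ≤ 9 * n := by
    intro i hi
    have := hneg {i} (adm_single _ _) (by simpa using hi)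
    rw [Finset.sum_singleton] at this
    exact (abs_le_of_sq_le_sq' (this.trans (by nlinarith)) (by positivity)).2
  have hval : ∀ t : Fin 2, p (φ (lt (t, false))) ≤ 9 * n := by
    intro t
    rw [← Dd_one S φ, ← Lp_edge]
    exact hneg1 _ ⟨t, fun y hy => by simpa [Hs, edge, cone] using hy⟩
  refine ⟨hval, fun t ht => ?_⟩
  have ht0 : 0 ≤ t := (apply_nonneg _ _).trans ht
  have hTneg : ∀ (c : G) (u : Fin 2), hd c = some (u, false) → p (Tot S φ c) ≤ t + 18 * n := by
    intro c u hc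
    have a1 := Tot_le_Lp S p hS φ ⟨1, (u, false), c, by simpa using hc⟩
    have a2 := hneg1 ⟨1, (u, false), c, by simpa using hc⟩
      ⟨u, fun y hy => by simpa [Hs, cone] using hy⟩
    simp only at a1
    rw [Dd_back, Tot_one, Dd_one] at a1
    have a3 := map_sub_le_add p (φ 1) (S (u, false) (φ (lt (u, false))))
    have a4 := hS (u, false) (φ (lt (u, false)))
    have a5 := hval u
    linarith
  obtain ⟨M0, hM0⟩ := hb
  have hM0' : Bd S p φ |M0| := fun s hs => (hM0 s hs).trans (by rw [sq_abs])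
  have hT0 : ∀ c, p (Tot S φ c) ≤ 3 * t + 48 * n := by
    set T0 := ⨆ c, p (Tot S φ c) with hT0
    have hbdd : BddAbove (Set.range fun c => p (Tot S φ c)) :=
      ⟨2 * |M0|, by rintro _ ⟨c, rfl⟩; exact Tot_le S p hS hM0' (abs_nonneg _) c⟩
    have hle : ∀ c, p (Tot S φ c) ≤ T0 := fun c => le_ciSup hbdd c
    have hT00 : 0 ≤ T0 := (apply_nonneg _ _).trans (hle 1)
    have hstep : ∀ c, p (Tot S φ c) ≤ t + 18 * n + 5 / 8 * T0 := by
      intro c
      by_cases hc : c = 1
      · rw [hc, Tot_one]; linarith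
      obtain ⟨⟨u, b⟩, hm⟩ := exists_hd hc
      cases b
      · have := hTneg c u hm
        linarith
      have e : Tot S φ c = Tot S h c + A • Tot S φ ((lt (0, true))⁻¹ * c) +
          B • Tot S φ ((lt (1, true))⁻¹ * c) := by
        rw [← Tot_rep, ← Tot_rep]
        conv_lhs => rw [heq]
        simp only [Tot, map_add, map_smul, Pi.add_apply, Pi.smul_apply]
      have a1 : p (Tot S φ c) ≤ p (Tot S h c) + 5 / 8 * p (Tot S φ ((lt (0, true))⁻¹ * c)) +
          5 / 8 * p (Tot S φ ((lt (1, true))⁻¹ * c)) := by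
        rw [e]
        refine (map_add_le_add p _ _).trans ?_
        have := map_add_le_add p (Tot S h c) (A • Tot S φ ((lt (0, true))⁻¹ * c))
        rw [map_smul_eq_mul, hA] at this
        rw [map_smul_eq_mul, hB]
        linarith
      have a2 := Tot_le S p hS hh hn c
      have hneg2 : ∀ u' : Fin 2, u' ≠ u →
          p (Tot S φ ((lt (u', true))⁻¹ * c)) ≤ t + 18 * n := by
        intro u' hu
        refine hTneg _ u' ?_
        rw [← lt_nl]
        refine hd_lt_mul ?_
        rw [nl_nl, hm]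
        simp [hu.symm]
      fin_cases u
      · have a3 := hneg2 1 (by simp)
        have a4 := hle ((lt (0, true))⁻¹ * c)
        linarith
      · have a3 := hneg2 0 (by simp)
        have a4 := hle ((lt (1, true))⁻¹ * c)
        linarith
    have : T0 ≤ t + 18 * n + 5 / 8 * T0 := ciSup_le hstep
    intro c
    have := hle c
    linarith
  have hpos := pos_bound Hs f hinj hf' Hs_ne (fun i => p (Lp S φ i)) (fun i => p (Lp S h i))
    (fun i => apply_nonneg _ _) (fun i => apply_nonneg _ _) hrec n hh hb'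
    (fun i hi => by
      rw [one_mem_Hs] at hi
      obtain ⟨m, hm⟩ := cone_dich _ _ hi
      exact ⟨m, fun y hy => hm y hy⟩) (3 * t + 57 * n) (by
      intro u i hi hi'
      rw [hf', mul_one] at hi'
      rw [one_mem_Hs] at hi
      obtain ⟨h1, h2⟩ := special_root hi hi'
      have a1 := Lp_le S p hS φ (f u i)
      have a2 := hT0 (f u i).c
      have e1 : (f u i).x * lt (f u i).l = 1 := by
        simp only [hf, act]
        rw [inv_eq_one.1 h1, h2]
        simp
      have e2 : (f u i).l = (u, true) := h2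
      rw [e1, e2, Dd_one] at a1
      have a3 := hval u
      have e3 : nl (u, true) = (u, false) := rfl
      rw [e3] at a1
      linarith)
  have hpos' : ∀ s, Adm Hs s → (∀ i ∈ s, (1 : G) ∉ Hs i) →
      ∑ i ∈ s, p (Lp S φ i) ^ 2 ≤ (200 * (n + t)) ^ 2 := by
    intro s hs h1
    refine (hpos s hs h1).trans ?_
    nlinarith [mul_nonneg hn ht0, sq_nonneg n, sq_nonneg t]
  intro s hs
  have e1 := Finset.sum_filter_add_sum_filter_not s
    (fun i => (1 : G) ∈ Hs i) (fun i => p (Lp S φ i) ^ 2)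
  have e2 := root_sum hs (F := fun i => p (Lp S φ i)) (fun i => apply_nonneg _ _)
    (T := 300 * (n + t)) (by
      intro i _ hi
      have a1 := Lp_le S p hS φ i
      have a2 := hT0 i.c
      have a3 := hpos' {edge (i.x * lt i.l) (nl i.l)} (adm_single _ _) (by
        intro j hj
        rw [Finset.mem_singleton.1 hj]
        exact edge_back_out ((one_mem_Hs i).1 hi))
      rw [Finset.sum_singleton, Lp_edge] at a3
      have a4 := (abs_le_of_sq_le_sq' a3 (by positivity)).2
      linarith)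
  have e3 := hpos' (s.filter fun i => ¬ (1 : G) ∈ Hs i) (hs.mono (Finset.filter_subset _ _))
    (fun i hi => (Finset.mem_filter.1 hi).2)
  have := sq_nonneg (n + t)
  nlinarith

end Pool.Agent.H551Z.ND
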