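import Mathlib
import Pool.Agent.H551Z.NDB
import Pool.Agent.Results.MP_11aa79_an.NotFactor

/-! A priori bounds, the regular representation and finite rank perturbations. -/

set_option autoImplicit false

namespace Pool.Agent.H551Z.ND

open FreeGroup
open Pool.Agent.Results.MP_11aa79_an.NotFactor

section Apriori

variable {V : Type} [AddCommGroup V] [Module ℂ V] (S : Lt → V →ₗ[ℂ] V) (p : Seminorm ℂ V)
  {ρ C : ℝ} (hρ0 : 0 ≤ ρ) (hρ1 : ρ < 1) (hC : C * (1 - ρ ^ 2) = 4)
  (hS : ∀ l v, p (S l v) ≤ ρ * p v)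

include hρ1 hS in
theorem hS_one (l : Lt) (v : V) : p (S l v) ≤ p v :=
  (hS l v).trans (by have := apply_nonneg p v; nlinarith)

include hρ0 hρ1 hC hS in
theorem out_probe (φ : G → V) {x : G} {l : Lt} (hx : hd x⁻¹ ≠ some l) :
    ∀ g : G, hd g⁻¹ = some l → ∃ B : Finset G,
      (∀ y ∈ B, hd (x⁻¹ * y) = some l ∧ norm y ≤ norm (x * g⁻¹)) ∧
      p (Tot S φ (x * g⁻¹) - SS S g (Dd S φ (x * lt l) (nl l))) ^ 2 ≤
        C * ∑ y ∈ B, p (φ y) ^ 2 := by
  classical
  have hκ : 0 < 1 - ρ ^ 2 := by nlinarith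
  have hC4 : 4 ≤ C := by nlinarith [sq_nonneg ρ, mul_pos hκ hκ]
  refine word_ind ?_ ?_
  · intro h
    rw [inv_one, hd_one] at h
    exact absurd h (by simp)
  · intro s g hg ih h
    rw [mul_inv_rev, ← lt_nl] at h
    by_cases h1 : g = 1
    · subst h1
      rw [inv_one, one_mul, hd_lt] at h
      have h2 : l = nl s := (Option.some.inj h).symm
      subst h2
      refine ⟨{x * lt (nl s)}, ?_, ?_⟩
      · intro y hy
        rw [Finset.mem_singleton.1 hy]
        refine ⟨by simp [hd_lt], ?_⟩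
        rw [mul_one, lt_nl]
      · rw [mul_one, ← lt_nl, SS_lt, Tot_step, nl_nl, add_sub_cancel_right, Dd_out S φ hx,
          Finset.sum_singleton]
        nlinarith [sq_nonneg (p (φ (x * lt (nl s))))]
    · have h2 : hd g⁻¹ = some l := by
        by_contra hc
        exact h1 (inv_eq_one.1 (special_root hc h).1)
      obtain ⟨B, hB, hB2⟩ := ih h2
      have n1 := norm_out _ l hx _ h2
      have n2 := norm_out _ l hx _ h
      rw [inv_inv] at n1 n2
      have n3 : norm (g⁻¹ * lt (nl s)) = norm g⁻¹ + 1 := by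
        rw [lt_nl, ← mul_inv_rev, norm_inv_eq, norm_inv_eq, norm_lt_mul hg]
      have e0 : x * (lt s * g)⁻¹ = x * g⁻¹ * lt (nl s) := by
        rw [mul_inv_rev, lt_nl, mul_assoc]
      have hout : hd (x * g⁻¹)⁻¹ ≠ some (nl s) := by
        intro hc
        have n4 := norm_strip hc
        rw [← mul_inv_rev, norm_inv_eq, norm_inv_eq, mul_assoc] at n4
        omega
      have hnot : x * g⁻¹ * lt (nl s) ∉ B := by
        intro hc
        have := (hB _ hc).2
        rw [mul_assoc] at this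
        omega
      refine ⟨insert (x * g⁻¹ * lt (nl s)) B, ?_, ?_⟩
      · intro y hy
        rw [e0]
        rcases Finset.mem_insert.1 hy with hy | hy
        · rw [hy]
          refine ⟨?_, le_rfl⟩
          rw [mul_assoc x, inv_mul_cancel_left]
          exact h
        · refine ⟨(hB y hy).1, (hB y hy).2.trans ?_⟩
          rw [mul_assoc]
          omega
      · rw [Finset.sum_insert hnot, e0, SS_lt_mul S hg, Tot_step, Dd_back, nl_nl,
          Dd_out S φ hout]
        set a := Tot S φ (x * g⁻¹) - SS S g (Dd S φ (x * lt l) (nl l)) with ha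
        set f := φ (x * g⁻¹ * lt (nl s)) with hf
        have e1 : f + S s (Tot S φ (x * g⁻¹) - S (nl s) f) -
            S s (SS S g (Dd S φ (x * lt l) (nl l))) = f + S s (a - S (nl s) f) := by
          simp only [ha, map_sub]
          abel
        rw [e1]
        have b1 := map_add_le_add p f (S s (a - S (nl s) f))
        have b2 := hS s (a - S (nl s) f)
        have b3 := map_sub_le_add p a (S (nl s) f)
        have b4 := hS_one S p hρ1 hS (nl s) f
        have b5 := apply_nonneg p f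
        have b6 := apply_nonneg p a
        have b7 : p (f + S s (a - S (nl s) f)) ≤ 2 * p f + ρ * p a := by nlinarith
        have b8 : p (f + S s (a - S (nl s) f)) ^ 2 ≤ (2 * p f + ρ * p a) ^ 2 := by
          have := apply_nonneg p (f + S s (a - S (nl s) f))
          gcongr
        have b9 : (2 * p f + ρ * p a) ^ 2 ≤ p a ^ 2 + C * p f ^ 2 := by
          have c1 : 0 ≤ (1 - ρ ^ 2) * (p a ^ 2 + C * p f ^ 2 - (2 * p f + ρ * p a) ^ 2) := by
            have c2 : (1 - ρ ^ 2) * (p a ^ 2 + C * p f ^ 2 - (2 * p f + ρ * p a) ^ 2) =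
                ((1 - ρ ^ 2) * p a - 2 * ρ * p f) ^ 2 := by
              linear_combination (p f ^ 2) * hC
            rw [c2]; positivity
          have c3 := nonneg_of_mul_nonneg_right c1 hκ |> fun h => h
          by_contra hc
          have := mul_neg_of_pos_of_neg hκ (sub_neg.2 (not_le.1 hc))
          linarith
        nlinarith

include hρ0 hρ1 hC hS in
theorem apriori (φ : G → V) {Mx : ℝ} (hM0 : 0 ≤ Mx)
    (hM : ∀ B : Finset G, (1 : G) ∉ B → C * ∑ y ∈ B, p (φ y) ^ 2 ≤ Mx ^ 2) :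
    Bd S p φ (p (φ 1) + 4 * Mx) := by
  classical
  have h1 := hS_one S p hρ1 hS
  have key : ∀ i : Pr, (1 : G) ∉ Hs i → ∃ B : Finset G, (∀ y ∈ B, y ∈ Hs i) ∧
      p (Lp S φ i) ^ 2 ≤ C * ∑ y ∈ B, p (φ y) ^ 2 := by
    intro i hi
    rw [one_mem_Hs] at hi
    obtain ⟨B, hB, hB2⟩ := out_probe S p hρ0 hρ1 hC hS φ hi (i.c⁻¹ * i.x) (by simpa using i.h)
    refine ⟨B, fun y hy => (hB y hy).1, ?_⟩
    have e : i.x * (i.c⁻¹ * i.x)⁻¹ = i.c := by simp
    rwa [e] at hB2
  choose! B hB hB2 using key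
  have hout : ∀ s, Adm Hs s → (∀ i ∈ s, (1 : G) ∉ Hs i) →
      ∑ i ∈ s, p (Lp S φ i) ^ 2 ≤ Mx ^ 2 := by
    intro s hs hs1
    have hd : (s : Set Pr).PairwiseDisjoint B := by
      intro i hi j hj hij
      have h2 : Disjoint (Hs i) (Hs j) := hs hi hj hij
      change Disjoint (B i) (B j)
      rw [Finset.disjoint_left]
      intro y hy hy'
      exact Set.disjoint_left.1 h2 (hB i (hs1 i hi) y hy) (hB j (hs1 j hj) y hy')
    refine (Finset.sum_le_sum fun i hi => hB2 i (hs1 i hi)).trans ?_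
    rw [← Finset.mul_sum, ← Finset.sum_biUnion hd]
    refine hM _ ?_
    intro hc
    obtain ⟨i, hi, hi2⟩ := Finset.mem_biUnion.1 hc
    exact hs1 i hi (hB i (hs1 i hi) _ hi2)
  have hout1 : ∀ i, (1 : G) ∉ Hs i → p (Lp S φ i) ≤ Mx := by
    intro i hi
    have := hout {i} (adm_single _ _) (by simpa using hi)
    rw [Finset.sum_singleton] at this
    exact (abs_le_of_sq_le_sq' this hM0).2
  have hp0 := apply_nonneg p (φ 1)
  have hT : ∀ c, p (Tot S φ c) ≤ p (φ 1) + 2 * Mx := by
    intro c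
    by_cases hc : c = 1
    · rw [hc, Tot_one]; linarith
    obtain ⟨m, hm⟩ := exists_hd hc
    have a1 := Tot_le_Lp S p h1 φ ⟨1, m, c, by simpa using hm⟩
    have a2 := hout1 ⟨1, m, c, by simpa using hm⟩ (by rw [one_mem_Hs]; simp [hd_one])
    have a3 := hout1 (edge 1 m) (by rw [one_mem_Hs]; simp [edge, hd_one])
    simp only at a1
    rw [Dd_back, Tot_one] at a1
    rw [Lp_edge] at a3
    have a4 := map_sub_le_add p (φ 1) (S m (Dd S φ 1 m))
    have a5 := h1 m (Dd S φ 1 m)
    linarith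
  intro s hs
  have e1 := Finset.sum_filter_add_sum_filter_not s
    (fun i => (1 : G) ∈ Hs i) (fun i => p (Lp S φ i) ^ 2)
  have e2 := root_sum hs (F := fun i => p (Lp S φ i)) (fun i => apply_nonneg _ _)
    (T := p (φ 1) + 3 * Mx) (by
      intro i _ hi
      have a1 := Lp_le S p h1 φ i
      have a2 := hT i.c
      have a3 := hout1 _ (edge_back_out ((one_mem_Hs i).1 hi))
      rw [Lp_edge] at a3
      linarith)
  have e3 := hout (s.filter fun i => ¬ (1 : G) ∈ Hs i) (hs.mono (Finset.filter_subset _ _))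
    (fun i hi => (Finset.mem_filter.1 hi).2)
  nlinarith [mul_nonneg hp0 hM0, sq_nonneg Mx]

end Apriori

theorem fredholm {E : Type} [AddCommGroup E] [Module ℂ E] (T T' : Module.End ℂ E)
    (hT' : Function.Bijective T') (U : Submodule ℂ E) [FiniteDimensional ℂ U]
    (hU : ∀ v, T v - T' v ∈ U) (hT : Function.Injective T) : Function.Surjective T := by
  set e := LinearEquiv.ofBijective T' hT' with he
  set U' := U.comap T' with hU'
  have hfin : FiniteDimensional ℂ U' := by
    refine FiniteDimensional.of_injective (T'.restrict (p := U') (q := U) fun v hv => hv) ?_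
    intro a b hab
    exact Subtype.ext (hT'.1 (congrArg Subtype.val hab))
  set M : Module.End ℂ E := e.symm.toLinearMap ∘ₗ T with hM
  have hTM : ∀ v, T' (M v) = T v := fun v => e.apply_symm_apply (T v)
  have hK : ∀ v, M v - v ∈ U' := by
    intro v
    change T' (M v - v) ∈ U
    rw [map_sub, hTM]
    exact hU v
  have hMU : ∀ v ∈ U', M v ∈ U' := by
    intro v hv
    have := U'.add_mem (hK v) hv
    simpa using this
  have hMi : Function.Injective (M.restrict hMU) := by
    intro a b hab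
    have h1 : M a = M b := congrArg Subtype.val hab
    refine Subtype.ext (hT ?_)
    rw [← hTM, ← hTM, h1]
  have hMs := LinearMap.injective_iff_surjective.1 hMi
  intro w
  obtain ⟨h, rfl⟩ := hT'.2 w
  obtain ⟨u, hu⟩ := hMs ⟨M h - h, hK h⟩
  have hu' : M u = M h - h := congrArg Subtype.val hu
  refine ⟨h - u, ?_⟩
  rw [← hTM, map_sub, hu']
  simp

/-- The translation representation. -/
def lam (V : Type) [AddCommGroup V] [Module ℂ V] : G →* Module.End ℂ (G → V) where
  toFun g :=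
    { toFun := fun φ y => φ (g⁻¹ * y)
      map_add' := fun _ _ => rfl
      map_smul' := fun _ _ => rfl }
  map_one' := by ext φ y; simp
  map_mul' g h := by ext φ y; simp [mul_assoc]

theorem lam_apply {V : Type} [AddCommGroup V] [Module ℂ V] (g : G) (φ : G → V) (y : G) :
    lam V g φ y = φ (g⁻¹ * y) := rfl

/-- Extension of a representation to the group algebra. -/
noncomputable def op {W : Type} [AddCommGroup W] [Module ℂ W] (r : G →* Module.End ℂ W) :
    MonoidAlgebra ℂ G →ₐ[ℂ] Module.End ℂ W := MonoidAlgebra.lift ℂ (Module.End ℂ W) G r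

theorem op_apply {W : Type} [AddCommGroup W] [Module ℂ W] (r : G →* Module.End ℂ W)
    (x : MonoidAlgebra ℂ G) (φ : W) :
    op r x φ = ∑ g ∈ x.coeff.support, x.coeff g • r g φ := by
  simp [op, MonoidAlgebra.lift_apply, Finsupp.sum, LinearMap.sum_apply]

/-- The absolute sum of coefficients. -/
noncomputable def nrm (x : MonoidAlgebra ℂ G) : ℝ := ∑ g ∈ x.coeff.support, ‖x.coeff g‖

theorem nrm_nonneg (x : MonoidAlgebra ℂ G) : 0 ≤ nrm x :=
  Finset.sum_nonneg fun _ _ => norm_nonneg _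

/-- The element one minus A a minus B b. -/
noncomputable def zA (A B : ℂ) : MonoidAlgebra ℂ G :=
  1 - A • MonoidAlgebra.single (lt (0, true)) 1 - B • MonoidAlgebra.single (lt (1, true)) 1

theorem op_zA {W : Type} [AddCommGroup W] [Module ℂ W] (r : G →* Module.End ℂ W) (A B : ℂ)
    (φ : W) : op r (zA A B) φ = φ - A • r (lt (0, true)) φ - B • r (lt (1, true)) φ := by
  simp [zA, op]

theorem rep_fr {V : Type} [AddCommGroup V] [Module ℂ V] (S : Lt → V →ₗ[ℂ] V) :
    ∀ g : G, ∃ F : Finset G, ∀ φ y, y ∉ F → rep S g φ y = lam V g φ y := by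
  classical
  refine word_ind ⟨∅, by simp⟩ ?_
  rintro l g - ⟨F, hF⟩
  refine ⟨insert (lt l) (insert 1 (F.image fun y => lt l * y)), fun φ y hy => ?_⟩
  simp only [Finset.mem_insert, Finset.mem_image, not_or, not_exists, not_and] at hy
  rw [rep_mul_apply, rep_lt, R_other S l _ hy.1 hy.2.1, hF, lam_apply, lam_apply, mul_inv_rev,
    mul_assoc]
  intro hc
  exact hy.2.2 _ hc (by simp)

theorem op_fr {V : Type} [AddCommGroup V] [Module ℂ V] (S : Lt → V →ₗ[ℂ] V)
    (x : MonoidAlgebra ℂ G) :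
    ∃ F : Finset G, ∀ φ y, y ∉ F → op (rep S) x φ y = op (lam V) x φ y := by
  classical
  choose F hF using rep_fr S
  refine ⟨x.coeff.support.biUnion F, fun φ y hy => ?_⟩
  rw [op_apply, op_apply, Finset.sum_apply, Finset.sum_apply]
  refine Finset.sum_congr rfl fun g hg => ?_
  rw [Pi.smul_apply, Pi.smul_apply, hF g φ y fun hc => hy (Finset.mem_biUnion.2 ⟨g, hg, hc⟩)]

theorem summable_coeff (x : MonoidAlgebra ℂ G) : Summable fun g => ‖x.coeff g‖ :=
  summable_of_ne_finset_zero (s := x.coeff.support) fun g hg => by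
    simpa using hg

theorem tsum_coeff (x : MonoidAlgebra ℂ G) : ∑' g, ‖x.coeff g‖ = nrm x :=
  tsum_eq_sum fun g hg => by simpa using hg

theorem conv_eq (x : MonoidAlgebra ℂ G) (f : Kap.H G) (y : G) :
    Kap.conv x.coeff f y = op (lam ℂ) x f y := by
  rw [Kap.conv_apply (summable_coeff x), op_apply, Finset.sum_apply,
    tsum_eq_sum (s := x.coeff.support) fun g hg => by
      have : x.coeff g = 0 := by simpa using hg
      simp [this]]
  rfl

theorem conv_norm (x : MonoidAlgebra ℂ G) : ‖Kap.conv x.coeff‖ ≤ nrm x := by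
  rw [← tsum_coeff]
  refine tsum_of_norm_bounded (summable_coeff x).hasSum fun g => ?_
  rw [norm_smul]
  exact mul_le_of_le_one_right (norm_nonneg _) (Kap.norm_tr_le _)

theorem conv_mul (x y : MonoidAlgebra ℂ G) (f : Kap.H G) :
    Kap.conv (x * y).coeff f = Kap.conv x.coeff (Kap.conv y.coeff f) := by
  ext t
  rw [conv_eq, conv_eq, _root_.map_mul]
  have : ((Kap.conv y.coeff f : Kap.H G) : G → ℂ) = op (lam ℂ) y f := funext (conv_eq y f)
  rw [this]
  rfl

theorem conv_sub (x y : MonoidAlgebra ℂ G) :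
    Kap.conv (x - y).coeff = Kap.conv x.coeff - Kap.conv y.coeff := by
  ext f t
  simp only [ContinuousLinearMap.sub_apply, lp.coeFn_sub, Pi.sub_apply]
  rw [conv_eq, conv_eq, conv_eq, map_sub]
  rfl

theorem conv_z_below {A B : ℂ} (hA : ‖A‖ = 5 / 8) (hB : ‖B‖ = 5 / 8) (f : Kap.H G) :
    ‖f‖ ≤ 120 * ‖Kap.conv (zA A B).coeff f‖ := by
  classical
  set h := Kap.conv (zA A B).coeff f with hh
  have hy : ∀ y, ‖f y‖ ≤ ‖h y‖ + 5 / 8 * ‖f ((lt (0, true))⁻¹ * y)‖ +
      5 / 8 * ‖f ((lt (1, true))⁻¹ * y)‖ := by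
    intro y
    have e : f y = h y + A * f ((lt (0, true))⁻¹ * y) + B * f ((lt (1, true))⁻¹ * y) := by
      rw [hh, conv_eq, op_zA]
      simp only [Pi.sub_apply, Pi.smul_apply, lam_apply, smul_eq_mul]
      ring
    rw [e]
    refine (norm_add₃_le).trans ?_
    rw [norm_mul, norm_mul, hA, hB]
  have hsum : ∀ (k : Kap.H G) (s : Finset G), ∑ y ∈ s, ‖k y‖ ^ 2 ≤ ‖k‖ ^ 2 := by
    intro k s
    rw [Kap.norm_sq]
    exact ((Kap.memH_iff _).1 (lp.memℓp k)).sum_le_tsum s fun _ _ => by positivity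
  set Hs' : G → Set G := fun y => {y} with hHs
  set ff : Fin 2 → G → G := fun t y => (lt (t, true))⁻¹ * y with hff
  have hinj : ∀ t, Function.Injective (ff t) := fun t => mul_right_injective _
  have hf' : ∀ t i y, y ∈ Hs' (ff t i) ↔ lt (t, true) * y ∈ Hs' i := by
    intro t i y
    simp only [hHs, hff, Set.mem_singleton_iff]
    exact eq_inv_mul_iff_mul_eq
  have hne : ∀ i, (Hs' i).Nonempty := fun i => Set.singleton_nonempty i
  have hn := norm_nonneg h
  have hneg := neg_bound Hs' ff hinj hf' hne (fun y => ‖f y‖) (fun y => ‖h y‖)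
    (fun _ => norm_nonneg _) (fun _ => norm_nonneg _) hy ‖h‖ (fun s _ => hsum h s)
    ⟨_, fun s _ => hsum f s⟩
  have hval : ∀ t : Fin 2, ‖f ((lt (t, true))⁻¹ * 1)‖ ≤ 9 * ‖h‖ := by
    intro t
    have := hneg {(lt (t, true))⁻¹ * 1} (adm_single _ _) (by
      intro i hi
      rw [Finset.mem_singleton.1 hi]
      refine ⟨t, ?_⟩
      simp only [hHs, Set.singleton_subset_iff, mul_one, ← lt_nl]
      exact hd_lt _)
    rw [Finset.sum_singleton] at this
    exact (abs_le_of_sq_le_sq' (this.trans (by nlinarith)) (by positivity)).2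
  have h1 : ‖f 1‖ ≤ 13 * ‖h‖ := by
    have a1 := hy 1
    have a2 := hval 0
    have a3 := hval 1
    have a4 : ‖h 1‖ ≤ ‖h‖ := lp.norm_apply_le_norm (by norm_num) h 1
    linarith
  have hpos := pos_bound Hs' ff hinj hf' hne (fun y => ‖f y‖) (fun y => ‖h y‖)
    (fun _ => norm_nonneg _) (fun _ => norm_nonneg _) hy ‖h‖ (fun s _ => hsum h s)
    ⟨_, fun s _ => hsum f s⟩ (by
      intro i hi
      obtain ⟨m, hm⟩ := exists_hd (g := i) (fun hc => hi (by simp [hHs, hc]))
      exact ⟨m, by simpa [hHs, cone] using hm⟩) (13 * ‖h‖) (by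
      intro t i _ hi
      have : (1 : G) = ff t i := hi
      rw [← this]
      exact h1)
  have hall : ∀ s : Finset G, ∑ y ∈ s, ‖f y‖ ^ 2 ≤ (120 * ‖h‖) ^ 2 := by
    intro s
    have hs : Adm Hs' s := by
      intro i _ j _ hij
      simpa [hHs] using hij
    have e1 := Finset.sum_filter_add_sum_filter_not s
      (fun i => (1 : G) ∈ Hs' i) (fun i => ‖f i‖ ^ 2)
    have e2 := root_sum hs (F := fun i => ‖f i‖) (fun i => norm_nonneg _) (T := 13 * ‖h‖) (by
      intro i _ hi
      have : (1 : G) = i := hi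
      rw [← this]
      exact h1)
    have e3 := hpos (s.filter fun i => ¬ (1 : G) ∈ Hs' i) (hs.mono (Finset.filter_subset _ _))
      (fun i hi => (Finset.mem_filter.1 hi).2)
    nlinarith [sq_nonneg ‖h‖]
  have h2 : ‖f‖ ^ 2 ≤ (120 * ‖h‖) ^ 2 := by
    rw [Kap.norm_sq]
    exact ((Kap.memH_iff _).1 (lp.memℓp f)).tsum_le_of_sum_le hall
  exact (abs_le_of_sq_le_sq' h2 (by positivity)).2

theorem conv_z_surj {A B : ℂ} (hA : ‖A‖ = 5 / 8) (hB : ‖B‖ = 5 / 8) :
    Function.Surjective (Kap.conv (zA A B).coeff) := by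
  classical
  set T := Kap.conv (zA A B).coeff with hT
  have hanti : AntilipschitzWith 120 T :=
    T.antilipschitz_of_bound (K := 120) (fun f => by simpa using conv_z_below hA hB f)
  have hcl : IsClosed (Set.range T) := hanti.isClosed_range T.uniformContinuous
  have h01 : (0 : Fin 2) ≠ 1 := by decide
  have hG : ‖A‖ ^ 2 + ‖B‖ ^ 2 < 1 := by rw [hA, hB]; norm_num
  set Gh : Kap.H G := ⟨Tree.Gr 0 1 A B, (Kap.memH_iff _).2 (Tree.summable_Gr h01 hG)⟩ with hGh
  have hsingle : ∀ (x : G) (c : ℂ), (lp.single 2 x c : Kap.H G) ∈ T.range := by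
    intro x c
    refine ⟨c • Kap.tr (Equiv.mulRight x⁻¹) Gh, ?_⟩
    ext t
    change T (c • Kap.tr (Equiv.mulRight x⁻¹) Gh) t = _
    rw [map_smul, hT, Kap.conv_rtr (summable_coeff _), lp.coeFn_smul, Pi.smul_apply,
      Kap.tr_apply, conv_eq, op_zA]
    simp only [Pi.sub_apply, Pi.smul_apply, lam_apply, smul_eq_mul, Equiv.coe_mulRight, lt_true]
    have e := Tree.Gr_eq h01 A B (t * x⁻¹)
    change c * (Tree.Gr 0 1 A B (t * x⁻¹) - A * Tree.Gr 0 1 A B ((of 0)⁻¹ * (t * x⁻¹)) -
      B * Tree.Gr 0 1 A B ((of 1)⁻¹ * (t * x⁻¹))) = _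
    rw [e]
    by_cases ht : t = x
    · subst ht; simp
    · have : t * x⁻¹ ≠ 1 := fun h => ht (by rwa [mul_inv_eq_one] at h)
      simp [ht, this]
  intro f
  have h1 := lp.hasSum_single (p := 2) (by norm_num) f
  exact hcl.mem_of_tendsto h1 (Filter.Eventually.of_forall fun s =>
    T.range.sum_mem fun x _ => hsingle x _)

theorem conv_bij {A B : ℂ} (hA : ‖A‖ = 5 / 8) (hB : ‖B‖ = 5 / 8) (δ : MonoidAlgebra ℂ G)
    (hδ : nrm δ ≤ 1 / 240) : Function.Bijective (Kap.conv (zA A B - δ).coeff) := by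
  set T := Kap.conv (zA A B).coeff with hT
  have hinj : T.ker = ⊥ := by
    rw [LinearMap.ker_eq_bot']
    intro f hf
    have := conv_z_below hA hB f
    have h2 : T f = 0 := hf
    rw [← hT, h2] at this
    simpa using this
  have hsurj : T.range = ⊤ := LinearMap.range_eq_top.2 (conv_z_surj hA hB)
  set e := ContinuousLinearEquiv.ofBijective T hinj hsurj with he
  set K : Kap.H G →L[ℂ] Kap.H G := (e.symm : Kap.H G →L[ℂ] Kap.H G).comp (Kap.conv δ.coeff)
    with hK
  have hTe : ∀ f, T (e.symm f) = f := fun f => e.apply_symm_apply f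
  have hKn : ‖K‖ < 1 := by
    refine lt_of_le_of_lt (K.opNorm_le_bound (M := 1 / 2) (by norm_num) fun f => ?_) (by norm_num)
    have a1 := conv_z_below hA hB (e.symm (Kap.conv δ.coeff f))
    rw [← hT, hTe] at a1
    have a2 := (Kap.conv δ.coeff).le_opNorm f
    have a3 := conv_norm δ
    have a4 := norm_nonneg f
    have a5 : ‖Kap.conv δ.coeff‖ * ‖f‖ ≤ 1 / 240 * ‖f‖ := by gcongr; linarith
    change ‖e.symm (Kap.conv δ.coeff f)‖ ≤ _
    linarith
  have hu := ContinuousLinearMap.isUnit_iff_bijective.1 (isUnit_one_sub_of_norm_lt_one hKn)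
  have hTb : Function.Bijective T := e.bijective
  have : (Kap.conv (zA A B - δ).coeff : Kap.H G → Kap.H G) = T ∘ (1 - K : Kap.H G →L[ℂ] Kap.H G) := by
    funext f
    rw [conv_sub]
    simp only [ContinuousLinearMap.sub_apply, Function.comp, ContinuousLinearMap.one_apply,
      map_sub, hK, ContinuousLinearMap.comp_apply]
    rw [← hT]
    congr 1
    exact (hTe _).symm
  rw [this]
  exact hTb.comp hu

theorem conv_right_bij {x y : MonoidAlgebra ℂ G}
    (h : Function.Bijective (Kap.conv (x * y).coeff)) :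
    Function.Bijective (Kap.conv y.coeff) := by
  classical
  obtain ⟨k, hk⟩ := h.2 (lp.single 2 1 1)
  rw [conv_mul] at hk
  have hx := Kap.kaplansky (summable_coeff x) _ hk
  refine ⟨fun f g hfg => h.1 (by rw [conv_mul, conv_mul, hfg]), fun w => ?_⟩
  obtain ⟨f, hf⟩ := h.2 (Kap.conv x.coeff w)
  refine ⟨f, sub_eq_zero.1 (hx _ ?_)⟩
  rw [map_sub, ← conv_mul, hf, sub_self]

end Pool.Agent.H551Z.ND
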