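import Mathlib
import Pool.Agent.H551Z.NDC

/-! The cyclic model for the letter operators. -/

set_option autoImplicit false

namespace Pool.Agent.H551Z.ND

open FreeGroup

/-- The coefficient space. -/
abbrev VK (K : ℕ) := Fin (K + 2) → ℂ

/-- The small damping parameter. -/
noncomputable def tau (K : ℕ) : ℝ := (1 / 2) ^ (K + 1)

theorem tau_pos (K : ℕ) : 0 < tau K := by unfold tau; positivity

theorem tau_le (K : ℕ) : tau K ≤ 1 / 2 := by
  unfold tau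
  rw [pow_succ]
  have : ((1 : ℝ) / 2) ^ K ≤ 1 := pow_le_one₀ (by norm_num) (by norm_num)
  linarith

theorem tau_mul (K : ℕ) : tau K * 2 ^ (K + 1) = 1 := by
  unfold tau
  rw [← mul_pow]; norm_num

theorem tau_pow {K : ℕ} {θ : ℝ} (h1 : 1 ≤ θ) (h2 : θ ≤ 2) {j : ℕ} (hj : j ≤ K + 1) :
    tau K * θ ^ j ≤ 1 := by
  rw [← tau_mul K]
  have := tau_pos K
  have h3 : θ ^ j ≤ 2 ^ j := by gcongr
  have h4 : (2 : ℝ) ^ j ≤ 2 ^ (K + 1) := pow_le_pow_right₀ (by norm_num) hj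
  gcongr
  linarith

/-- Operator of a generator. -/
noncomputable def Sp (K : ℕ) (α : ℂ) : VK K →ₗ[ℂ] VK K where
  toFun x := Fin.cons ((1 - tau K) * x 0 - α * (1 / 16) * x (Fin.last _))
    (fun i => α * (x i.succ - (1 / 16) * x i.castSucc))
  map_add' x y := by
    funext j
    refine Fin.cases ?_ (fun i => ?_) j <;> simp <;> ring
  map_smul' c x := by
    funext j
    refine Fin.cases ?_ (fun i => ?_) j <;> simp <;> ring

/-- Operator of an inverse generator. -/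
noncomputable def Sn (K : ℕ) : VK K →ₗ[ℂ] VK K where
  toFun x := Fin.cons ((1 - tau K) * x 0) (fun _ => 0)
  map_add' x y := by
    funext j
    refine Fin.cases ?_ (fun i => ?_) j <;> simp <;> ring
  map_smul' c x := by
    funext j
    refine Fin.cases ?_ (fun i => ?_) j <;> simp <;> ring

theorem Sp_zero (K : ℕ) (α : ℂ) (x : VK K) :
    Sp K α x 0 = (1 - tau K) * x 0 - α * (1 / 16) * x (Fin.last _) := rfl

theorem Sp_succ (K : ℕ) (α : ℂ) (x : VK K) (i : Fin (K + 1)) :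
    Sp K α x i.succ = α * (x i.succ - (1 / 16) * x i.castSucc) := rfl

theorem Sn_zero (K : ℕ) (x : VK K) : Sn K x 0 = (1 - tau K) * x 0 := rfl

theorem Sn_succ (K : ℕ) (x : VK K) (i : Fin (K + 1)) : Sn K x i.succ = 0 := rfl

/-- The letter operators. -/
noncomputable def SK (K : ℕ) (al : Fin 2 → ℂ) (l : Lt) : VK K →ₗ[ℂ] VK K :=
  if l.2 then Sp K (al l.1) else Sn K

/-- Weighted sum over the nonzero indices. -/
noncomputable def UU {K : ℕ} (θ : ℝ) (x : VK K) : ℝ :=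
  ∑ i : Fin (K + 1), θ ^ ((i : ℕ) + 1) * ‖x i.succ‖

theorem UU_nonneg {K : ℕ} {θ : ℝ} (h : 0 ≤ θ) (x : VK K) : 0 ≤ UU θ x :=
  Finset.sum_nonneg fun _ _ => by positivity

theorem UU_add {K : ℕ} {θ : ℝ} (h : 0 ≤ θ) (x y : VK K) : UU θ (x + y) ≤ UU θ x + UU θ y := by
  unfold UU
  rw [← Finset.sum_add_distrib]
  refine Finset.sum_le_sum fun i _ => ?_
  rw [← mul_add]
  gcongr
  exact norm_add_le _ _

theorem UU_smul {K : ℕ} (θ : ℝ) (a : ℂ) (x : VK K) : UU θ (a • x) = ‖a‖ * UU θ x := by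
  unfold UU
  rw [Finset.mul_sum]
  refine Finset.sum_congr rfl fun i _ => ?_
  rw [Pi.smul_apply, norm_smul]
  ring

theorem UU_shift {K : ℕ} (θ : ℝ) (x : VK K) :
    ∑ i : Fin (K + 1), θ ^ ((i : ℕ) + 1) * ‖x i.castSucc‖ + θ ^ (K + 2) * ‖x (Fin.last _)‖ =
      θ * ‖x 0‖ + θ * UU θ x := by
  have h1 := Fin.sum_univ_castSucc (fun j : Fin (K + 2) => θ ^ ((j : ℕ) + 1) * ‖x j‖)
  have h2 := Fin.sum_univ_succ (fun j : Fin (K + 2) => θ ^ ((j : ℕ) + 1) * ‖x j‖)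
  simp only [Fin.val_castSucc, Fin.val_last, Fin.val_zero, Fin.val_succ, zero_add, pow_one]
    at h1 h2
  rw [← h1, h2, UU, Finset.mul_sum]
  congr 1
  refine Finset.sum_congr rfl fun i _ => ?_
  ring

theorem UU_single {K : ℕ} {θ : ℝ} (h : 0 ≤ θ) (x : VK K) (i : Fin (K + 1)) :
    θ ^ ((i : ℕ) + 1) * ‖x i.succ‖ ≤ UU θ x :=
  Finset.single_le_sum (f := fun i : Fin (K + 1) => θ ^ ((i : ℕ) + 1) * ‖x i.succ‖)
    (fun _ _ => by positivity) (Finset.mem_univ i)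

/-- The seminorm on the coefficient space. -/
noncomputable def pK (K : ℕ) (θ : ℝ) (h : 0 ≤ θ) : Seminorm ℂ (VK K) :=
  Seminorm.of (fun x => max (‖x 0‖ + tau K / 2 * UU 2 x) (UU θ x / 2))
    (fun x y => by
      have a1 := UU_add (K := K) (θ := 2) (by norm_num) x y
      have a2 := UU_add h x y
      have a3 : ‖(x + y) 0‖ ≤ ‖x 0‖ + ‖y 0‖ := norm_add_le _ _
      have a4 := tau_pos K
      have a5 : tau K / 2 * UU 2 (x + y) ≤ tau K / 2 * (UU 2 x + UU 2 y) := by gcongr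
      have b1 := le_max_left (‖x 0‖ + tau K / 2 * UU 2 x) (UU θ x / 2)
      have b2 := le_max_right (‖x 0‖ + tau K / 2 * UU 2 x) (UU θ x / 2)
      have b3 := le_max_left (‖y 0‖ + tau K / 2 * UU 2 y) (UU θ y / 2)
      have b4 := le_max_right (‖y 0‖ + tau K / 2 * UU 2 y) (UU θ y / 2)
      apply max_le <;> linarith)
    (fun a x => by
      rw [UU_smul, UU_smul, Pi.smul_apply, norm_smul, mul_max_of_nonneg _ _ (norm_nonneg a)]
      congr 1 <;> ring)

theorem pK_apply (K : ℕ) (θ : ℝ) (h : 0 ≤ θ) (x : VK K) :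
    pK K θ h x = max (‖x 0‖ + tau K / 2 * UU 2 x) (UU θ x / 2) := rfl

variable {K : ℕ} {θ : ℝ} (h0 : 0 ≤ θ) (h1 : 1 ≤ θ) (h2 : θ ≤ 2)

theorem pK_first (x : VK K) : ‖x 0‖ + tau K / 2 * UU 2 x ≤ pK K θ h0 x := le_max_left _ _

theorem pK_zero (x : VK K) : ‖x 0‖ ≤ pK K θ h0 x := by
  have a1 := pK_first h0 x
  have a2 := tau_pos K
  have a3 := UU_nonneg (θ := 2) (by norm_num) x
  have : 0 ≤ tau K / 2 * UU 2 x := by positivity
  linarith

theorem pK_UU (x : VK K) : UU θ x ≤ 2 * pK K θ h0 x := by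
  have : UU θ x / 2 ≤ pK K θ h0 x := le_max_right _ _
  linarith

include h1 in
theorem pK_le (x : VK K) : pK K θ h0 x ≤ ‖x 0‖ + UU θ x := by
  rw [pK_apply]
  have a1 := UU_nonneg h0 x
  have a2 := norm_nonneg (x 0)
  refine max_le ?_ (by linarith)
  have : tau K / 2 * UU 2 x ≤ UU θ x := by
    unfold UU
    rw [Finset.mul_sum]
    refine Finset.sum_le_sum fun i _ => ?_
    have b1 := tau_pow (K := K) (θ := 2) (by norm_num) le_rfl (j := (i : ℕ) + 1)
      (by have := i.2; omega)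
    have b2 : 1 ≤ θ ^ ((i : ℕ) + 1) := one_le_pow₀ h1
    have b3 := norm_nonneg (x i.succ)
    nlinarith
  linarith

theorem norm_one_sub_tau (K : ℕ) : ‖(1 - tau K : ℂ)‖ = 1 - tau K := by
  have : (1 - tau K : ℂ) = ((1 - tau K : ℝ) : ℂ) := by push_cast; rfl
  rw [this, Complex.norm_real, Real.norm_of_nonneg (by have := tau_le K; linarith)]

theorem UU_Sp {α : ℂ} (hα : ‖α‖ = 4 / 5) {θ : ℝ} (h0 : 0 ≤ θ) (x : VK K) :
    UU θ (Sp K α x) ≤ 4 / 5 * (UU θ x + 1 / 16 *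
      (θ * ‖x 0‖ + θ * UU θ x - θ ^ (K + 2) * ‖x (Fin.last _)‖)) := by
  rw [← UU_shift, add_sub_cancel_right]
  unfold UU
  rw [Finset.mul_sum, ← Finset.sum_add_distrib, Finset.mul_sum]
  refine Finset.sum_le_sum fun i _ => ?_
  rw [Sp_succ, norm_mul, hα]
  have a1 : ‖x i.succ - 1 / 16 * x i.castSucc‖ ≤ ‖x i.succ‖ + 1 / 16 * ‖x i.castSucc‖ := by
    refine (norm_sub_le _ _).trans ?_
    rw [norm_mul]
    norm_num
  have a2 : 0 ≤ θ ^ ((i : ℕ) + 1) := by positivity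
  nlinarith

include h2 in
theorem pK_Sp {α : ℂ} (hα : ‖α‖ = 4 / 5) (x : VK K) :
    pK K θ h0 (Sp K α x) ≤ (1 - tau K / 20) * pK K θ h0 x := by
  have a1 := pK_first h0 x
  have a2 := pK_UU h0 x
  have a3 := pK_zero h0 x
  have a4 := tau_pos K
  have a5 := tau_le K
  have a6 := UU_Sp hα h0 x
  have a7 := UU_Sp hα (θ := 2) (by norm_num) x
  have a8 : ‖Sp K α x 0‖ ≤ (1 - tau K) * ‖x 0‖ + 1 / 20 * ‖x (Fin.last _)‖ := by
    rw [Sp_zero]
    refine (norm_sub_le _ _).trans ?_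
    rw [norm_mul, norm_mul, norm_mul, hα, norm_one_sub_tau]
    norm_num
  have a9 := tau_mul K
  have b1 := norm_nonneg (x 0)
  have b2 := norm_nonneg (x (Fin.last _))
  have b3 := UU_nonneg (θ := 2) (by norm_num) x
  have b4 := UU_nonneg h0 x
  rw [pK_apply K θ h0 (Sp K α x)]
  apply max_le
  · have c1 : tau K / 2 * UU 2 (Sp K α x) ≤ tau K / 2 * (4 / 5 * (UU 2 x + 1 / 16 *
      (2 * ‖x 0‖ + 2 * UU 2 x - 2 ^ (K + 2) * ‖x (Fin.last _)‖))) := by gcongr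
    have c2 : tau K * (2 ^ (K + 2) * ‖x (Fin.last _)‖) = 2 * ‖x (Fin.last _)‖ := by
      rw [pow_succ]
      linear_combination (2 * ‖x (Fin.last _)‖) * a9
    have c3 : (1 - tau K / 20) * (‖x 0‖ + tau K / 2 * UU 2 x) ≤
        (1 - tau K / 20) * pK K θ h0 x := by gcongr; linarith
    have c4 : 0 ≤ tau K * UU 2 x := by positivity
    have c5 : 0 ≤ tau K * ‖x 0‖ := by positivity
    nlinarith
  · have c1 : 0 ≤ θ ^ (K + 2) * ‖x (Fin.last _)‖ := by positivity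
    have c2 : θ * ‖x 0‖ ≤ 2 * ‖x 0‖ := by gcongr
    have c3 : θ * UU θ x ≤ 2 * UU θ x := by gcongr
    have c4 := apply_nonneg (pK K θ h0) x
    nlinarith

theorem pK_Sn (x : VK K) : pK K θ h0 (Sn K x) ≤ (1 - tau K / 20) * pK K θ h0 x := by
  have e : ∀ t : ℝ, UU t (Sn K x) = 0 := fun t => by simp [UU, Sn_succ]
  have a3 := pK_zero h0 x
  have a4 := tau_pos K
  have a5 := tau_le K
  have b1 := norm_nonneg (x 0)
  rw [pK_apply K θ h0 (Sn K x), e, e, Sn_zero, norm_mul, norm_one_sub_tau]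
  apply max_le <;> nlinarith

include h2 in
theorem pK_SK {al : Fin 2 → ℂ} (hal : ∀ t, ‖al t‖ = 4 / 5) (l : Lt) (x : VK K) :
    pK K θ h0 (SK K al l x) ≤ (1 - tau K / 20) * pK K θ h0 x := by
  unfold SK
  split_ifs
  · exact pK_Sp h0 h2 (hal _) x
  · exact pK_Sn h0 x

include h1 h2 in
theorem pK_inv (x y : VK K) (hy0 : y 0 = tau K * x 0 + 1 / 16 * x (Fin.last _))
    (hy : ∀ i : Fin (K + 1), y i.succ = 1 / 16 * x i.castSucc) :
    pK K θ h0 x ≤ 544 * pK K θ h0 y + 16 * θ ^ (K + 1) * ‖y 0‖ := by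
  have a1 := pK_le h0 h1 x
  have a2 := pK_UU h0 y
  have a3 := UU_shift θ x
  have a4 : UU θ y = 1 / 16 * ∑ i : Fin (K + 1), θ ^ ((i : ℕ) + 1) * ‖x i.castSucc‖ := by
    unfold UU
    rw [Finset.mul_sum]
    refine Finset.sum_congr rfl fun i _ => ?_
    rw [hy, norm_mul]
    norm_num
    ring
  have a5 : ‖x 0‖ ≤ 16 * UU θ y := by
    have b1 := UU_single h0 y 0
    rw [hy, norm_mul] at b1
    norm_num at b1
    have b2 := norm_nonneg (x 0)
    nlinarith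
  have a6 : ‖x (Fin.last _)‖ ≤ 16 * (‖y 0‖ + tau K * ‖x 0‖) := by
    have e : x (Fin.last _) = 16 * (y 0 - tau K * x 0) := by rw [hy0]; ring
    rw [e, norm_mul]
    have := norm_sub_le (y 0) (tau K * x 0)
    rw [norm_mul, Complex.norm_real, Real.norm_of_nonneg (tau_pos K).le] at this
    norm_num
    linarith
  have a7 := tau_pow (K := K) h1 h2 (j := K + 1) le_rfl
  have b1 := UU_nonneg h0 y
  have b2 := norm_nonneg (x 0)
  have b3 : 0 ≤ θ ^ (K + 1) := by positivity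
  have b4 : θ * (‖x 0‖ + UU θ x) ≤ θ * (16 * UU θ y + θ ^ (K + 1) * ‖x (Fin.last _)‖) := by
    have : θ ^ (K + 2) = θ * θ ^ (K + 1) := by ring
    rw [this] at a3
    nlinarith
  have b5 := le_of_mul_le_mul_left b4 (by linarith)
  have b6 : θ ^ (K + 1) * ‖x (Fin.last _)‖ ≤ θ ^ (K + 1) * (16 * (‖y 0‖ + tau K * ‖x 0‖)) := by
    gcongr
  have b7 : tau K * θ ^ (K + 1) * ‖x 0‖ ≤ 1 * ‖x 0‖ := by gcongr
  nlinarith

theorem SK_zero_sub {al : Fin 2 → ℂ} (hal : ∀ t, ‖al t‖ = 4 / 5) (l : Lt) (x : VK K) :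
    ‖SK K al l x 0 - x 0‖ ≤ 2 * tau K * pK K 2 (by norm_num) x := by
  have a1 := pK_zero (θ := 2) (by norm_num) x
  have a2 := pK_UU (θ := 2) (by norm_num) x
  have a3 := UU_single (θ := 2) (by norm_num) x (Fin.last K)
  rw [Fin.succ_last, Fin.val_last] at a3
  have a4 := tau_pos K
  have a5 := tau_mul K
  have a6 : ‖x (Fin.last _)‖ ≤ 2 * tau K * pK K 2 (by norm_num) x := by
    have : tau K * (2 ^ (K + 1) * ‖x (Fin.last (K + 1))‖) ≤
        tau K * (2 * pK K 2 (by norm_num) x) :=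
      mul_le_mul_of_nonneg_left (a3.trans a2) a4.le
    have e : tau K * (2 ^ (K + 1) * ‖x (Fin.last (K + 1))‖) = ‖x (Fin.last (K + 1))‖ := by
      rw [← mul_assoc, a5, one_mul]
    linarith
  have a7 : ‖(tau K : ℂ) * x 0‖ ≤ tau K * pK K 2 (by norm_num) x := by
    rw [norm_mul, Complex.norm_real, Real.norm_of_nonneg a4.le]
    gcongr
  have a8 : 0 ≤ tau K * pK K 2 (by norm_num) x := mul_nonneg a4.le (apply_nonneg _ _)
  unfold SK
  split_ifs
  · have e : Sp K (al l.1) x 0 - x 0 = -(tau K * x 0) - al l.1 * (1 / 16) * x (Fin.last _) := by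
      rw [Sp_zero]; ring
    rw [e]
    refine (norm_sub_le _ _).trans ?_
    rw [norm_neg, norm_mul (al l.1 * (1 / 16)), norm_mul (al l.1), hal]
    norm_num
    norm_num at a7
    linarith
  · have e : Sn K x 0 - x 0 = -(tau K * x 0) := by rw [Sn_zero]; ring
    rw [e, norm_neg]
    linarith

theorem Sp_Sn_zero (α : ℂ) (v : VK K) : ‖(v - Sp K α (Sn K v)) 0‖ ≤ 2 * tau K * ‖v 0‖ := by
  have e : (v - Sp K α (Sn K v)) 0 = ((tau K * (2 - tau K) : ℝ) : ℂ) * v 0 := by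
    rw [Pi.sub_apply, Sp_zero, Sn_zero, ← Fin.succ_last, Sn_succ]
    push_cast
    ring
  have a4 := tau_pos K
  have a5 := tau_le K
  rw [e, norm_mul, Complex.norm_real, Real.norm_of_nonneg (by nlinarith)]
  have := norm_nonneg (v 0)
  nlinarith [mul_nonneg (mul_nonneg a4.le a4.le) this]

end Pool.Agent.H551Z.ND
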