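import Mathlib
import Pool.Agent.H551Z.NDD

/-! The finitely supported case. -/

set_option autoImplicit false

namespace Pool.Agent.H551Z.ND

open FreeGroup
open Pool.Agent.Results.MP_11aa79_an.NotFactor

/-- Square summable vector valued functions. -/
def HH (K : ℕ) : Submodule ℂ (G → VK K) where
  carrier := {φ | ∀ j, Memℓp (fun y => φ y j) 2}
  add_mem' := fun ha hb j => (ha j).add (hb j)
  zero_mem' := fun _ => zero_memℓp
  smul_mem' := fun c _ ha j => (ha j).const_smul c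

theorem HH_fin {K : ℕ} {φ : G → VK K} (F : Finset G) (h : ∀ y, y ∉ F → φ y = 0) : φ ∈ HH K := by
  intro j
  refine (memℓp_zero (F.finite_toSet.subset ?_)).of_exponent_ge (by norm_num)
  intro y hy
  by_contra hc
  exact hy (by simp [h y hc])

theorem op_lam_coord {K : ℕ} (x : MonoidAlgebra ℂ G) (φ : G → VK K) (y : G) (j : Fin (K + 2)) :
    op (lam (VK K)) x φ y j = op (lam ℂ) x (fun y => φ y j) y := by
  simp only [op_apply, Finset.sum_apply, Pi.smul_apply, lam_apply]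

theorem HH_lam {K : ℕ} (x : MonoidAlgebra ℂ G) {φ : G → VK K} (h : φ ∈ HH K) :
    op (lam (VK K)) x φ ∈ HH K := by
  intro j
  have e : (fun y => op (lam (VK K)) x φ y j) =
      (Kap.conv x.coeff (⟨fun y => φ y j, h j⟩ : Kap.H G) : G → ℂ) := by
    funext y
    rw [op_lam_coord, conv_eq]
  rw [e]
  exact lp.memℓp _

theorem HH_rep {K : ℕ} (S : Lt → VK K →ₗ[ℂ] VK K) (x : MonoidAlgebra ℂ G) {φ : G → VK K}
    (h : φ ∈ HH K) : op (rep S) x φ ∈ HH K := by
  obtain ⟨F, hF⟩ := op_fr S x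
  have h1 : op (rep S) x φ - op (lam (VK K)) x φ ∈ HH K :=
    HH_fin F fun y hy => by rw [Pi.sub_apply, hF φ y hy, sub_self]
  simpa using (HH K).add_mem h1 (HH_lam x h)

theorem surj_of_inj {K : ℕ} (S : Lt → VK K →ₗ[ℂ] VK K) (x : MonoidAlgebra ℂ G)
    (hx : Function.Bijective (Kap.conv x.coeff))
    (hi : ∀ φ ∈ HH K, op (rep S) x φ = 0 → φ = 0) :
    ∀ h ∈ HH K, ∃ φ ∈ HH K, op (rep S) x φ = h := by
  obtain ⟨F, hF⟩ := op_fr S x
  set T : Module.End ℂ (HH K) := (op (rep S) x).restrict fun φ h => HH_rep S x h with hT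
  set T' : Module.End ℂ (HH K) := (op (lam (VK K)) x).restrict fun φ h => HH_lam x h with hT'
  have hb : Function.Bijective T' := by
    constructor
    · rw [injective_iff_map_eq_zero]
      intro φ hφ
      have h1 : op (lam (VK K)) x φ = 0 := congrArg Subtype.val hφ
      ext y j
      have h2 : Kap.conv x.coeff (⟨fun y => φ.1 y j, φ.2 j⟩ : Kap.H G) = Kap.conv x.coeff 0 := by
        ext t
        rw [conv_eq, map_zero]
        change op (lam ℂ) x (fun y => φ.1 y j) t = 0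
        rw [← op_lam_coord, h1]
        rfl
      have h3 := congrArg (fun f : Kap.H G => f y) (hx.1 h2)
      exact h3
    · intro h
      choose f hf using fun j => hx.2 (⟨fun y => h.1 y j, h.2 j⟩ : Kap.H G)
      refine ⟨⟨fun y j => f j y, fun j => lp.memℓp (f j)⟩, ?_⟩
      ext y j
      change op (lam (VK K)) x (fun y j => f j y) y j = _
      rw [op_lam_coord, ← conv_eq, hf]
  let U : Submodule ℂ (HH K) :=
    { carrier := {φ | ∀ y, y ∉ F → φ.1 y = 0}
      add_mem' := fun ha hb y hy => by simp [ha y hy, hb y hy]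
      zero_mem' := fun _ _ => rfl
      smul_mem' := fun c _ ha y hy => by simp [ha y hy] }
  have hfin : FiniteDimensional ℂ U := by
    let r : U →ₗ[ℂ] (F → VK K) :=
      { toFun := fun φ y => φ.1.1 y
        map_add' := fun _ _ => rfl
        map_smul' := fun _ _ => rfl }
    refine FiniteDimensional.of_injective r ?_
    intro a b hab
    ext y j
    by_cases hy : y ∈ F
    · exact congrFun (congrFun hab ⟨y, hy⟩) j
    · rw [a.2 y hy, b.2 y hy]
  have hs := fredholm T T' hb U (fun φ y hy => by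
    change op (rep S) x φ y - op (lam (VK K)) x φ y = 0
    rw [hF _ y hy, sub_self]) (by
    rw [injective_iff_map_eq_zero]
    intro φ hφ
    exact Subtype.ext (hi φ.1 φ.2 (congrArg Subtype.val hφ)))
  intro h hh
  obtain ⟨φ, hφ⟩ := hs ⟨h, hh⟩
  exact ⟨φ.1, φ.2, congrArg Subtype.val hφ⟩

theorem Bd.op {V : Type} [AddCommGroup V] [Module ℂ V] {S : Lt → V →ₗ[ℂ] V} {p : Seminorm ℂ V}
    {φ : G → V} {M : ℝ} (h : Bd S p φ M) (h0 : 0 ≤ M) (x : MonoidAlgebra ℂ G) :
    Bd S p (op (ND.rep S) x φ) (nrm x * M) := by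
  rw [op_apply]
  exact h.sum S p h0 _ _

theorem halve {V : Type} [AddCommGroup V] [Module ℂ V] {S : Lt → V →ₗ[ℂ] V} {p : Seminorm ℂ V}
    {φ : G → V} {c : ℝ} (hc : 0 ≤ c) (hb : ∃ M, Bd S p φ M)
    (hs : ∀ M, 0 ≤ M → Bd S p φ M → Bd S p φ (c + M / 2)) : Bd S p φ (2 * c) := by
  obtain ⟨M0, hM0⟩ := hb
  set Z : Set ℝ := {M | 0 ≤ M ∧ Bd S p φ M} with hZ
  have hne : Z.Nonempty := ⟨|M0|, abs_nonneg _, fun s hs => (hM0 s hs).trans (by rw [sq_abs])⟩
  have hbd : BddBelow Z := ⟨0, fun M hM => hM.1⟩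
  have h0 : 0 ≤ sInf Z := le_csInf hne fun M hM => hM.1
  have h1 : Bd S p φ (sInf Z) := by
    refine Bd.of_forall S p fun M' hM' => ?_
    obtain ⟨M, hM, hM2⟩ := exists_lt_of_csInf_lt hne hM'
    exact hM.2.mono S p hM.1 hM2.le
  have h2 : sInf Z ≤ c + sInf Z / 2 := csInf_le hbd ⟨by linarith, hs _ h0 h1⟩
  exact h1.mono S p h0 (by linarith)

/-- The augmentation character. -/
noncomputable def aug : MonoidAlgebra ℂ G →ₐ[ℂ] ℂ := MonoidAlgebra.lift ℂ ℂ G 1

theorem aug_eq (x : MonoidAlgebra ℂ G) : aug x = ∑ g ∈ x.coeff.support, x.coeff g := by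
  simp [aug, MonoidAlgebra.lift_apply, Finsupp.sum]

/-- The first moment. -/
noncomputable def len (x : MonoidAlgebra ℂ G) : ℝ :=
  ∑ g ∈ x.coeff.support, ‖x.coeff g‖ * norm g

theorem len_nonneg (x : MonoidAlgebra ℂ G) : 0 ≤ len x :=
  Finset.sum_nonneg fun _ _ => by positivity

section Model

variable {K : ℕ} {al : Fin 2 → ℂ} (hal : ∀ t, ‖al t‖ = 4 / 5)

include hal in
theorem hS1 {θ : ℝ} (h0 : 0 ≤ θ) (h2 : θ ≤ 2) (l : Lt) (v : VK K) :
    pK K θ h0 (SK K al l v) ≤ pK K θ h0 v :=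
  hS_one (SK K al) (pK K θ h0) (ρ := 1 - tau K / 20) (by have := tau_pos K; linarith)
    (pK_SK h0 h2 hal) l v

include hal in
theorem apK {θ : ℝ} (h0 : 0 ≤ θ) (h2 : θ ≤ 2) :
    ∃ C : ℝ, 0 ≤ C ∧ ∀ (φ : G → VK K) (Mx : ℝ), 0 ≤ Mx →
      (∀ B : Finset G, (1 : G) ∉ B → C * ∑ y ∈ B, pK K θ h0 (φ y) ^ 2 ≤ Mx ^ 2) →
      Bd (SK K al) (pK K θ h0) φ (pK K θ h0 (φ 1) + 4 * Mx) := by
  have a1 := tau_pos K
  have a2 := tau_le K
  have hκ : 0 < 1 - (1 - tau K / 20) ^ 2 := by nlinarith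
  refine ⟨4 / (1 - (1 - tau K / 20) ^ 2), by positivity, fun φ Mx hM0 hM => ?_⟩
  exact apriori (SK K al) (pK K θ h0) (ρ := 1 - tau K / 20) (by linarith) (by linarith)
    (div_mul_cancel₀ _ hκ.ne') (pK_SK h0 h2 hal) φ hM0 hM

include hal in
theorem bd_of_HH {θ : ℝ} (h0 : 0 ≤ θ) (h1 : 1 ≤ θ) (h2 : θ ≤ 2) {φ : G → VK K} (h : φ ∈ HH K) :
    ∃ M, Bd (SK K al) (pK K θ h0) φ M := by
  obtain ⟨C, hC, hC2⟩ := apK (K := K) hal h0 h2
  have hs : ∀ j, Summable fun y => ‖φ y j‖ ^ 2 := fun j => (Kap.memH_iff _).1 (h j)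
  have hsum : Summable fun y => pK K θ h0 (φ y) ^ 2 := by
    have h3 : Summable fun y => 2 * ‖φ y 0‖ ^ 2 + 2 * ((K + 1 : ℕ) *
        ∑ i : Fin (K + 1), (θ ^ ((i : ℕ) + 1)) ^ 2 * ‖φ y i.succ‖ ^ 2) :=
      ((hs 0).mul_left 2).add (((summable_sum fun i _ => (hs _).mul_left _).mul_left _).mul_left 2)
    refine Summable.of_nonneg_of_le (fun _ => sq_nonneg _) (fun y => ?_) h3
    have a1 := pK_le h0 h1 (φ y)
    have a2 := apply_nonneg (pK K θ h0) (φ y)
    have a3 : pK K θ h0 (φ y) ^ 2 ≤ (‖φ y 0‖ + UU θ (φ y)) ^ 2 := by gcongr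
    have a4 := sq_sum_le_card_mul_sum_sq (s := Finset.univ)
      (f := fun i : Fin (K + 1) => θ ^ ((i : ℕ) + 1) * ‖φ y i.succ‖)
    simp only [Finset.card_univ, Fintype.card_fin, mul_pow] at a4
    change UU θ (φ y) ^ 2 ≤ _ at a4
    nlinarith [sq_nonneg (‖φ y 0‖ - UU θ (φ y))]
  refine ⟨_, hC2 φ (Real.sqrt (C * ∑' y, pK K θ h0 (φ y) ^ 2)) (Real.sqrt_nonneg _) ?_⟩
  intro B _
  rw [Real.sq_sqrt (mul_nonneg hC (tsum_nonneg fun _ => sq_nonneg _))]
  gcongr
  exact hsum.sum_le_tsum B fun _ _ => sq_nonneg _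

/-- The base vector. -/
noncomputable def xi (K : ℕ) : G → VK K := by
  classical
  exact fun y => if y = 1 then Fin.cons 1 (fun _ => 0) else 0

theorem xi_one (K : ℕ) : xi K 1 0 = 1 := by simp [xi]

theorem xi_HH (K : ℕ) : xi K ∈ HH K := HH_fin {1} fun y hy => by
  have : y ≠ 1 := by simpa using hy
  simp [xi, this]

include hal in
theorem bd_xi {θ : ℝ} (h0 : 0 ≤ θ) (h1 : 1 ≤ θ) (h2 : θ ≤ 2) :
    Bd (SK K al) (pK K θ h0) (xi K) 1 := by
  obtain ⟨C, hC, hC2⟩ := apK (K := K) hal h0 h2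
  have h3 := hC2 (xi K) 0 le_rfl (by
    intro B hB
    have : ∑ y ∈ B, pK K θ h0 (xi K y) ^ 2 = 0 := by
      refine Finset.sum_eq_zero fun y hy => ?_
      have : y ≠ 1 := fun h => hB (h ▸ hy)
      simp [xi, this]
    rw [this]; simp)
  refine h3.mono _ _ (by positivity) ?_
  have := pK_le h0 h1 (xi K 1)
  have e : UU θ (xi K 1) = 0 := by simp [UU, xi]
  rw [e, xi_one] at this
  simpa using this

include hal in
theorem inv_rep {φ : G → VK K} {M : ℝ} (h0 : 0 ≤ M)
    (h : Bd (SK K al) (pK K 2 (by norm_num)) φ M) :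
    ∀ g : G, ‖rep (SK K al) g φ 1 0 - φ 1 0‖ ≤ 4 * tau K * M * norm g := by
  have hτ := tau_pos K
  refine word_ind (by simp) ?_
  intro l g hg ih
  have e1 : rep (SK K al) g φ 1 = Tot (SK K al) φ g⁻¹ := by simp [Tot]
  have e2 : rep (SK K al) (lt l * g) φ 1 = Tot (SK K al) φ (g⁻¹ * lt (nl l)) := by
    simp [Tot, lt_nl]
  have e3 := Tot_step (SK K al) φ g⁻¹ (nl l)
  have e4 := Dd_back (SK K al) φ g⁻¹ (nl l)
  set D := Dd (SK K al) φ g⁻¹ (nl l) with hD
  set D' := Dd (SK K al) φ (g⁻¹ * lt (nl l)) (nl (nl l)) with hD'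
  have a1 := SK_zero_sub hal (nl l) D
  have a2 := SK_zero_sub hal (nl (nl l)) D'
  have a3 : pK K 2 (by norm_num) D ≤ M := h.dd _ _ h0 _ _
  have a4 : pK K 2 (by norm_num) D' ≤ M := h.dd _ _ h0 _ _
  have e5 : Tot (SK K al) φ (g⁻¹ * lt (nl l)) 0 - φ 1 0 = (Tot (SK K al) φ g⁻¹ 0 - φ 1 0) +
      (SK K al (nl (nl l)) D' 0 - D' 0) - (SK K al (nl l) D 0 - D 0) := by
    have e6 : D' 0 = Tot (SK K al) φ g⁻¹ 0 - SK K al (nl l) D 0 := by rw [e4]; rfl
    have e7 : Tot (SK K al) φ (g⁻¹ * lt (nl l)) 0 = D 0 + SK K al (nl (nl l)) D' 0 := by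
      rw [e3]; rfl
    rw [e7, e6]; ring
  rw [e1] at ih
  rw [e2, e5, norm_lt_mul hg]
  refine (norm_sub_le _ _).trans ?_
  have a5 := norm_add_le (Tot (SK K al) φ g⁻¹ 0 - φ 1 0) (SK K al (nl (nl l)) D' 0 - D' 0)
  have a6 : 2 * tau K * pK K 2 (by norm_num) D ≤ 2 * tau K * M := by gcongr
  have a7 : 2 * tau K * pK K 2 (by norm_num) D' ≤ 2 * tau K * M := by gcongr
  push_cast
  linarith

include hal in
theorem inv_op {φ : G → VK K} {M : ℝ} (h0 : 0 ≤ M)
    (h : Bd (SK K al) (pK K 2 (by norm_num)) φ M) {x : MonoidAlgebra ℂ G} (hx : aug x = 0) :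
    ‖op (rep (SK K al)) x φ 1 0‖ ≤ 4 * tau K * M * len x := by
  have e : op (rep (SK K al)) x φ 1 0 =
      ∑ g ∈ x.coeff.support, x.coeff g * (rep (SK K al) g φ 1 0 - φ 1 0) := by
    simp only [mul_sub]
    rw [Finset.sum_sub_distrib, ← Finset.sum_mul, ← aug_eq, hx, zero_mul, sub_zero, op_apply]
    simp only [Finset.sum_apply, Pi.smul_apply, smul_eq_mul]
  rw [e, len, Finset.mul_sum]
  refine (norm_sum_le _ _).trans (Finset.sum_le_sum fun g _ => ?_)
  rw [norm_mul]
  have := inv_rep hal h0 h g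
  have h2 := norm_nonneg (x.coeff g)
  nlinarith

variable {A B : ℂ} (hA : ‖A‖ = 5 / 8) (hB : ‖B‖ = 5 / 8) (hAB : A + B = 1)
  (hab : A * al 0 + B * al 1 = 1)

include hal hA hB hAB hab in
theorem est {θ : ℝ} (h0 : 0 ≤ θ) (h1 : 1 ≤ θ) (h2 : θ ≤ 2) {φ h : G → VK K} (hφ : φ ∈ HH K)
    (heq : op (rep (SK K al)) (zA A B) φ = h) {n : ℝ} (hn : 0 ≤ n)
    (hh : Bd (SK K al) (pK K θ h0) h n) :
    Bd (SK K al) (pK K θ h0) φ (1000 * (14001 * n + 16 * θ ^ (K + 1) * ‖h 1 0‖)) := by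
  set S := SK K al with hS
  set p := pK K θ h0 with hp
  have hS' : ∀ l v, p (S l v) ≤ p v := hS1 hal h0 h2
  have heq' : φ = h + A • rep S (lt (0, true)) φ + B • rep S (lt (1, true)) φ := by
    rw [← heq, op_zA]; abel
  obtain ⟨hv, hm⟩ := main_est S p hS' hA hB heq' (bd_of_HH hal h0 h1 h2 hφ) hn hh
  set y : VK K := φ 1 - A • Sp K (al 0) (φ 1) - B • Sp K (al 1) (φ 1) with hy
  have hS0 : ∀ t : Fin 2, S (t, true) = Sp K (al t) := fun t => rfl
  have hSn : ∀ t : Fin 2, S (t, false) = Sn K := fun t => rfl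
  set w : Fin 2 → VK K := fun t => φ (lt (t, false)) - Sp K (al t) (Sn K (φ (lt (t, false))))
    with hw
  have hR : ∀ t : Fin 2, rep S (lt (t, true)) φ 1 = w t + Sp K (al t) (φ 1) := by
    intro t
    rw [rep_lt, R_one, ← lt_nl]
    change φ (lt (t, false)) + S (t, true) (φ 1 - S (t, false) (φ (lt (t, false)))) = _
    rw [hS0, hSn, map_sub]
    simp only [hw]
    abel
  have hY : y = h 1 + A • w 0 + B • w 1 := by
    have e := congrFun heq' 1
    simp only [Pi.add_apply, Pi.smul_apply, hR, smul_add] at e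
    rw [hy]
    nth_rewrite 1 [e]
    abel
  have hw1 : ∀ t, p (w t) ≤ 18 * n := by
    intro t
    have a1 := map_sub_le_add p (φ (lt (t, false))) (Sp K (al t) (Sn K (φ (lt (t, false)))))
    have a2 := hS' (t, true) (Sn K (φ (lt (t, false))))
    have a3 := hS' (t, false) (φ (lt (t, false)))
    rw [hS0] at a2
    rw [hSn] at a3
    have a4 := hv t
    change p (φ (lt (t, false)) - Sp K (al t) (Sn K (φ (lt (t, false))))) ≤ _
    linarith
  have hτ := tau_pos K
  have hw2 : ∀ t, ‖w t 0‖ ≤ 18 * tau K * n := by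
    intro t
    have a1 := Sp_Sn_zero (al t) (φ (lt (t, false)))
    have a2 := pK_zero h0 (φ (lt (t, false)))
    have a3 := hv t
    have a4 : 2 * tau K * ‖φ (lt (t, false)) 0‖ ≤ 2 * tau K * (9 * n) := by
      gcongr
      exact a2.trans a3
    change ‖(φ (lt (t, false)) - Sp K (al t) (Sn K (φ (lt (t, false))))) 0‖ ≤ _
    linarith
  have hpy : p y ≤ 25 * n := by
    rw [hY]
    have a1 := map_add_le_add p (h 1 + A • w 0) (B • w 1)
    have a2 := map_add_le_add p (h 1) (A • w 0)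
    rw [map_smul_eq_mul, hA] at a2
    rw [map_smul_eq_mul, hB] at a1
    have a3 := val_le S p hS' hh hn 1
    have a4 := hw1 0
    have a5 := hw1 1
    linarith
  have hy0 : ‖y 0‖ ≤ ‖h 1 0‖ + 23 * tau K * n := by
    rw [hY]
    simp only [Pi.add_apply, Pi.smul_apply, smul_eq_mul]
    refine norm_add₃_le.trans ?_
    rw [norm_mul, norm_mul, hA, hB]
    have a4 := hw2 0
    have a5 := hw2 1
    have : 0 ≤ tau K * n := by positivity
    linarith
  have hinv := pK_inv h0 h1 h2 (φ 1) y (by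
    simp only [hy, Pi.sub_apply, Pi.smul_apply, smul_eq_mul, Sp_zero]
    linear_combination (-(1 - tau K) * φ 1 0) * hAB + (1 / 16 * φ 1 (Fin.last _)) * hab) (by
    intro i
    simp only [hy, Pi.sub_apply, Pi.smul_apply, smul_eq_mul, Sp_succ]
    linear_combination (-(φ 1 i.succ - 1 / 16 * φ 1 i.castSucc)) * hab)
  have a7 := tau_pow (K := K) h1 h2 (j := K + 1) le_rfl
  have b3 : 0 ≤ θ ^ (K + 1) := by positivity
  have b4 : θ ^ (K + 1) * ‖y 0‖ ≤ θ ^ (K + 1) * (‖h 1 0‖ + 23 * tau K * n) := by gcongr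
  have b5 : tau K * θ ^ (K + 1) * n ≤ 1 * n := by gcongr
  have hfin : p (φ 1) ≤ 14000 * n + 16 * θ ^ (K + 1) * ‖h 1 0‖ := by
    rw [← hp] at hinv
    nlinarith
  have := hm _ hfin
  convert this using 2
  ring

include hal hA hB hAB hab in
theorem est1 {φ h : G → VK K} (hφ : φ ∈ HH K)
    (heq : op (rep (SK K al)) (zA A B) φ = h) {n : ℝ} (hn : 0 ≤ n)
    (hh : Bd (SK K al) (pK K 1 (by norm_num)) h n) :
    Bd (SK K al) (pK K 1 (by norm_num)) φ (15000000 * n) := by
  have h1 := est hal hA hB hAB hab (θ := 1) (by norm_num) le_rfl (by norm_num) hφ heq hn hh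
  have a1 := val_le _ _ (hS1 hal (θ := 1) (by norm_num) (by norm_num)) hh hn 1
  have a2 := pK_zero (θ := 1) (by norm_num) (h 1)
  refine h1.mono _ _ (by positivity) ?_
  rw [one_pow]
  linarith

include hal hA hB hAB hab in
theorem inj_near {δ : MonoidAlgebra ℂ G} (hδ : nrm δ ≤ 1 / 30000000) :
    ∀ φ ∈ HH K, op (rep (SK K al)) (zA A B - δ) φ = 0 → φ = 0 := by
  intro φ hφ h
  have heq : op (rep (SK K al)) (zA A B) φ = op (rep (SK K al)) δ φ := by
    rw [map_sub, LinearMap.sub_apply, sub_eq_zero] at h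
    exact h
  have h1 := halve (c := 0) le_rfl (bd_of_HH hal (θ := 1) (by norm_num) le_rfl (by norm_num) hφ)
    (fun M hM hb => by
      have := est1 hal hA hB hAB hab hφ heq (mul_nonneg (nrm_nonneg δ) hM) (hb.op hM δ)
      refine this.mono _ _ (by have := nrm_nonneg δ; positivity) ?_
      nlinarith)
  funext y
  have a1 := val_le _ _ (hS1 hal (θ := 1) (by norm_num) (by norm_num)) h1 (by norm_num) y
  have a2 := pK_zero (θ := 1) (by norm_num) (φ y)
  have a3 := pK_UU (θ := 1) (by norm_num) (φ y)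
  funext j
  refine Fin.cases ?_ (fun i => ?_) j
  · exact norm_le_zero_iff.1 (by linarith)
  · have a4 := UU_single (θ := 1) (by norm_num) (φ y) i
    rw [one_pow, one_mul] at a4
    exact norm_le_zero_iff.1 (by linarith)

/-- The constants of the localized parts. -/
noncomputable def cc (u v : ℝ) : ℕ → ℝ
  | 0 => 0
  | n + 1 => u + v * cc u v n

theorem cc_nonneg {u v : ℝ} (hu : 0 ≤ u) (hv : 0 ≤ v) : ∀ n, 0 ≤ cc u v n
  | 0 => le_rfl
  | n + 1 => by have := cc_nonneg hu hv n; unfold cc; positivity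

include hal hA hB hAB hab in
theorem key_ineq {p q : MonoidAlgebra ℂ G} (hp : aug p = 0) (hq : aug q = 0)
    (hδ : nrm (zA A B - p * q) ≤ 1 / 30000000) (n : ℕ) :
    1 ≤ 4 * tau K * cc (15000000 * (nrm p + 4 * len p))
        (15000000 * (nrm (zA A B - p * q) + 4 * len (zA A B - p * q))) n * len q +
      2 * (nrm q * ((1 / 2) ^ n * (30000000 * nrm p))) := by
  set δ := zA A B - p * q with hδdef
  set S := SK K al with hS
  have hδ0 : aug δ = 0 := by
    rw [hδdef, map_sub, _root_.map_mul, hp, zero_mul, sub_zero]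
    simp only [zA, aug, map_sub, _root_.map_one, map_smul, MonoidAlgebra.lift_single]
    simp only [MonoidHom.one_apply, smul_eq_mul, mul_one]
    linear_combination -hAB
  have hpq : zA A B - δ = p * q := by rw [hδdef]; abel
  have hz : zA A B - 0 = zA A B := sub_zero _
  have hn0 : nrm (0 : MonoidAlgebra ℂ G) = 0 := by simp [nrm]
  have b1 := conv_bij hA hB δ (by linarith)
  have b2 := conv_bij hA hB 0 (by rw [hn0]; norm_num)
  have i1 := inj_near (K := K) hal hA hB hAB hab hδ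
  have i2 := inj_near (K := K) hal hA hB hAB hab (δ := 0) (by rw [hn0]; norm_num)
  rw [hpq] at b1 i1
  rw [hz] at b2 i2
  have s2 := surj_of_inj S _ b2 i2
  obtain ⟨φ, hφ, hφ2⟩ := surj_of_inj S q (conv_right_bij b1) (fun φ hφ h => i1 φ hφ (by
    rw [_root_.map_mul, Module.End.mul_apply, h, map_zero])) _ (xi_HH K)
  have heq : op (rep S) (zA A B) φ = op (rep S) p (xi K) + op (rep S) δ φ := by
    rw [← hφ2, ← Module.End.mul_apply, ← _root_.map_mul, ← hpq, map_sub]
    simp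
  have np := nrm_nonneg p
  have nq := nrm_nonneg q
  have nd := nrm_nonneg δ
  have lp' := len_nonneg p
  have lq := len_nonneg q
  have ld := len_nonneg δ
  have hτ := tau_pos K
  have x1 := bd_xi (K := K) hal (θ := 1) (by norm_num) le_rfl (by norm_num)
  have x2 := bd_xi (K := K) hal (θ := 2) (by norm_num) (by norm_num) le_rfl
  have hM : Bd S (pK K 1 (by norm_num)) φ (30000000 * nrm p) := by
    have := halve (c := 15000000 * nrm p) (by positivity)
      (bd_of_HH hal (θ := 1) (by norm_num) le_rfl (by norm_num) hφ) (fun M hM hb => by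
      have h1 := Bd.add _ _ (x1.op zero_le_one p) (hb.op hM δ) (by positivity) (by positivity)
      have := est1 hal hA hB hAB hab hφ heq (by positivity) h1
      refine this.mono _ _ (by positivity) ?_
      nlinarith)
    convert this using 1
    ring
  set u := 15000000 * (nrm p + 4 * len p) with hu
  set v := 15000000 * (nrm δ + 4 * len δ) with hv
  have hcc := cc_nonneg (u := u) (v := v) (by positivity) (by positivity)
  have ind : ∀ m : ℕ, ∃ ψ ∈ HH K, Bd S (pK K 2 (by norm_num)) ψ (cc u v m) ∧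
      Bd S (pK K 1 (by norm_num)) (φ - ψ) ((1 / 2) ^ m * (30000000 * nrm p)) := by
    intro m
    induction m with
    | zero => exact ⟨0, (HH K).zero_mem, Bd.zero _ _, by simpa using hM⟩
    | succ m ih =>
      obtain ⟨ψ, hψ, c1, c2⟩ := ih
      obtain ⟨ψ', hψ', e⟩ := s2 (op (rep S) p (xi K) + op (rep S) δ ψ)
        ((HH K).add_mem (HH_rep S p (xi_HH K)) (HH_rep S δ hψ))
      have hc := hcc m
      refine ⟨ψ', hψ', ?_, ?_⟩
      · have h1 := Bd.add _ _ (x2.op zero_le_one p) (c1.op hc δ) (by positivity) (by positivity)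
        have h2 := est hal hA hB hAB hab (θ := 2) (by norm_num) (by norm_num) le_rfl hψ' e
          (by positivity) h1
        refine h2.mono _ _ (by positivity) ?_
        have d1 := inv_op hal zero_le_one x2 hp
        have d2 := inv_op hal hc c1 hδ0
        have d3 : ‖(op (rep S) p (xi K) + op (rep S) δ ψ) 1 0‖ ≤
            4 * tau K * 1 * len p + 4 * tau K * cc u v m * len δ :=
          (norm_add_le _ _).trans (add_le_add d1 d2)
        have d4 : (2 : ℝ) ^ (K + 1) * ‖(op (rep S) p (xi K) + op (rep S) δ ψ) 1 0‖ ≤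
            2 ^ (K + 1) * (4 * tau K * 1 * len p + 4 * tau K * cc u v m * len δ) := by gcongr
        have d5 : (2 : ℝ) ^ (K + 1) * (4 * tau K * 1 * len p + 4 * tau K * cc u v m * len δ) =
            4 * len p + 4 * (cc u v m * len δ) := by
          linear_combination (4 * len p + 4 * (cc u v m * len δ)) * tau_mul K
        have d6 : cc u v (m + 1) = 15000000 * (nrm p + 4 * len p) +
            15000000 * (nrm δ * cc u v m + 4 * (cc u v m * len δ)) := by
          change u + v * cc u v m = _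
          rw [hu, hv]; ring
        rw [d6]
        have d7 : 0 ≤ cc u v m * len δ := by positivity
        have d8 : 0 ≤ nrm δ * cc u v m := by positivity
        linarith
      · have e2 : op (rep S) (zA A B) (φ - ψ') = op (rep S) δ (φ - ψ) := by
          rw [map_sub, map_sub, heq, e]; abel
        have h0 : (0 : ℝ) ≤ (1 / 2) ^ m * (30000000 * nrm p) := by positivity
        have h2 := est1 hal hA hB hAB hab ((HH K).sub_mem hφ hψ') e2 (by positivity)
          (c2.op h0 δ)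
        refine h2.mono _ _ (by positivity) ?_
        rw [pow_succ]
        nlinarith
  obtain ⟨ψ, -, c1, c2⟩ := ind n
  have h0 : (0 : ℝ) ≤ (1 / 2) ^ n * (30000000 * nrm p) := by positivity
  have f1 := inv_op hal (hcc n) c1 hq
  have f2 := val_le _ _ (hS1 hal (θ := 1) (by norm_num) (by norm_num)) (c2.op h0 q)
    (by positivity) 1
  have f3 := pK_zero (θ := 1) (by norm_num) (op (rep S) q (φ - ψ) 1)
  have f4 : (1 : ℂ) = op (rep S) q ψ 1 0 + op (rep S) q (φ - ψ) 1 0 := by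
    rw [map_sub, hφ2, Pi.sub_apply, Pi.sub_apply, xi_one]
    ring
  have f5 := norm_add_le (op (rep S) q ψ 1 0) (op (rep S) q (φ - ψ) 1 0)
  rw [← f4, NormOneClass.norm_one] at f5
  linarith

end Model

theorem finite_case {al : Fin 2 → ℂ} (hal : ∀ t, ‖al t‖ = 4 / 5) {A B : ℂ} (hA : ‖A‖ = 5 / 8)
    (hB : ‖B‖ = 5 / 8) (hAB : A + B = 1) (hab : A * al 0 + B * al 1 = 1)
    {p q : MonoidAlgebra ℂ G} (hp : aug p = 0) (hq : aug q = 0) :
    1 / 30000000 < nrm (zA A B - p * q) := by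
  by_contra hc
  have hδ := not_lt.1 hc
  have t0 : Filter.Tendsto (fun n : ℕ => ((1 : ℝ) / 2) ^ n) Filter.atTop (nhds 0) :=
    tendsto_pow_atTop_nhds_zero_of_lt_one (by norm_num) (by norm_num)
  have t1 : Filter.Tendsto (fun n : ℕ => 2 * (nrm q * ((1 / 2) ^ n * (30000000 * nrm p))))
      Filter.atTop (nhds (2 * (nrm q * (0 * (30000000 * nrm p))))) :=
    ((t0.mul_const _).const_mul _).const_mul _
  obtain ⟨n, hn⟩ := (t1.eventually (gt_mem_nhds (show 2 * (nrm q * (0 * (30000000 * nrm p))) <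
    1 / 2 by norm_num))).exists
  set c := cc (15000000 * (nrm p + 4 * len p))
    (15000000 * (nrm (zA A B - p * q) + 4 * len (zA A B - p * q))) n with hc
  have t2 : Filter.Tendsto (fun K : ℕ => 4 * tau K * c * len q) Filter.atTop
      (nhds (4 * 0 * c * len q)) := by
    have : Filter.Tendsto tau Filter.atTop (nhds 0) := t0.comp (Filter.tendsto_add_atTop_nat 1)
    exact ((this.const_mul _).mul_const _).mul_const _
  obtain ⟨K, hK⟩ := (t2.eventually (gt_mem_nhds (show 4 * 0 * c * len q < 1 / 2 by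
    norm_num))).exists
  have := key_ineq (K := K) hal hA hB hAB hab hp hq hδ n
  linarith

end Pool.Agent.H551Z.ND
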