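import Mathlib
import Pool.Agent.H551Z.NDE

/-! Passage from finitely supported to absolutely summable functions. -/

set_option autoImplicit false

namespace Pool.Agent.H551Z.ND

open Pool.Agent.Results.MP_11aa79_an.NotFactor

theorem approx {b : G → ℂ} (hb : Summable fun g => ‖b g‖) (hb0 : ∑' g, b g = 0) {η : ℝ}
    (hη : 0 < η) : ∃ p : MonoidAlgebra ℂ G, aug p = 0 ∧ ∑' g, ‖b g - p.coeff g‖ ≤ η := by
  classical
  have t := (tendsto_tsum_compl_atTop_zero (fun g => ‖b g‖)).eventually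
    (gt_mem_nhds (show (0 : ℝ) < η / 2 by positivity))
  obtain ⟨F, hF⟩ := t.exists
  set s : ℂ := ∑ g ∈ F, b g with hs
  refine ⟨∑ g ∈ F, MonoidAlgebra.single g (b g) - MonoidAlgebra.single 1 s, ?_, ?_⟩
  · simp [aug, map_sum, hs]
  · set r : G → ℂ := fun g => if g ∈ F then 0 else b g with hr
    have hrs : Summable fun g => ‖r g‖ := by
      refine Summable.of_nonneg_of_le (fun _ => norm_nonneg _) (fun g => ?_) hb
      simp only [hr]
      split_ifs <;> simp
    have hr1 : ∑' g, ‖r g‖ = ∑' g : {x // x ∉ F}, ‖b g‖ := by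
      have := tsum_subtype ((F : Set G)ᶜ) (fun g => ‖b g‖)
      refine Eq.trans ?_ this.symm
      refine tsum_congr fun g => ?_
      simp only [hr, Set.indicator, Set.mem_compl_iff, Finset.mem_coe]
      split_ifs <;> simp
    have hr2 : s + ∑' g, r g = 0 := by
      have hs3 : ∑' g, (if g ∈ F then b g else 0) = s := by
        rw [tsum_eq_sum (s := F) (fun g hg => if_neg hg)]
        exact Finset.sum_congr rfl fun g hg => if_pos hg
      rw [← hb0, ← hs3,
        ← Summable.tsum_add (summable_of_ne_finset_zero (s := F) fun g hg => if_neg hg)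
          hrs.of_norm]
      refine tsum_congr fun g => ?_
      simp only [hr]
      split_ifs <;> simp
    have hs2 : ‖s‖ ≤ ∑' g, ‖r g‖ := by
      rw [eq_neg_of_add_eq_zero_left hr2, norm_neg]
      exact norm_tsum_le_tsum_norm hrs
    have e : ∀ g, b g - (∑ g ∈ F, MonoidAlgebra.single g (b g) -
        MonoidAlgebra.single (1 : G) s).coeff g = r g + if g = 1 then s else 0 := by
      intro g
      simp only [MonoidAlgebra.coeff_sub, MonoidAlgebra.coeff_sum, MonoidAlgebra.coeff_single,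
        Finsupp.coe_sub, Pi.sub_apply, Finsupp.finsetSum_apply, Finsupp.single_apply, hr]
      rw [Finset.sum_ite_eq']
      by_cases h1 : g = 1
      · subst h1
        split_ifs <;> simp
      · have h2 : ¬ (1 : G) = g := fun h => h1 h.symm
        simp only [h1, h2, if_false]
        split_ifs <;> simp
    simp_rw [e]
    have h3 : Summable fun g : G => ‖(if g = 1 then s else 0 : ℂ)‖ :=
      (hasSum_ite_eq (1 : G) s).summable.norm
    have h4 : ∑' g : G, ‖(if g = 1 then s else 0 : ℂ)‖ = ‖s‖ := by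
      rw [tsum_eq_single 1 (fun g hg => by simp [hg])]
      simp
    have h5 := (hrs.of_norm.add h3.of_norm).norm.tsum_le_tsum
      (fun g => norm_add_le (r g) (if g = 1 then s else 0)) (hrs.add h3)
    rw [hrs.tsum_add h3, h4] at h5
    linarith

theorem cv_summand {m S : G → ℂ} (hm : Summable fun g => ‖m g‖) (hS : Summable fun g => ‖S g‖)
    (u : G) : Summable fun h => ‖m h‖ * ‖S (h⁻¹ * u)‖ := by
  have h1 : Summable fun p : G × G => ‖m p.1‖ * ‖S (p.1⁻¹ * p.2)‖ :=
    (Main.shear G).summable_iff.2 (Main.summable_prod hm hS)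
  have h2 : Summable fun p : G × G => ‖m p.2‖ * ‖S (p.2⁻¹ * p.1)‖ :=
    (Equiv.prodComm G G).summable_iff.2 h1
  exact h2.prod_factor u

theorem cv_norm {m S : G → ℂ} (hm : Summable fun g => ‖m g‖) (hS : Summable fun g => ‖S g‖) :
    ∑' u, ‖Main.cv m S u‖ ≤ (∑' g, ‖m g‖) * ∑' g, ‖S g‖ := by
  have h1 : Summable fun p : G × G => ‖m p.1‖ * ‖S (p.1⁻¹ * p.2)‖ :=
    (Main.shear G).summable_iff.2 (Main.summable_prod hm hS)
  have h2 : Summable fun p : G × G => ‖m p.2‖ * ‖S (p.2⁻¹ * p.1)‖ :=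
    (Equiv.prodComm G G).summable_iff.2 h1
  have h3 : ∑' u, ∑' h, ‖m h‖ * ‖S (h⁻¹ * u)‖ = ∑' h, ∑' u, ‖m h‖ * ‖S (h⁻¹ * u)‖ :=
    Summable.tsum_comm (f := fun h u => ‖m h‖ * ‖S (h⁻¹ * u)‖) h1
  have h4 : ∀ h, ∑' u, ‖m h‖ * ‖S (h⁻¹ * u)‖ = ‖m h‖ * ∑' g, ‖S g‖ := by
    intro h
    rw [tsum_mul_left]
    congr 1
    exact (Equiv.mulLeft h⁻¹).tsum_eq fun g => ‖S g‖
  simp_rw [h4] at h3
  rw [tsum_mul_right] at h3
  rw [← h3]
  refine (Main.summable_cv hm hS).tsum_le_tsum (fun u => ?_) h2.prod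
  have h5 : Summable fun h => ‖m h * S (h⁻¹ * u)‖ := by
    simpa only [norm_mul] using cv_summand hm hS u
  refine (norm_tsum_le_tsum_norm h5).trans (le_of_eq ?_)
  simp only [norm_mul]

theorem coeff_mul_cv (p q : MonoidAlgebra ℂ G) (u : G) :
    (p * q).coeff u = Main.cv p.coeff q.coeff u := by
  rw [MonoidAlgebra.coeff_mul_apply_left, Main.cv, tsum_eq_sum (s := p.coeff.support)]
  · rfl
  · intro g hg
    have : p.coeff g = 0 := by simpa using hg
    simp [this]

theorem not_dense {al : Fin 2 → ℂ} (hal : ∀ t, ‖al t‖ = 4 / 5) {A B : ℂ} (hA : ‖A‖ = 5 / 8)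
    (hB : ‖B‖ = 5 / 8) (hAB : A + B = 1) (hab : A * al 0 + B * al 1 = 1) {b c : G → ℂ}
    (hb : Summable fun g => ‖b g‖) (hb0 : ∑' g, b g = 0)
    (hc : Summable fun g => ‖c g‖) (hc0 : ∑' g, c g = 0) :
    1 / 60000000 ≤ ∑' g, ‖Main.cv b c g - (zA A B).coeff g‖ := by
  by_contra hcon
  rw [not_le] at hcon
  have nb : 0 ≤ ∑' g, ‖b g‖ := tsum_nonneg fun _ => norm_nonneg _
  have nc : 0 ≤ ∑' g, ‖c g‖ := tsum_nonneg fun _ => norm_nonneg _
  set η : ℝ := min 1 (1 / 60000000 / (∑' g, ‖c g‖ + ∑' g, ‖b g‖ + 1)) with hη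
  have hη0 : 0 < η := lt_min one_pos (by positivity)
  have hη1 : η ≤ 1 := min_le_left _ _
  have hη2 : η * (∑' g, ‖c g‖ + ∑' g, ‖b g‖ + 1) ≤ 1 / 60000000 :=
    (le_div_iff₀ (by positivity)).1 (min_le_right _ _)
  obtain ⟨p, hp, hp2⟩ := approx hb hb0 hη0
  obtain ⟨q, hq, hq2⟩ := approx hc hc0 hη0
  have h1 := finite_case hal hA hB hAB hab hp hq
  have sp := summable_coeff p
  have sq := summable_coeff q
  have sbp : Summable fun g => ‖b g - p.coeff g‖ := (hb.of_norm.sub sp.of_norm).norm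
  have scq : Summable fun g => ‖c g - q.coeff g‖ := (hc.of_norm.sub sq.of_norm).norm
  have np : ∑' g, ‖p.coeff g‖ ≤ ∑' g, ‖b g‖ + 1 := by
    have := sp.tsum_le_tsum (g := fun g => ‖b g‖ + ‖b g - p.coeff g‖) (fun g => by
      have := norm_sub_le (b g) (b g - p.coeff g)
      simpa using this) (hb.add sbp)
    rw [hb.tsum_add sbp] at this
    linarith
  have e : ∀ u, (zA A B - p * q).coeff u = -(Main.cv b c u - (zA A B).coeff u) +
      Main.cv (fun g => b g - p.coeff g) c u +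
      Main.cv p.coeff (fun g => c g - q.coeff g) u := by
    intro u
    have s1 : Summable fun h => b h * c (h⁻¹ * u) :=
      Summable.of_norm (by simpa only [norm_mul] using cv_summand hb hc u)
    have s2 : Summable fun h => p.coeff h * c (h⁻¹ * u) :=
      Summable.of_norm (by simpa only [norm_mul] using cv_summand sp hc u)
    have s3 : Summable fun h => p.coeff h * q.coeff (h⁻¹ * u) :=
      Summable.of_norm (by simpa only [norm_mul] using cv_summand sp sq u)
    rw [MonoidAlgebra.coeff_sub, Finsupp.sub_apply, coeff_mul_cv]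
    simp only [Main.cv, sub_mul, mul_sub]
    rw [s1.tsum_sub s2, s2.tsum_sub s3]
    ring
  have c1 := cv_norm sbp hc
  have c2 := cv_norm sp scq
  have s0 : Summable fun u => ‖Main.cv b c u - (zA A B).coeff u‖ :=
    ((Main.summable_cv hb hc).of_norm.sub (summable_coeff _).of_norm).norm
  have s1 := Main.summable_cv sbp hc
  have s2 := Main.summable_cv sp scq
  have h2 := (summable_coeff (zA A B - p * q)).tsum_le_tsum
    (g := fun u => ‖Main.cv b c u - (zA A B).coeff u‖ +
      ‖Main.cv (fun g => b g - p.coeff g) c u‖ +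
      ‖Main.cv p.coeff (fun g => c g - q.coeff g) u‖) (fun u => by
      rw [e]
      refine norm_add₃_le.trans ?_
      rw [norm_neg]) ((s0.add s1).add s2)
  rw [(s0.add s1).tsum_add s2, s0.tsum_add s1, tsum_coeff] at h2
  have c3 : (∑' g, ‖b g - p.coeff g‖) * ∑' g, ‖c g‖ ≤ η * ∑' g, ‖c g‖ := by gcongr
  have c4 : (∑' g, ‖p.coeff g‖) * ∑' g, ‖c g - q.coeff g‖ ≤ (∑' g, ‖b g‖ + 1) * η := by
    have : 0 ≤ ∑' g, ‖c g - q.coeff g‖ := tsum_nonneg fun _ => norm_nonneg _
    gcongr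
  nlinarith

theorem not_dense' : ∃ z : G → ℂ, (Function.support z).Finite ∧ (Summable fun g => ‖z g‖) ∧
    ∑' g, z g = 0 ∧ ∀ b c : G → ℂ, (Summable fun g => ‖b g‖) → ∑' g, b g = 0 →
      (Summable fun g => ‖c g‖) → ∑' g, c g = 0 →
      1 / 60000000 ≤ ∑' g, ‖Main.cv b c g - z g‖ := by
  set A : ℂ := (4 + 3 * Complex.I) / 8 with hA
  set B : ℂ := (4 - 3 * Complex.I) / 8 with hB
  have n1 : ‖(4 + 3 * Complex.I : ℂ)‖ = 5 := by
    rw [Complex.norm_def, Real.sqrt_eq_iff_mul_self_eq (Complex.normSq_nonneg _) (by norm_num)]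
    simp [Complex.normSq_apply]; norm_num
  have n2 : ‖(4 - 3 * Complex.I : ℂ)‖ = 5 := by
    rw [Complex.norm_def, Real.sqrt_eq_iff_mul_self_eq (Complex.normSq_nonneg _) (by norm_num)]
    simp [Complex.normSq_apply]; norm_num
  have hAB : A + B = 1 := by rw [hA, hB]; ring
  have hnA : ‖A‖ = 5 / 8 := by rw [hA, norm_div, n1]; norm_num
  have hnB : ‖B‖ = 5 / 8 := by rw [hB, norm_div, n2]; norm_num
  set al : Fin 2 → ℂ := ![4 * (4 - 3 * Complex.I) / 25, 4 * (4 + 3 * Complex.I) / 25] with hal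
  have hnal : ∀ t, ‖al t‖ = 4 / 5 := by
    intro t
    fin_cases t
    · simp only [hal, Fin.zero_eta, Matrix.cons_val_zero]
      rw [norm_div, norm_mul, n2]; norm_num
    · simp only [hal, Fin.mk_one, Matrix.cons_val_one, Matrix.cons_val_zero]
      rw [norm_div, norm_mul, n1]; norm_num
  have hab : A * al 0 + B * al 1 = 1 := by
    simp only [hA, hB, hal, Matrix.cons_val_zero, Matrix.cons_val_one]
    linear_combination (-9 / 25 : ℂ) * Complex.I_sq
  refine ⟨(zA A B).coeff, (zA A B).coeff.hasFiniteSupport, summable_coeff _, ?_,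
    fun b c hb hb0 hc hc0 => not_dense hnal hnA hnB hAB hab hb hb0 hc hc0⟩
  rw [tsum_eq_sum (s := (zA A B).coeff.support) (fun g hg => by simpa using hg), ← aug_eq]
  simp only [zA, aug, map_sub, map_one, map_smul, MonoidAlgebra.lift_single]
  simp only [MonoidHom.one_apply, smul_eq_mul, mul_one]
  linear_combination -hAB

end Pool.Agent.H551Z.ND
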