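import Pool.Agent.Helper198.SchD

/-!
# The Fermat quartic: chart rings
-/

set_option autoImplicit false

open MvPolynomial Pool.Agent.Helper198.Sch

namespace Pool.Agent.H551Z.Quartic

attribute [local instance] MvPolynomial.gradedAlgebra

variable (R : Type) [CommRing R]

/-- The Fermat quartic form. -/
noncomputable def fer : MvPolynomial (Fin 3) R := X 0 ^ 4 + X 1 ^ 4 + X 2 ^ 4

lemma fer_hom : (fer R).IsHomogeneous 4 := by
  unfold fer
  exact ((isHomogeneous_X_pow _ _).add (isHomogeneous_X_pow _ _)).add (isHomogeneous_X_pow _ _)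

/-- The homogeneous ideal of the quartic. -/
noncomputable def JF : HI (Fin 3) R :=
  ⟨Ideal.span {fer R}, Ideal.homogeneous_span _ _ (by
    rintro x rfl
    exact ⟨4, fer_hom R⟩)⟩

lemma JF_toIdeal : (JF R).toIdeal = Ideal.span {fer R} := rfl

variable {R}

lemma aeval_JF {E : Type*} [CommRing E] [Algebra R E] (u : Fin 3 → E)
    (hu : u 0 ^ 4 + u 1 ^ 4 + u 2 ^ 4 = 0) : ∀ f ∈ (JF R).toIdeal, aeval u f = 0 := by
  intro f hf
  rw [JF_toIdeal, Ideal.mem_span_singleton] at hf
  obtain ⟨g, rfl⟩ := hf
  rw [map_mul]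
  have : aeval u (fer R) = 0 := by
    simp only [fer, map_add, map_pow, aeval_X]
    exact hu
  rw [this, zero_mul]

lemma frac_sum (i : Fin 3) :
    frac (JF R) i 0 ^ 4 + frac (JF R) i 1 ^ 4 + frac (JF R) i 2 ^ 4 = 0 := by
  have h := aeval_frac_eq_zero (JF R) i (fer R) (Ideal.subset_span rfl)
  simpa only [fer, map_add, map_pow, aeval_X] using h

lemma sum_cyc {E : Type*} [AddCommMonoid E] (g : Fin 3 → E) (i : Fin 3) :
    g 0 + g 1 + g 2 = g i + g (i + 1) + g (i + 2) := by
  fin_cases i
  · rfl
  · change g 0 + g 1 + g 2 = g 1 + g 2 + g 0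
    abel
  · change g 0 + g 1 + g 2 = g 2 + g 0 + g 1
    abel

lemma frac_rel (i : Fin 3) :
    1 + frac (JF R) i (i + 1) ^ 4 + frac (JF R) i (i + 2) ^ 4 = 0 := by
  have h := frac_sum (R := R) i
  rw [sum_cyc (fun m => frac (JF R) i m ^ 4) i, frac_self, one_pow] at h
  exact h

/-- coordinates `(1, x, y)` placed cyclically starting at `i`. -/
def cy {E : Type*} [CommRing E] (i : Fin 3) (x y : E) : Fin 3 → E :=
  fun m => if m = i then 1 else if m = i + 1 then x else y

lemma cy_self {E : Type*} [CommRing E] (i : Fin 3) (x y : E) : cy i x y i = 1 := by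
  simp [cy]

lemma cy_one {E : Type*} [CommRing E] (i : Fin 3) (x y : E) : cy i x y (i + 1) = x := by
  fin_cases i <;> simp [cy]

lemma cy_two {E : Type*} [CommRing E] (i : Fin 3) (x y : E) : cy i x y (i + 2) = y := by
  fin_cases i <;> simp [cy]

lemma cyc_cases (i m : Fin 3) : m = i ∨ m = i + 1 ∨ m = i + 2 := by
  revert i m; decide

/-- The universal property of the chart ring. -/
noncomputable def lift (i : Fin 3) {E : Type*} [CommRing E] [Algebra R E] (x y : E)
    (h : 1 + x ^ 4 + y ^ 4 = 0) : Ch (JF R) i →ₐ[R] E :=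
  chLift (JF R) i (cy i x y) (cy_self i x y) (aeval_JF _ (by
    rw [sum_cyc (fun m => cy i x y m ^ 4) i, cy_self, cy_one, cy_two, one_pow]
    exact h))

lemma lift_frac (i : Fin 3) {E : Type*} [CommRing E] [Algebra R E] (x y : E)
    (h : 1 + x ^ 4 + y ^ 4 = 0) (m : Fin 3) : lift i x y h (frac (JF R) i m) = cy i x y m :=
  chLift_frac _ _ _ _ _ _

lemma lift_one (i : Fin 3) {E : Type*} [CommRing E] [Algebra R E] (x y : E)
    (h : 1 + x ^ 4 + y ^ 4 = 0) : lift i x y h (frac (JF R) i (i + 1)) = x := by
  rw [lift_frac, cy_one]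

lemma lift_two (i : Fin 3) {E : Type*} [CommRing E] [Algebra R E] (x y : E)
    (h : 1 + x ^ 4 + y ^ 4 = 0) : lift i x y h (frac (JF R) i (i + 2)) = y := by
  rw [lift_frac, cy_two]

lemma hom_ext (i : Fin 3) {E : Type*} [CommRing E] [Algebra R E] (f g : Ch (JF R) i →ₐ[R] E)
    (h1 : f (frac (JF R) i (i + 1)) = g (frac (JF R) i (i + 1)))
    (h2 : f (frac (JF R) i (i + 2)) = g (frac (JF R) i (i + 2))) : f = g := by
  apply ch_algHom_ext
  intro m
  rcases cyc_cases i m with rfl | rfl | rfl
  · rw [frac_self, map_one, map_one]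
  · exact h1
  · exact h2

/-! ### Plane model -/

variable (R) in
/-- the affine equation -/
noncomputable def aff : Unit → MvPolynomial (Fin 2) R := fun _ => 1 + X 0 ^ 4 + X 1 ^ 4

variable (R) in
/-- the affine coordinate ring -/
abbrev QA : Type := MvPolynomial (Fin 2) R ⧸ Ideal.span (Set.range (aff R))

lemma QA_rel : (1 : QA R) + Ideal.Quotient.mk _ (X 0) ^ 4 + Ideal.Quotient.mk _ (X 1) ^ 4 = 0 := by
  have : Ideal.Quotient.mk (Ideal.span (Set.range (aff R))) (aff R ()) = 0 :=
    Ideal.Quotient.eq_zero_iff_mem.2 (Ideal.subset_span ⟨(), rfl⟩)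
  simpa only [aff, map_add, map_pow, map_one] using this

/-- maps out of the affine coordinate ring -/
noncomputable def QAlift {E : Type*} [CommRing E] [Algebra R E] (x y : E)
    (h : 1 + x ^ 4 + y ^ 4 = 0) : QA R →ₐ[R] E :=
  Ideal.Quotient.liftₐ _ (aeval ![x, y]) (by
    intro f hf
    have : Ideal.span (Set.range (aff R)) ≤
        RingHom.ker (aeval ![x, y] : MvPolynomial (Fin 2) R →ₐ[R] E).toRingHom := by
      rw [Ideal.span_le]
      rintro _ ⟨u, rfl⟩
      change aeval ![x, y] (aff R u) = 0
      simp only [aff, map_add, map_pow, map_one, aeval_X]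
      exact h
    exact this hf)

lemma QAlift_X {E : Type*} [CommRing E] [Algebra R E] (x y : E)
    (h : 1 + x ^ 4 + y ^ 4 = 0) (m : Fin 2) :
    QAlift x y h (Ideal.Quotient.mk _ (X m : MvPolynomial (Fin 2) R)) = ![x, y] m := by
  change aeval ![x, y] (X m : MvPolynomial (Fin 2) R) = _
  rw [aeval_X]

/-- The chart ring is the affine coordinate ring. -/
noncomputable def chEquiv (i : Fin 3) : QA R ≃ₐ[R] Ch (JF R) i :=
  AlgEquiv.ofAlgHom (QAlift _ _ (frac_rel i)) (lift i _ _ QA_rel)
    (by
      apply hom_ext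
      · rw [AlgHom.comp_apply, lift_one, QAlift_X]; rfl
      · rw [AlgHom.comp_apply, lift_two, QAlift_X]; rfl)
    (by
      apply Ideal.Quotient.algHom_ext
      apply MvPolynomial.algHom_ext
      intro m
      change lift i _ _ QA_rel (QAlift _ _ (frac_rel i) (Ideal.Quotient.mk _ (X m))) =
        Ideal.Quotient.mk _ (X m)
      rw [QAlift_X]
      fin_cases m
      · exact lift_one _ _ _ _
      · exact lift_two _ _ _ _)

lemma chEquiv_X (i : Fin 3) (m : Fin 2) :
    chEquiv i (Ideal.Quotient.mk _ (X m : MvPolynomial (Fin 2) R)) =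
      ![frac (JF R) i (i + 1), frac (JF R) i (i + 2)] m :=
  QAlift_X _ _ (frac_rel i) m

/-! ### Smoothness -/

lemma piv_inj (m : Fin 2) : Function.Injective (fun _ : Unit => m) := fun _ _ _ => rfl

/-- presentation with pivot `m`. -/
noncomputable def pres (m : Fin 2) : Algebra.PreSubmersivePresentation R (QA R) (Fin 2) Unit :=
  Algebra.PreSubmersivePresentation.naive (v := aff R) (fun _ => m) (piv_inj m)

lemma pres_jac (m : Fin 2) :
    (pres (R := R) m).jacobian = 4 * Ideal.Quotient.mk _ (X m : MvPolynomial (Fin 2) R) ^ 3 := by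
  rw [Algebra.PreSubmersivePresentation.jacobian_eq_jacobiMatrix_det]
  have : (pres (R := R) m).jacobiMatrix = Matrix.of (fun _ _ => 4 * X m ^ 3) := by
    apply Matrix.ext
    intro i j
    rw [pres, Algebra.PreSubmersivePresentation.jacobiMatrix_naive]
    fin_cases m <;> simp [aff, pderiv_X]
  rw [this, Matrix.det_unique]
  change Ideal.Quotient.mk _ (4 * X m ^ 3) = _
  simp only [map_mul, map_pow, map_ofNat]

lemma smooth_away (h4 : IsUnit (4 : R)) (i : Fin 3) (m : Fin 2) :
    Algebra.IsStandardSmoothOfRelativeDimension 1 R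
      (Localization.Away (![frac (JF R) i (i + 1), frac (JF R) i (i + 2)] m)) := by
  set t := ![frac (JF R) i (i + 1), frac (JF R) i (i + 2)] m with ht
  let P := (pres (R := R) m).ofAlgEquiv (chEquiv i)
  let Q := Algebra.PreSubmersivePresentation.localizationAway (Localization.Away t) t
  have hu : IsUnit (algebraMap (Ch (JF R) i) (Localization.Away t) t) :=
    IsLocalization.Away.algebraMap_isUnit t
  have hj : IsUnit (Q.comp P).jacobian := by
    rw [Algebra.PreSubmersivePresentation.comp_jacobian_eq_jacobian_smul_jacobian,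
      Algebra.PreSubmersivePresentation.localizationAway_jacobian,
      Algebra.PreSubmersivePresentation.jacobian_ofAlgEquiv, pres_jac, map_mul, map_pow,
      chEquiv_X, ← ht, Algebra.smul_def, map_mul, map_pow, map_ofNat, map_ofNat]
    have h5 : IsUnit (4 : Localization.Away t) := by
      have := h4.map (algebraMap R (Localization.Away t))
      rwa [map_ofNat] at this
    exact (h5.mul (hu.pow 3)).mul hu
  let S : Algebra.SubmersivePresentation R (Localization.Away t) (Unit ⊕ Fin 2) (Unit ⊕ Unit) :=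
    { Q.comp P with jacobian_isUnit := hj }
  apply S.isStandardSmoothOfRelativeDimension
  simp [Algebra.Presentation.dimension]

lemma locally_smooth (h4 : IsUnit (4 : R)) (i : Fin 3) :
    RingHom.Locally (RingHom.IsStandardSmoothOfRelativeDimension 1)
      (algebraMap R (Ch (JF R) i)) := by
  refine ⟨Set.range ![frac (JF R) i (i + 1), frac (JF R) i (i + 2)], ?_, ?_⟩
  · rw [Ideal.eq_top_iff_one]
    have h := frac_rel (R := R) i
    have h1 : (1 : Ch (JF R) i) = (-frac (JF R) i (i + 1) ^ 3) * frac (JF R) i (i + 1) +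
        (-frac (JF R) i (i + 2) ^ 3) * frac (JF R) i (i + 2) := by
      linear_combination h
    rw [h1]
    exact Ideal.add_mem _ (Ideal.mul_mem_left _ _ (Ideal.subset_span ⟨0, rfl⟩))
      (Ideal.mul_mem_left _ _ (Ideal.subset_span ⟨1, rfl⟩))
  · rintro _ ⟨m, rfl⟩
    rw [← IsScalarTower.algebraMap_eq, RingHom.isStandardSmoothOfRelativeDimension_algebraMap]
    exact smooth_away h4 i m

/-! ### Integrality -/

section domain

open Polynomial

variable (K : Type) [Field K]

/-- the equation as a polynomial over `K[X]`. -/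
noncomputable def gq : K[X][X] := Polynomial.X ^ 4 + Polynomial.C (1 + Polynomial.X ^ 4)

lemma gq_monic : (gq K).Monic := monic_X_pow_add_C _ (by norm_num)

lemma gq_irreducible (h4 : (4 : K) ≠ 0) : Irreducible (gq K) := by
  have hsep : (1 + Polynomial.X ^ 4 : K[X]).Separable := by
    have h := separable_X_pow_sub_C (F := K) (n := 4) (-1) (by exact_mod_cast h4) (by simp)
    have e : (Polynomial.X ^ 4 - Polynomial.C (-1) : K[X]) = 1 + Polynomial.X ^ 4 := by
      simp; ring
    rwa [e] at h
  have hdeg : (1 + Polynomial.X ^ 4 : K[X]).natDegree = 4 := by compute_degree!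
  have hnu : ¬ IsUnit (1 + Polynomial.X ^ 4 : K[X]) := by
    intro h
    rw [natDegree_eq_zero_of_isUnit h] at hdeg
    omega
  have hne : (1 + Polynomial.X ^ 4 : K[X]) ≠ 0 := hsep.ne_zero
  obtain ⟨p, hp, hpd⟩ := WfDvdMonoid.exists_irreducible_factor hnu hne
  have hpp : Prime p := hp.prime
  have hdg : (gq K).natDegree = 4 := by unfold gq; exact natDegree_X_pow_add_C
  have hE : (gq K).IsEisensteinAt (Ideal.span {p}) := by
    refine (gq_monic K).isEisensteinAt_of_mem_of_notMem
      ((Ideal.span_singleton_prime hpp.ne_zero).2 hpp).ne_top ?_ ?_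
    · intro n hn
      rw [hdg] at hn
      rw [Ideal.mem_span_singleton]
      unfold gq
      rw [Polynomial.coeff_add, Polynomial.coeff_X_pow, Polynomial.coeff_C, if_neg (by omega), zero_add]
      split_ifs
      · exact hpd
      · exact dvd_zero _
    · rw [Ideal.span_singleton_pow, Ideal.mem_span_singleton]
      unfold gq
      rw [Polynomial.coeff_add, Polynomial.coeff_X_pow, Polynomial.coeff_C, if_neg (by omega), zero_add, if_pos rfl,
        pow_two]
      intro h
      exact hp.not_isUnit (hsep.squarefree p h)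
  exact hE.irreducible ((Ideal.span_singleton_prime hpp.ne_zero).2 hpp) (gq_monic K).isPrimitive
    (by rw [hdg]; norm_num)

lemma root_rel : (1 : AdjoinRoot (gq K)) + (AdjoinRoot.of (gq K) Polynomial.X) ^ 4 +
    AdjoinRoot.root (gq K) ^ 4 = 0 := by
  have h := AdjoinRoot.eval₂_root (gq K)
  conv at h => lhs; arg 3; unfold gq
  rw [Polynomial.eval₂_add, Polynomial.eval₂_pow, Polynomial.eval₂_X, Polynomial.eval₂_C,
    map_add, map_one, map_pow] at h
  linear_combination h

lemma ch_isDomain (h4 : (4 : K) ≠ 0) (i : Fin 3) : IsDomain (Ch (JF K) i) := by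
  have : IsDomain (AdjoinRoot (gq K)) := AdjoinRoot.isDomain_of_prime (gq_irreducible K h4).prime
  let f : Ch (JF K) i →ₐ[K] AdjoinRoot (gq K) := lift i _ _ (root_rel K)
  let g0 : K[X] →+* Ch (JF K) i := (Polynomial.aeval (frac (JF K) i (i + 1))).toRingHom
  let g : AdjoinRoot (gq K) →+* Ch (JF K) i :=
    AdjoinRoot.lift g0 (frac (JF K) i (i + 2)) (by
      unfold gq
      rw [Polynomial.eval₂_add, Polynomial.eval₂_pow, Polynomial.eval₂_X, Polynomial.eval₂_C,
        map_add, map_one, map_pow]
      have h := frac_rel (R := K) i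
      have h2 : g0 Polynomial.X = frac (JF K) i (i + 1) := by simp [g0]
      rw [h2]
      linear_combination h)
  have hg : (g.comp (f : Ch (JF K) i →+* AdjoinRoot (gq K))) = RingHom.id _ := by
    apply ch_ringHom_ext
    · intro r
      change g (f (algebraMap K _ r)) = algebraMap K _ r
      rw [AlgHom.commutes]
      change g (AdjoinRoot.of (gq K) (Polynomial.C r)) = _
      rw [AdjoinRoot.lift_of]
      simp [g0]
    · intro m
      change g (f (frac (JF K) i m)) = frac (JF K) i m
      rcases cyc_cases i m with rfl | rfl | rfl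
      · rw [frac_self, map_one, map_one]
      · rw [lift_one, AdjoinRoot.lift_of]
        simp [g0]
      · rw [lift_two, AdjoinRoot.lift_root]
  have hinj : Function.Injective f := by
    intro x y hxy
    have h1 := DFunLike.congr_fun hg x
    have h2 := DFunLike.congr_fun hg y
    change g (f x) = x at h1
    change g (f y) = y at h2
    rw [← h1, ← h2, hxy]
  exact hinj.isDomain f

end domain

end Pool.Agent.H551Z.Quartic
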