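import Pool.Agent.H551Z.QuarticA

/-!
# The Fermat quartic: proper, smooth, geometrically integral, points
-/

set_option autoImplicit false

open MvPolynomial Pool.Agent.Helper198.Sch AlgebraicGeometry CategoryTheory Limits
  TopologicalSpace

namespace Pool.Agent.H551Z.Quartic

attribute [local instance] MvPolynomial.gradedAlgebra

section top

lemma irreducibleSpace_of_cover {X : Type*} [TopologicalSpace X] {ι : Type*}
    {U : ι → Type*} [∀ i, TopologicalSpace (U i)] (f : ∀ i, U i → X)
    (hf : ∀ i, Topology.IsOpenEmbedding (f i)) (hirr : ∀ i, PreirreducibleSpace (U i))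
    (hcov : ∀ x, ∃ i, x ∈ Set.range (f i)) (x0 : X) (hx0 : ∀ i, x0 ∈ Set.range (f i)) :
    IrreducibleSpace X := by
  have h1 : PreirreducibleSpace X := by
    apply PreirreducibleSpace.of_forall_nonempty_inter
    rintro A B hA hB ⟨x, hx⟩ ⟨y, hy⟩
    obtain ⟨i, u, rfl⟩ := hcov x
    obtain ⟨j, v, rfl⟩ := hcov y
    have hi := hirr i
    have hj := hirr j
    obtain ⟨u0, hu0⟩ := hx0 i
    have hr : IsOpen (Set.range (f j)) := (hf j).isOpen_range
    obtain ⟨w, hw1, hw2⟩ := nonempty_preirreducible_inter (X := U i)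
      (hA.preimage (hf i).continuous) (hr.preimage (hf i).continuous) ⟨u, hx⟩
      ⟨u0, by rw [Set.mem_preimage, hu0]; exact hx0 j⟩
    obtain ⟨w', hw'⟩ := hw2
    obtain ⟨w2, hw3, hw4⟩ := nonempty_preirreducible_inter (X := U j)
      (hA.preimage (hf j).continuous) (hB.preimage (hf j).continuous)
      ⟨w', by rw [Set.mem_preimage, hw']; exact hw1⟩ ⟨v, hy⟩
    exact ⟨f j w2, hw3, hw4⟩
  exact { toNonempty := ⟨x0⟩ }

end top

section general

variable {σ : Type} {R : Type} [CommRing R]

lemma isIntegral_of_charts (J : HI σ R) (hdom : ∀ i, IsDomain (Ch J i)) (x0 : V J)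
    (hx0 : ∀ i, x0 ∈ V.D J i) : IsIntegral (V J) := by
  have h1 : IrreducibleSpace (V J) := by
    apply irreducibleSpace_of_cover (fun i => V.chart J i)
      (fun i => (V.chart J i).isOpenEmbedding) _ _ x0
      (fun i => (V.mem_range_chart J _ x0).2 (hx0 i))
    · intro i
      have := hdom i
      have : IrreducibleSpace (Spec (.of (Ch J i))) := inferInstance
      infer_instance
    · intro x
      obtain ⟨i, hi⟩ := V.exists_mem_D J x
      exact ⟨i, (V.mem_range_chart J _ x).2 hi⟩
  have h2 : IsReduced (V J) := by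
    have : ∀ i, IsReduced ((V.cover J).openCover.X i) := by
      intro (i : σ)
      have := hdom i
      change IsReduced (Spec (.of (Ch J i)))
      infer_instance
    exact IsReduced.of_openCover _ (V.cover J).openCover
  exact isIntegral_of_irreducibleSpace_of_isReduced _

lemma isLocalizationElem_eq (J : HI σ R) (c c' : σ) :
    HomogeneousLocalization.Away.isLocalizationElem (gen_mem J c) (gen_mem J c') =
      frac J c c' := by
  apply HomogeneousLocalization.val_injective
  unfold frac
  change (Localization.mk (gen J c' ^ 1) ⟨gen J c ^ 1, _⟩ : Localization.Away (gen J c)) =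
    Localization.mk (gen J c') ⟨gen J c ^ 1, _⟩
  congr 1
  exact pow_one _

lemma chart_mem_D (J : HI σ R) (c c' : σ) (x : Spec (.of (Ch J c))) :
    V.chart J c x ∈ V.D J c' ↔ frac J c c' ∉ x.asIdeal := by
  have h := Proj.awayι_preimage_basicOpen (qgrad J.toIdeal) (gen_mem J c) one_pos
    (gen_mem J c') one_pos
  rw [isLocalizationElem_eq] at h
  have h2 : x ∈ (Proj.awayι (qgrad J.toIdeal) (gen J c) (gen_mem J c) one_pos ⁻¹ᵁ
      Proj.basicOpen (qgrad J.toIdeal) (gen J c')) ↔ x ∈ PrimeSpectrum.basicOpen (frac J c c') := by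
    rw [h]
    exact Iff.rfl
  exact h2

lemma zero_surjective (J : HI σ R) :
    Function.Surjective (algebraMap R (qgrad J.toIdeal 0)) := by
  rintro ⟨x, hx⟩
  obtain ⟨f, hf, rfl⟩ := mem_qgrad.1 hx
  have h0 : f.totalDegree = 0 := Nat.le_zero.1 hf.totalDegree_le
  refine ⟨f.coeff 0, Subtype.ext ?_⟩
  change Ideal.Quotient.mk J.toIdeal (C (f.coeff 0)) = Ideal.Quotient.mk J.toIdeal f
  rw [← totalDegree_eq_zero_iff_eq_C.1 h0]

lemma isProper_str [Finite σ] (J : HI σ R) : IsProper (V.str J) := by
  have h1 : Algebra.FiniteType R (MvPolynomial σ R ⧸ J.toIdeal) := inferInstance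
  have h0 : IsScalarTower R (qgrad J.toIdeal 0) (MvPolynomial σ R ⧸ J.toIdeal) :=
    ⟨fun r x y => by
      change ((r • x : qgrad J.toIdeal 0) : MvPolynomial σ R ⧸ J.toIdeal) * y =
        r • ((x : MvPolynomial σ R ⧸ J.toIdeal) * y)
      rw [Submodule.coe_smul, smul_mul_assoc]⟩
  have h2 : Algebra.FiniteType (qgrad J.toIdeal 0) (MvPolynomial σ R ⧸ J.toIdeal) :=
    Algebra.FiniteType.of_restrictScalars_finiteType R _ _
  have h3 : IsProper (Proj.toSpecZero (qgrad J.toIdeal)) := inferInstance
  have h4 : IsClosedImmersion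
      (Spec.map (CommRingCat.ofHom (algebraMap R (qgrad J.toIdeal 0)))) :=
    IsClosedImmersion.spec_of_surjective _ (zero_surjective J)
  have h5 : IsProper
      (Spec.map (CommRingCat.ofHom (algebraMap R (qgrad J.toIdeal 0)))) := inferInstance
  exact MorphismProperty.comp_mem @IsProper _ _ h3 h5

/-- The point of `V J` given by a map out of a chart ring. -/
noncomputable def ptOf (J : HI σ R) (c : σ) {E : Type} [CommRing E] [Algebra R E]
    (φ : Ch J c →ₐ[R] E) : Spec (.of E) ⟶ V J :=
  Spec.map (CommRingCat.ofHom (φ : Ch J c →+* E)) ≫ V.chart J c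

lemma ptOf_str (J : HI σ R) (c : σ) {E : Type} [CommRing E] [Algebra R E]
    (φ : Ch J c →ₐ[R] E) :
    ptOf J c φ ≫ V.str J = Spec.map (CommRingCat.ofHom (algebraMap R E)) := by
  rw [ptOf, Category.assoc, V.chart_str, ← Spec.map_comp, ← CommRingCat.ofHom_comp]
  congr 2
  ext r
  exact φ.commutes r

lemma ptOf_mem (J : HI σ R) (c : σ) {E : Type} [CommRing E] [Algebra R E]
    (φ : Ch J c →ₐ[R] E) (x : Spec (.of E)) (c' : σ) (h : IsUnit (φ (frac J c c'))) :
    ptOf J c φ x ∈ V.D J c' := by
  have : ptOf J c φ x = V.chart J c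
    (Spec.map (CommRingCat.ofHom (φ : Ch J c →+* E)) x) := rfl
  rw [this, chart_mem_D]
  intro hmem
  have h2 : φ (frac J c c') ∈ x.asIdeal := hmem
  exact x.isPrime.ne_top (Ideal.eq_top_of_isUnit_mem _ h2 h)

end general

section quartic

lemma smooth_str {R : Type} [CommRing R] (h4 : IsUnit (4 : R)) :
    SmoothOfRelativeDimension 1 (V.str (JF R)) := by
  apply IsZariskiLocalAtSource.of_openCover (V.cover (JF R)).openCover
  intro (i : Fin 3)
  change SmoothOfRelativeDimension 1 (V.chart (JF R) i ≫ V.str (JF R))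
  rw [V.chart_str, HasRingHomProperty.Spec_iff (P := @SmoothOfRelativeDimension 1)]
  exact locally_smooth h4 i

lemma exists_good (K : Type) [Field K] :
    ∃ x : AlgebraicClosure K, 1 + (1 : AlgebraicClosure K) ^ 4 + x ^ 4 = 0 := by
  obtain ⟨x, hx⟩ := IsAlgClosed.exists_pow_nat_eq (-2 : AlgebraicClosure K) (n := 4) (by norm_num)
  exact ⟨x, by rw [hx]; norm_num⟩

lemma isIntegral_V (K : Type) [Field K] (h2 : (2 : K) ≠ 0) : IsIntegral (V (JF K)) := by
  have h4 : (4 : K) ≠ 0 := by
    have : (4 : K) = 2 * 2 := by norm_num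
    rw [this]; exact mul_ne_zero h2 h2
  obtain ⟨x, hx⟩ := exists_good K
  have h2' : (2 : AlgebraicClosure K) ≠ 0 := by
    have := (map_ne_zero (algebraMap K (AlgebraicClosure K))).2 h2
    rwa [map_ofNat] at this
  have hx0 : x ≠ 0 := by
    rintro rfl
    apply h2'
    linear_combination hx
  let φ : Ch (JF K) 0 →ₐ[K] AlgebraicClosure K := lift 0 1 x hx
  refine isIntegral_of_charts (JF K) (ch_isDomain K h4)
    (ptOf (JF K) 0 φ (IsLocalRing.closedPoint (AlgebraicClosure K))) (fun i => ?_)
  apply ptOf_mem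
  rcases cyc_cases 0 i with rfl | rfl | rfl
  · rw [frac_self, map_one]; exact isUnit_one
  · rw [lift_one]; exact isUnit_one
  · rw [lift_two]; exact IsUnit.mk0 _ hx0

lemma map_fer {R R' : Type} [CommRing R] [CommRing R'] (φ : R →+* R') :
    MvPolynomial.map φ (fer R) = fer R' := by
  simp [fer]

lemma geomIntegral (k : Type) [Field k] (h2 : (2 : k) ≠ 0) :
    GeometricallyIntegral (V.str (JF k)) := by
  refine ⟨?_⟩
  rw [geometrically_iff_of_commRing]
  intro K _ _ Y fst snd h
  have hr : V.Rel (algebraMap k K) (JF k) (JF K) := by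
    rw [V.Rel, JF_toIdeal, JF_toIdeal, Ideal.span_le]
    rintro _ rfl
    change MvPolynomial.map (algebraMap k K) (fer k) ∈ Ideal.span {fer K}
    rw [map_fer]
    exact Ideal.subset_span rfl
  have hr' : (JF K).toIdeal ≤ (JF k).toIdeal.map (MvPolynomial.map (algebraMap k K)) := by
    rw [JF_toIdeal, JF_toIdeal, Ideal.map_span, Set.image_singleton, map_fer]
  have hp := V.isPullback_map (algebraMap k K) (JF k) (JF K) hr hr'
  have h2' : (2 : K) ≠ 0 := by
    have := (map_ne_zero (algebraMap k K)).2 h2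
    rwa [map_ofNat] at this
  have hi := isIntegral_V K h2'
  exact IsIntegral.of_isIso (hp.isoIsPullback _ _ h).hom

lemma geomConnected (k : Type) [Field k] (h2 : (2 : k) ≠ 0) :
    GeometricallyConnected (V.str (JF k)) := by
  have h := (geomIntegral k h2).geometrically_isIntegral
  refine ⟨?_⟩
  intro K _ y Z fst snd hp
  have : IsIntegral Z := h y fst snd hp
  infer_instance

lemma pow_four_cases {k : Type} [Field k] [Fintype k] (hk : Fintype.card k = 5) (x : k) :
    x ^ 4 = 0 ∨ x ^ 4 = 1 := by
  by_cases hx : x = 0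
  · left; rw [hx]; norm_num
  · right
    have := FiniteField.pow_card_sub_one_eq_one x hx
    rwa [hk] at this

lemma five_eq_zero {k : Type} [Field k] [Fintype k] (hk : Fintype.card k = 5) : (5 : k) = 0 := by
  have := FiniteField.cast_card_eq_zero k
  rw [hk] at this
  exact_mod_cast this

lemma two_ne_zero5 {k : Type} [Field k] (h5 : (5 : k) = 0) : (2 : k) ≠ 0 := by
  intro h
  have : (1 : k) = 0 := by linear_combination h5 - 2 * h
  exact one_ne_zero this

lemma three_ne_zero5 {k : Type} [Field k] (h5 : (5 : k) = 0) : (3 : k) ≠ 0 := by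
  intro h
  have : (1 : k) = 0 := by linear_combination 2 * h - h5
  exact one_ne_zero this

lemma no_point {k : Type} [Field k] [Fintype k] (hk : Fintype.card k = 5)
    (f : Spec (.of k) ⟶ V (JF k)) : False := by
  obtain ⟨c, hc⟩ := V.exists_mem_D (JF k) (f (IsLocalRing.closedPoint k))
  have hr : Set.range f ⊆ Set.range (V.chart (JF k) c) := by
    rintro _ ⟨y, rfl⟩
    have : y = IsLocalRing.closedPoint k := Subsingleton.elim _ _
    rw [this]
    exact (V.mem_range_chart _ _ _).2 hc
  obtain ⟨φ, -⟩ := Spec.map_surjective (IsOpenImmersion.lift (V.chart (JF k) c) f hr)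
  have h := congrArg φ.hom (frac_rel (R := k) c)
  rw [map_add, map_add, map_one, map_pow, map_pow, map_zero] at h
  have h5 := five_eq_zero hk
  rcases pow_four_cases hk (φ.hom (frac (JF k) c (c + 1))) with h1 | h1 <;>
  rcases pow_four_cases hk (φ.hom (frac (JF k) c (c + 2))) with h2 | h2
  · exact one_ne_zero (α := k) (by linear_combination h - h1 - h2)
  · exact two_ne_zero5 h5 (by linear_combination h - h1 - h2)
  · exact two_ne_zero5 h5 (by linear_combination h - h1 - h2)
  · exact three_ne_zero5 h5 (by linear_combination h - h1 - h2)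

end quartic

end Pool.Agent.H551Z.Quartic
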